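import Mathlib

/-! Chain complexes (real coefficients) of semi-simplicial sets, given by face maps. -/

namespace SV

open Finset

section sss

variable {X : ℕ → Type*} (δ : ∀ k : ℕ, Fin (k + 2) → X (k + 1) → X k)

/-- boundary of the chain complex of a semi-simplicial set -/
noncomputable def gd (k : ℕ) : (X (k + 1) →₀ ℝ) →ₗ[ℝ] (X k →₀ ℝ) :=
  Finsupp.linearCombination ℝ (fun x => ∑ i : Fin (k + 2), (-1 : ℝ) ^ (i : ℕ) • Finsupp.single (δ k i x) (1 : ℝ))

theorem gd_single (k : ℕ) (x : X (k + 1)) (r : ℝ) :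
    gd δ k (Finsupp.single x r) = r • ∑ i : Fin (k + 2), (-1 : ℝ) ^ (i : ℕ) • Finsupp.single (δ k i x) (1 : ℝ) := by
  simp [gd, Finsupp.linearCombination_single]

/-- the simplicial identity -/
def SId : Prop := ∀ (k : ℕ) (x : X (k + 2)) (i j : Fin (k + 2)), i ≤ j →
  δ k i (δ (k + 1) j.succ x) = δ k j (δ (k + 1) i.castSucc x)

theorem gd_gd (h : SId δ) (k : ℕ) (c : X (k + 2) →₀ ℝ) : gd δ k (gd δ (k + 1) c) = 0 := by
  classical
  suffices hh : (gd δ k).comp (gd δ (k + 1)) = 0 by
    have := LinearMap.congr_fun hh c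
    simpa using this
  refine Finsupp.lhom_ext' (fun x => LinearMap.ext_ring ?_)
  simp only [LinearMap.comp_apply, Finsupp.lsingle_apply, LinearMap.zero_apply, gd_single, one_smul,
    map_sum, map_smul]
  simp only [Finset.smul_sum, smul_smul]
  rw [← Finset.sum_product']
  refine Finset.sum_involution (fun (a : Fin (k + 3) × Fin (k + 2)) _ =>
    if hlt : a.2.castSucc < a.1 then (a.2.castSucc, a.1.pred (by
        intro h0; rw [h0] at hlt; exact absurd hlt (Fin.not_lt_zero _)))
      else (a.2.succ, a.1.castPred (by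
        intro h0; rw [h0] at hlt; exact hlt (Fin.castSucc_lt_last _)))) ?_ ?_ ?_ ?_
  · rintro ⟨j, i⟩ _
    by_cases hlt : i.castSucc < j
    · have hj : j ≠ 0 := by
        intro h0; rw [h0] at hlt; exact absurd hlt (Fin.not_lt_zero _)
      have e1 : j = (j.pred hj).succ := (Fin.succ_pred j hj).symm
      have hle : i ≤ j.pred hj := by
        rw [Fin.le_def]; rw [Fin.lt_def] at hlt; simp at hlt ⊢; omega
      have e2 := h k x i (j.pred hj) hle
      rw [← e1] at e2
      simp only [hlt, dite_true]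
      rw [e2, ← add_smul]
      have : (-1 : ℝ) ^ (j : ℕ) * (-1) ^ (i : ℕ) + (-1) ^ ((i.castSucc : Fin (k+3)) : ℕ) * (-1) ^ ((j.pred hj : Fin (k+2)) : ℕ) = 0 := by
        have h1 : (j : ℕ) = ((j.pred hj : Fin (k+2)) : ℕ) + 1 := by
          have h3 : (j : ℕ) ≠ 0 := fun h4 => hj (Fin.ext h4)
          simp only [Fin.val_pred]
          omega
        rw [h1, pow_succ]; simp; ring
      rw [this, zero_smul]
    · have hj : j ≠ Fin.last _ := by
        intro h0; rw [h0] at hlt; exact hlt (Fin.castSucc_lt_last _)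
      have e1 : j = (j.castPred hj).castSucc := (Fin.castSucc_castPred j hj).symm
      have hle : j.castPred hj ≤ i := by
        rw [Fin.le_def]; rw [Fin.lt_def] at hlt; simp at hlt ⊢; omega
      have e2 := h k x (j.castPred hj) i hle
      rw [← e1] at e2
      simp only [hlt, dite_false]
      rw [e2, ← add_smul]
      have : (-1 : ℝ) ^ (j : ℕ) * (-1) ^ (i : ℕ) + (-1) ^ ((i.succ : Fin (k+3)) : ℕ) * (-1) ^ ((j.castPred hj : Fin (k+2)) : ℕ) = 0 := by
        simp [pow_succ]; ring
      rw [this, zero_smul]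
  · rintro ⟨j, i⟩ _ _
    by_cases hlt : i.castSucc < j
    · simp only [hlt, dite_true, ne_eq, Prod.mk.injEq, not_and]
      intro h1; exact absurd h1 hlt.ne
    · simp only [hlt, dite_false, ne_eq, Prod.mk.injEq, not_and]
      intro h1
      exfalso
      apply hlt
      rw [← h1]
      exact Fin.castSucc_lt_succ
  · intro a _
    simp
  · rintro ⟨j, i⟩ _
    by_cases hlt : i.castSucc < j
    · have hj : j ≠ 0 := by
        intro h0; rw [h0] at hlt; exact absurd hlt (Fin.not_lt_zero _)
      have h2 : ¬ ((j.pred hj).castSucc < i.castSucc) := by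
        rw [Fin.lt_def]; rw [Fin.lt_def] at hlt; simp at hlt ⊢; omega
      simp only [hlt, dite_true, h2, dite_false]
      simp
    · have hj : j ≠ Fin.last _ := by
        intro h0; rw [h0] at hlt; exact hlt (Fin.castSucc_lt_last _)
      have h2 : (j.castPred hj).castSucc < i.succ := by
        rw [Fin.lt_def]; rw [Fin.lt_def] at hlt; simp at hlt ⊢; omega
      simp only [hlt, dite_false, h2, dite_true]
      simp

variable {Y : ℕ → Type*} (δ' : ∀ k : ℕ, Fin (k + 2) → Y (k + 1) → Y k)

theorem gd_map (f : ∀ k, X k → Y k)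
    (hf : ∀ (k : ℕ) (i : Fin (k + 2)) (x : X (k + 1)), f k (δ k i x) = δ' k i (f (k + 1) x))
    (k : ℕ) (c : X (k + 1) →₀ ℝ) :
    gd δ' k (Finsupp.mapDomain (f (k + 1)) c) = Finsupp.mapDomain (f k) (gd δ k c) := by
  classical
  have hh : (gd δ' k).comp (Finsupp.lmapDomain ℝ ℝ (f (k + 1))) =
      (Finsupp.lmapDomain ℝ ℝ (f k)).comp (gd δ k) := by
    refine Finsupp.lhom_ext' (fun x => LinearMap.ext_ring ?_)
    simp only [LinearMap.comp_apply, Finsupp.lsingle_apply, gd_single, one_smul,
      map_sum, map_smul, Finsupp.lmapDomain_apply, Finsupp.mapDomain_single, hf]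
  have := LinearMap.congr_fun hh c
  simpa using this

end sss

end SV
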