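import Mathlib

/-! Finite generation, characters, equivariant functions. -/

namespace SV

open Finset Topology

section char

/-- cocompact properly discontinuous actions on connected locally compact spaces: the group is finitely generated -/
theorem fg_of_cocompact {M G : Type*} [TopologicalSpace M] [T2Space M] [LocallyCompactSpace M] [ConnectedSpace M]
    [Group G] [MulAction G M] [ContinuousConstSMul G M] [ProperlyDiscontinuousSMul G M]
    (K : Set M) (hK : IsCompact K) (hcov : ∀ x : M, ∃ g : G, ∃ y ∈ K, x = g • y) : Group.FG G := by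
  obtain ⟨W, hW, hKW⟩ := exists_compact_superset hK
  set S : Set G := {γ : G | ((γ • ·) '' W ∩ W).Nonempty} with hS
  have hSf : S.Finite := ProperlyDiscontinuousSMul.finite_disjoint_inter_image hW hW
  set H : Subgroup G := Subgroup.closure S with hH
  have hopen : ∀ g : G, IsOpen ((g • ·) '' interior W) := fun g =>
    (isOpenMap_smul g) _ isOpen_interior
  set U1 : Set M := ⋃ h ∈ {h : G | h ∈ H}, (h • ·) '' interior W with hU1
  set U2 : Set M := ⋃ h ∈ {h : G | h ∉ H}, (h • ·) '' interior W with hU2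
  have hO1 : IsOpen U1 := isOpen_biUnion (fun g _ => hopen g)
  have hO2 : IsOpen U2 := isOpen_biUnion (fun g _ => hopen g)
  have hcovU : ∀ x : M, x ∈ U1 ∪ U2 := by
    intro x
    obtain ⟨g, y, hy, rfl⟩ := hcov x
    by_cases hg : g ∈ H
    · exact Or.inl (Set.mem_biUnion (show g ∈ {h : G | h ∈ H} from hg) ⟨y, hKW hy, rfl⟩)
    · exact Or.inr (Set.mem_biUnion (show g ∈ {h : G | h ∉ H} from hg) ⟨y, hKW hy, rfl⟩)
  have hdisj : ∀ x : M, x ∈ U1 → x ∈ U2 → False := by
    intro x h1 h2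
    simp only [hU1, hU2, Set.mem_iUnion, Set.mem_ofPred_eq, Set.mem_image, exists_prop] at h1 h2
    obtain ⟨h, hh, y, hy, rfl⟩ := h1
    obtain ⟨g, hg, z, hz, hgz⟩ := h2
    have : h⁻¹ * g ∈ S := by
      refine ⟨y, ⟨z, interior_subset hz, ?_⟩, interior_subset hy⟩
      show (h⁻¹ * g) • z = y
      rw [mul_smul, hgz, inv_smul_smul]
    have h3 : h * (h⁻¹ * g) ∈ H := H.mul_mem hh (Subgroup.subset_closure this)
    rw [mul_inv_cancel_left] at h3
    exact hg h3
  obtain ⟨x0⟩ : Nonempty M := inferInstance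
  obtain ⟨g0, y0, hy0, -⟩ := hcov x0
  have hne1 : U1.Nonempty := ⟨(1 : G) • y0, Set.mem_biUnion (show (1 : G) ∈ {h : G | h ∈ H} from H.one_mem) ⟨y0, hKW hy0, rfl⟩⟩
  have hall : ∀ g : G, g ∈ H := by
    by_contra hcon
    push Not at hcon
    obtain ⟨g, hg⟩ := hcon
    have hne2 : U2.Nonempty := ⟨g • y0, Set.mem_biUnion (show g ∈ {h : G | h ∉ H} from hg) ⟨y0, hKW hy0, rfl⟩⟩
    have hpre : IsPreconnected (Set.univ : Set M) := isPreconnected_univ
    obtain ⟨x, -, hx1, hx2⟩ := hpre U1 U2 hO1 hO2 (fun x _ => hcovU x)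
      (by simpa using hne1) (by simpa using hne2)
    exact hdisj x hx1 hx2
  exact Group.fg_iff.2 ⟨S, eq_top_iff.2 (fun g _ => hall g), hSf⟩

/-- characters detect elements outside a finite subset -/
theorem exists_finite_of_char {G B : Type*} [Group G] [Group.FG G] [Group B] (h : G →* B)
    (hcomm : ∀ a b : G, h a * h b = h b * h a) :
    ∃ T : Set B, T.Finite ∧ ∀ g : G, (∀ χ : G →* Multiplicative ℤ, χ g = 1) → h g ∈ T := by
  let B0 := h.range
  letI : CommGroup B0 :=
    { (inferInstance : Group B0) with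
      mul_comm := by
        rintro ⟨_, a, rfl⟩ ⟨_, b, rfl⟩
        exact Subtype.ext (hcomm a b) }
  have hfg : Group.FG B0 := Group.fg_range h
  have hfin : Module.Finite ℤ (Additive B0) := Module.Finite.iff_addGroup_fg.2 inferInstance
  let Tor := Submodule.torsion ℤ (Additive B0)
  have hT : Finite Tor := Module.finite_of_fg_torsion _ Submodule.torsion_isTorsion
  refine ⟨(fun x : Additive B0 => ((Additive.toMul x : B0) : B)) '' (Tor : Set (Additive B0)), ?_, ?_⟩
  · exact (Set.toFinite _).image _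
  · intro g hg
    refine ⟨Additive.ofMul (⟨h g, g, rfl⟩ : B0), ?_, rfl⟩
    by_contra hx
    set x : Additive B0 := Additive.ofMul (⟨h g, g, rfl⟩ : B0) with hxdef
    have hq : (Submodule.Quotient.mk x : Additive B0 ⧸ Tor) ≠ 0 := by
      intro h0
      exact hx ((Submodule.Quotient.mk_eq_zero _).1 h0)
    let b := Module.Free.chooseBasis ℤ (Additive B0 ⧸ Tor)
    have h1 : b.repr (Submodule.Quotient.mk x : Additive B0 ⧸ Tor) ≠ 0 := by
      intro h0
      exact hq (by simpa using h0)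
    obtain ⟨i, hi⟩ := Finsupp.ne_iff.1 h1
    let f : Additive B0 →+ ℤ := ((b.coord i).comp (Submodule.mkQ Tor)).toAddMonoidHom
    let χ : G →* Multiplicative ℤ :=
      { toFun := fun a => Multiplicative.ofAdd (f (Additive.ofMul (⟨h a, a, rfl⟩ : B0)))
        map_one' := by
          have : (⟨h 1, 1, rfl⟩ : B0) = 1 := Subtype.ext (map_one h)
          rw [this, ofMul_one, map_zero, ofAdd_zero]
        map_mul' := by
          intro a c
          have : (⟨h (a * c), a * c, rfl⟩ : B0) = (⟨h a, a, rfl⟩ : B0) * (⟨h c, c, rfl⟩ : B0) := Subtype.ext (map_mul h a c)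
          rw [this, ofMul_mul, map_add, ofAdd_add] }
    have h2 := hg χ
    apply hi
    exact h2

/-- equivariant function -/
theorem exists_rho {M G : Type*} [TopologicalSpace M] [T2Space M] [LocallyCompactSpace M]
    [Group G] [MulAction G M] [ContinuousConstSMul G M] [ProperlyDiscontinuousSMul G M]
    (K : Set M) (hK : IsCompact K) (hcov : ∀ x : M, ∃ g : G, ∃ y ∈ K, x = g • y) (χ : G →* Multiplicative ℤ) :
    ∃ ρ : C(M, ℝ), ∀ (g : G) (x : M), ρ (g • x) = ρ x + ((Multiplicative.toAdd (χ g) : ℤ) : ℝ) := by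
  obtain ⟨φ, hφ1, -, hφc, hφ⟩ := exists_continuous_one_zero_of_isCompact hK isClosed_empty (Set.disjoint_empty K)
  let c : G → ℝ := fun g => ((Multiplicative.toAdd (χ g) : ℤ) : ℝ)
  have hc : ∀ a g : G, c (a * g) = c a + c g := by
    intro a g
    simp only [c, map_mul, toAdd_mul, Int.cast_add]
  have hlf : LocallyFinite (fun g : G => Function.support (fun x : M => φ (g⁻¹ • x))) := by
    intro x
    obtain ⟨N, hN, hxN⟩ := exists_compact_mem_nhds x
    refine ⟨N, hxN, ?_⟩
    refine (ProperlyDiscontinuousSMul.finite_disjoint_inter_image (Γ := G) hφc hN).subset ?_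
    rintro g ⟨y, hy1, hy2⟩
    refine ⟨y, ⟨g⁻¹ • y, subset_tsupport _ hy1, ?_⟩, hy2⟩
    show g • g⁻¹ • y = y
    rw [smul_inv_smul]
  have hcont : ∀ g : G, Continuous (fun x : M => φ (g⁻¹ • x)) := fun g => φ.continuous.comp (continuous_const_smul _)
  have hfin : ∀ x : M, {g : G | φ (g⁻¹ • x) ≠ 0}.Finite := fun x => hlf.point_finite x
  have hden : Continuous (fun x : M => ∑ᶠ g : G, φ (g⁻¹ • x)) := continuous_finsum hcont hlf
  have hnum : Continuous (fun x : M => ∑ᶠ g : G, c g * φ (g⁻¹ • x)) := by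
    refine continuous_finsum (fun g => (hcont g).const_mul _ |>.congr (fun x => rfl)) ?_
    refine hlf.subset (fun g x hx => ?_)
    simp only [Function.mem_support] at hx ⊢
    exact right_ne_zero_of_mul hx
  have hpos : ∀ x : M, 0 < ∑ᶠ g : G, φ (g⁻¹ • x) := by
    intro x
    obtain ⟨g, y, hy, rfl⟩ := hcov x
    refine finsum_pos (fun g' => (hφ _).1) ⟨g, ?_⟩ (hfin _)
    rw [inv_smul_smul, hφ1 hy]
    exact one_pos
  refine ⟨⟨fun x => (∑ᶠ g : G, c g * φ (g⁻¹ • x)) / (∑ᶠ g : G, φ (g⁻¹ • x)),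
    hnum.div hden (fun x => (hpos x).ne')⟩, ?_⟩
  intro a x
  have e1 : (∑ᶠ g : G, φ (g⁻¹ • (a • x))) = ∑ᶠ g : G, φ (g⁻¹ • x) := by
    rw [← finsum_comp_equiv (Equiv.mulLeft a)]
    refine finsum_congr (fun g => ?_)
    simp only [Equiv.coe_mulLeft, mul_inv_rev, mul_smul, inv_smul_smul]
  have e2 : (∑ᶠ g : G, c g * φ (g⁻¹ • (a • x))) =
      (∑ᶠ g : G, c g * φ (g⁻¹ • x)) + c a * ∑ᶠ g : G, φ (g⁻¹ • x) := by
    rw [← finsum_comp_equiv (Equiv.mulLeft a)]
    have : ∀ g : G, c ((Equiv.mulLeft a) g) * φ (((Equiv.mulLeft a) g)⁻¹ • a • x) =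
        c g * φ (g⁻¹ • x) + c a * φ (g⁻¹ • x) := by
      intro g
      simp only [Equiv.coe_mulLeft, mul_inv_rev, mul_smul, inv_smul_smul, hc]
      ring
    rw [finsum_congr this, finsum_add_distrib, mul_finsum]
    · exact (hfin x).subset (fun g hg => right_ne_zero_of_mul hg)
    · exact (hfin x).subset (fun g hg => right_ne_zero_of_mul hg)
  show (∑ᶠ g : G, c g * φ (g⁻¹ • (a • x))) / (∑ᶠ g : G, φ (g⁻¹ • (a • x))) =
    (∑ᶠ g : G, c g * φ (g⁻¹ • x)) / (∑ᶠ g : G, φ (g⁻¹ • x)) + c a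
  rw [e1, e2, add_div, mul_div_assoc, div_self (hpos x).ne', mul_one]

end char

end SV
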