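import Mathlib

/-! Normalising a character; a cocompact subgroup. -/

namespace SV

theorem exists_char_norm {G : Type*} [Group G] (χ : G →* Multiplicative ℤ) (ζ : G) (hζ : χ ζ ≠ 1) :
    ∃ (χ' : G →* Multiplicative ℤ) (τ : G) (c₀ : ℕ), χ' τ = Multiplicative.ofAdd 1 ∧
      χ' ζ = Multiplicative.ofAdd (c₀ : ℤ) ∧ 0 < c₀ := by
  classical
  -- values of the character
  let f : G → ℤ := fun g => Multiplicative.toAdd (χ g)
  have fmul : ∀ g h, f (g * h) = f g + f h := fun g h => by simp [f]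
  have finv : ∀ g, f g⁻¹ = - f g := fun g => by simp [f]
  have fone : f 1 = 0 := by simp [f]
  have fpow : ∀ g (n : ℤ), f (g ^ n) = n * f g := fun g n => by simp [f]
  have hζ' : f ζ ≠ 0 := fun h => hζ (by
    have : Multiplicative.toAdd (χ ζ) = 0 := h
    exact Multiplicative.toAdd.injective (by simpa using this))
  have hex : ∃ d : ℕ, 0 < d ∧ ∃ g, f g = d := by
    rcases lt_or_gt_of_ne hζ' with h | h
    · refine ⟨(-f ζ).toNat, by omega, ζ⁻¹, ?_⟩
      rw [finv]
      omega
    · exact ⟨(f ζ).toNat, by omega, ζ, by omega⟩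
  obtain ⟨hd0, τ, hτ⟩ := Nat.find_spec hex
  set d := Nat.find hex with hd
  have hmin : ∀ g, 0 < f g → (d : ℤ) ≤ f g := by
    intro g hg
    have : d ≤ (f g).toNat := Nat.find_min' hex ⟨by omega, g, by omega⟩
    omega
  have hdvd : ∀ g, (d : ℤ) ∣ f g := by
    intro g
    rw [Int.dvd_iff_emod_eq_zero]
    by_contra hne
    have hdpos : (0 : ℤ) < d := by exact_mod_cast hd0
    have h1 : 0 ≤ f g % d := Int.emod_nonneg _ (by omega)
    have h2 : f g % d < d := Int.emod_lt_of_pos _ hdpos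
    have h3 : f (g * τ ^ (-(f g / d))) = f g % d := by
      rw [fmul, fpow, hτ]
      have := Int.emod_add_mul_ediv (f g) d
      linarith
    have h4 := hmin (g * τ ^ (-(f g / d))) (by rw [h3]; omega)
    rw [h3] at h4
    omega
  -- the sign
  have hdpos : (0 : ℤ) < d := by exact_mod_cast hd0
  have main : ∀ s : ℤ, (s = 1 ∨ s = -1) → 0 < s * f ζ → ∃ (χ' : G →* Multiplicative ℤ) (τ : G) (c₀ : ℕ),
      χ' τ = Multiplicative.ofAdd 1 ∧ χ' ζ = Multiplicative.ofAdd (c₀ : ℤ) ∧ 0 < c₀ := by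
    intro s hs hpos
    have hss : s * s = 1 := by rcases hs with rfl | rfl <;> norm_num
    let χ' : G →* Multiplicative ℤ :=
      { toFun := fun g => Multiplicative.ofAdd (s * (f g / d))
        map_one' := by rw [fone]; simp
        map_mul' := by
          intro g h
          rw [← ofAdd_add, fmul, Int.add_ediv_of_dvd_left (hdvd g)]
          congr 1
          ring }
    refine ⟨χ', τ ^ s, (s * (f ζ / d)).toNat, ?_, ?_, ?_⟩
    · show Multiplicative.ofAdd (s * (f (τ ^ s) / d)) = _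
      rw [fpow, hτ, Int.mul_ediv_cancel _ hdpos.ne', hss]
    · show Multiplicative.ofAdd (s * (f ζ / d)) = _
      congr 1
      obtain ⟨k, hk⟩ := hdvd ζ
      rw [hk, Int.mul_ediv_cancel_left _ hdpos.ne']
      have : 0 < s * k := by
        rw [hk] at hpos
        have h5 : s * (↑d * k) = d * (s * k) := by ring
        rw [h5] at hpos
        exact (mul_pos_iff_of_pos_left hdpos).1 hpos
      omega
    · obtain ⟨k, hk⟩ := hdvd ζ
      rw [hk, Int.mul_ediv_cancel_left _ hdpos.ne']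
      have : 0 < s * k := by
        rw [hk] at hpos
        have h5 : s * (↑d * k) = d * (s * k) := by ring
        rw [h5] at hpos
        exact (mul_pos_iff_of_pos_left hdpos).1 hpos
      omega
  rcases lt_or_gt_of_ne hζ' with h | h
  · exact main (-1) (Or.inr rfl) (by omega)
  · exact main 1 (Or.inl rfl) (by omega)

/-- cocompactness of the subgroup generated by the kernel and ζ -/
theorem exists_compact_sub {M G : Type*} [TopologicalSpace M] [Group G] [MulAction G M] [ContinuousConstSMul G M]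
    (K : Set M) (hK : IsCompact K) (hcov : ∀ x : M, ∃ g : G, ∃ y ∈ K, x = g • y)
    (χ : G →* Multiplicative ℤ) (τ ζ : G) (c₀ : ℕ) (hτ : χ τ = Multiplicative.ofAdd 1)
    (hζ : χ ζ = Multiplicative.ofAdd (c₀ : ℤ)) (hc : 0 < c₀) :
    ∃ K' : Set M, IsCompact K' ∧ ∀ x : M, ∃ g ∈ χ.ker ⊔ Subgroup.zpowers ζ, ∃ y ∈ K', x = g • y := by
  refine ⟨⋃ r ∈ Finset.range c₀, (fun x => τ ^ r • x) '' K, ?_, ?_⟩
  · exact Finset.isCompact_biUnion _ fun r _ => hK.image (continuous_const_smul _)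
  · intro x
    obtain ⟨g, y, hy, rfl⟩ := hcov x
    set a : ℤ := Multiplicative.toAdd (χ g) with ha
    have hcpos : (0 : ℤ) < c₀ := by exact_mod_cast hc
    have h1 : 0 ≤ a % c₀ := Int.emod_nonneg _ (by omega)
    have h2 : a % c₀ < c₀ := Int.emod_lt_of_pos _ hcpos
    obtain ⟨r, hr⟩ : ∃ r : ℕ, (r : ℤ) = a % c₀ := ⟨(a % c₀).toNat, by omega⟩
    refine ⟨g * (τ ^ r)⁻¹, ?_, τ ^ r • y, ?_, ?_⟩
    · have h3 : g * (τ ^ r)⁻¹ * (ζ ^ (a / c₀))⁻¹ ∈ χ.ker := by
        rw [MonoidHom.mem_ker]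
        apply Multiplicative.toAdd.injective
        simp only [map_mul, map_inv, map_pow, map_zpow, hτ, hζ, toAdd_mul, toAdd_inv, toAdd_pow,
          toAdd_zpow, toAdd_ofAdd, toAdd_one, smul_eq_mul, nsmul_eq_mul]
        rw [← ha]
        have := Int.emod_add_mul_ediv a c₀
        simp only [mul_one]
        rw [hr]
        linarith
      have h4 : g * (τ ^ r)⁻¹ = (g * (τ ^ r)⁻¹ * (ζ ^ (a / c₀))⁻¹) * ζ ^ (a / c₀) := by group
      rw [h4]
      exact Subgroup.mul_mem _ (Subgroup.mem_sup_left h3)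
        (Subgroup.mem_sup_right (Subgroup.zpow_mem _ (Subgroup.mem_zpowers ζ) _))
    · simp only [Set.mem_iUnion]
      refine ⟨r, ?_, y, hy, rfl⟩
      rw [Finset.mem_range]
      omega
    · rw [smul_smul, inv_mul_cancel_right]

end SV
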