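import Pool.Agent.Helper43.SV.Sing

/-! Group actions on singular chains. -/

namespace SV

variable {E G : Type*} [TopologicalSpace E] [Group G] [MulAction G E] [ContinuousConstSMul G E]

/-- translate of a chain -/
noncomputable def tr (g : G) (k : ℕ) : SC E k →ₗ[ℝ] SC E k := smap ⟨fun x => g • x, continuous_const_smul g⟩ k

/-- the span of the elements g c - c, g in the subgroup -/
noncomputable def JJ (Γ : Subgroup G) (k : ℕ) : Submodule ℝ (SC E k) :=
  Submodule.span ℝ {c | ∃ g ∈ Γ, ∃ c' : SC E k, c = tr g k c' - c'}

end SV
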