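import Pool.Agent.Helper43.SV.CovDef

/-! Singular chains and quotient coverings. -/

namespace SV

open Finset Topology

theorem cover_locPath (k : ℕ) : LocallyPathConnectedSpace (Dl k) := by
  refine LocallyPathConnectedSpace.of_bases (p := fun (_ : Dl k) (r : ℝ) => 0 < r)
    (s := fun x r => Metric.ball x r) (fun x => Metric.nhds_basis_ball) ?_
  intro x r hr
  have h1 : IsPathConnected (Subtype.val '' (Metric.ball x r : Set (Dl k))) := by
    have h2 : Subtype.val '' (Metric.ball x r : Set (Dl k)) =
        stdSimplex ℝ (Fin (k + 1)) ∩ Metric.ball (x : Fin (k + 1) → ℝ) r := by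
      ext y
      constructor
      · rintro ⟨z, hz, rfl⟩
        exact ⟨z.2, hz⟩
      · rintro ⟨hy, hy2⟩
        exact ⟨⟨y, hy⟩, hy2, rfl⟩
    rw [h2]
    refine Convex.isPathConnected ((convex_stdSimplex ℝ _).inter (convex_ball _ _)) ?_
    exact ⟨x, x.2, Metric.mem_ball_self hr⟩
  exact (IsInducing.subtypeVal.isPathConnected_iff).2 h1

theorem cover_contr (k : ℕ) : ContractibleSpace (Dl k) :=
  Convex.contractibleSpace (convex_stdSimplex ℝ _) ⟨_, (Classical.arbitrary (Dl k)).2⟩

section cover

variable {E X G : Type*} [TopologicalSpace E] [TopologicalSpace X] [Group G] [MulAction G E] [ContinuousConstSMul G E]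

theorem cover_exists_lift {p : C(E, X)} (hp : IsQuotientCoveringMap p G) (k : ℕ) (σ : Sx X k) :
    ∃ τ : Sx E k, p.comp τ = σ := by
  have := cover_locPath k
  have := cover_contr k
  obtain ⟨e, he⟩ := hp.surjective (σ (Classical.arbitrary _))
  obtain ⟨F, hF, -⟩ := hp.isCoveringMap.existsUnique_continuousMap_lifts σ (Classical.arbitrary _) e he
  refine ⟨F, ?_⟩
  ext t
  exact congrFun hF.2 t

/-- chains lift through coverings, with the same norm -/
theorem lift_chain {p : C(E, X)} (hp : IsQuotientCoveringMap p G) (k : ℕ) (c : SC X k) :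
    ∃ c' : SC E k, smap p k c' = c ∧ nrm c' = nrm c := by
  choose L hL using cover_exists_lift hp k
  have h1 : smap p k (Finsupp.mapDomain L c) = c := by
    rw [smap, Finsupp.lmapDomain_apply, ← Finsupp.mapDomain_comp]
    have : (fun σ => p.comp σ) ∘ L = id := by
      funext σ
      exact hL σ
    rw [this, Finsupp.mapDomain_id]
  refine ⟨Finsupp.mapDomain L c, h1, le_antisymm (nrm_mapDomain _ _) ?_⟩
  have := nrm_smap p k (Finsupp.mapDomain L c)
  rwa [h1] at this

/-- the kernel of the push-forward to the quotient -/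
theorem smap_eq_zero {p : C(E, X)} (hp : IsQuotientCoveringMap p G) (k : ℕ) (c : SC E k)
    (h : smap p k c = 0) : c ∈ JJ (⊤ : Subgroup G) k := by
  choose L hL using cover_exists_lift hp k
  have key : ∀ τ : Sx E k, ∃ g : G, τ = (⟨fun x => g • x, continuous_const_smul g⟩ : C(E, E)).comp (L (p.comp τ)) := by
    intro τ
    have := cover_locPath k
    have := cover_contr k
    have h1 : p (τ (Classical.arbitrary _)) = p (L (p.comp τ) (Classical.arbitrary _)) := by
      have := congrArg (fun f : C(Dl k, X) => f (Classical.arbitrary _)) (hL (p.comp τ))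
      simpa using this.symm
    obtain ⟨g, hg⟩ := hp.apply_eq_iff_mem_orbit.1 h1
    refine ⟨g, ?_⟩
    obtain ⟨F, -, hF⟩ := hp.isCoveringMap.existsUnique_continuousMap_lifts (p.comp τ) (Classical.arbitrary _)
      (τ (Classical.arbitrary _)) rfl
    refine (hF τ ⟨rfl, rfl⟩).trans (hF ((⟨fun x => g • x, continuous_const_smul g⟩ : C(E, E)).comp (L (p.comp τ)))
      ⟨hg, ?_⟩).symm
    funext t
    have h2 := congrArg (fun f : C(Dl k, X) => f t) (hL (p.comp τ))
    simp only [ContinuousMap.comp_apply] at h2
    simp only [Function.comp_apply, ContinuousMap.comp_apply, ContinuousMap.coe_mk, hp.map_smul]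
    exact h2
  have h2 : ∀ c : SC E k, c - Finsupp.mapDomain L (smap p k c) ∈ JJ (⊤ : Subgroup G) k := by
    intro c
    induction c using Finsupp.induction_linear with
    | zero => simp
    | add f g hf hg =>
      have := Submodule.add_mem _ hf hg
      rw [map_add, Finsupp.mapDomain_add]
      convert this using 1
      abel
    | single τ r =>
      obtain ⟨g, hg⟩ := key τ
      refine Submodule.subset_span ⟨g, trivial, Finsupp.single (L (p.comp τ)) r, ?_⟩
      rw [smap_single, Finsupp.mapDomain_single, tr, smap_single]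
      congr 2
  have h3 := h2 c
  rwa [h, Finsupp.mapDomain_zero, sub_zero] at h3

end cover

end SV
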