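import Pool.Agent.Helper43.SV.Euclid

/-! Compact n-manifolds have no homology in degrees greater than n. -/

namespace SV

open Finset Topology

/-- a local chart of X at x with values in R^n -/
def LocEuc (n : ℕ) (X : Type*) [TopologicalSpace X] : Prop :=
  ∀ x : X, ∃ (O : Set (Fin n → ℝ)) (j : C(O, X)), IsOpen O ∧ IsOpenEmbedding j ∧ x ∈ Set.range j

theorem Ex_chart {n : ℕ} {X : Type*} [TopologicalSpace X] (O : Set (Fin n → ℝ)) (j : C(O, X)) (hO : IsOpen O)
    (hj : IsOpenEmbedding j) (S : Set X) (hS : IsOpen S) (hSj : S ⊆ Set.range j) (k : ℕ) (hk : n ≤ k + 1) : Ex X k S := by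
  have hT : IsOpen (j ⁻¹' S) := hS.preimage j.continuous
  have h1 : Ex (Fin n → ℝ) k ((⟨Subtype.val, continuous_subtype_val⟩ : C(O, Fin n → ℝ)) '' (j ⁻¹' S)) :=
    Ex_euclid n _ (hO.isOpenMap_subtype_val _ hT) k hk
  have h2 : Ex O k (j ⁻¹' S) := Ex_emb' (j := (⟨Subtype.val, continuous_subtype_val⟩ : C(O, Fin n → ℝ)))
    IsEmbedding.subtypeVal k _ h1
  have h3 := Ex_emb hj.isEmbedding k _ h2
  rwa [Set.image_preimage_eq_of_subset hSj] at h3

theorem Ex_finite {n : ℕ} (hn : 1 ≤ n) {X ι : Type*} [TopologicalSpace X] (O : ι → Set (Fin n → ℝ)) (j : ∀ i, C(O i, X))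
    (hO : ∀ i, IsOpen (O i)) (hj : ∀ i, IsOpenEmbedding (j i)) (F : Finset ι) :
    ∀ (S : Set X), IsOpen S → S ⊆ (⋃ i ∈ F, Set.range (j i)) → ∀ k, n ≤ k → Ex X k S := by
  classical
  induction F using Finset.induction_on with
  | empty =>
    intro S _ hS2 k _
    have : S = ∅ := by
      apply Set.eq_empty_of_subset_empty
      simpa using hS2
    rw [this]; exact Ex_empty k
  | insert i F _ ih =>
    intro S hS hS2 k hk
    obtain ⟨k', rfl⟩ : ∃ k', k = k' + 1 := ⟨k - 1, by omega⟩
    have hUo : IsOpen (⋃ i ∈ F, Set.range (j i)) := isOpen_biUnion (fun i _ => (hj i).isOpen_range)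
    have hSe : S = (S ∩ Set.range (j i)) ∪ (S ∩ ⋃ i ∈ F, Set.range (j i)) := by
      rw [← Set.inter_union_distrib_left]
      refine (Set.inter_eq_left.2 ?_).symm
      refine hS2.trans ?_
      rw [Finset.set_biUnion_insert]
    rw [hSe]
    refine Ex_union (hS.inter (hj i).isOpen_range) (hS.inter hUo) k' ?_ ?_ ?_
    · exact Ex_chart (O i) (j i) (hO i) (hj i) _ (hS.inter (hj i).isOpen_range) Set.inter_subset_right _ (by omega)
    · exact ih _ (hS.inter hUo) Set.inter_subset_right _ hk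
    · refine Ex_chart (O i) (j i) (hO i) (hj i) _ ((hS.inter (hj i).isOpen_range).inter (hS.inter hUo))
        (Set.inter_subset_left.trans Set.inter_subset_right) _ hk

/-- compact n-manifolds have no homology in degrees greater than n -/
theorem Ex_compact {n : ℕ} (hn : 1 ≤ n) {X : Type*} [TopologicalSpace X] [CompactSpace X] (h : LocEuc n X) (k : ℕ)
    (hk : n ≤ k) : Ex X k Set.univ := by
  classical
  choose O j hO hj hx using h
  obtain ⟨F, hF⟩ := isCompact_univ.elim_finite_subcover (fun x => Set.range (j x)) (fun x => (hj x).isOpen_range)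
    (fun x _ => Set.mem_iUnion.2 ⟨x, hx x⟩)
  exact Ex_finite hn O j hO hj F Set.univ isOpen_univ hF k hk

end SV
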