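import Mathlib

/-! Coloured labels of `R^n` (covering dimension of Euclidean space, quantitative form). -/

namespace SV

open Finset

theorem grid_lip (y z : ℝ) : |y - round y| ≤ |z - round z| + |y - z| := by
  have h1 : |y - round y| ≤ |y - round z| := round_le y (round z)
  have h2 : |y - round z| ≤ |y - z| + |z - round z| := abs_sub_le y z (round z)
  linarith

theorem exists_labels (n : ℕ) (s : ℝ) (hs : 0 < s) :
    ∃ (L : Type) (lab : (Fin n → ℝ) → L) (rep : L → (Fin n → ℝ)) (col : L → Fin (n + 1)) (η : ℝ), 0 < η ∧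
      (∀ x, dist x (rep (lab x)) ≤ s) ∧
      ∀ x y, dist x y < η → col (lab x) = col (lab y) → lab x = lab y := by
  classical
  have hn : (0 : ℝ) < 4 * ((n : ℝ) + 1) := by positivity
  set th : ℕ → ℝ := fun j => ((n : ℝ) + 1 - j) / (4 * ((n : ℝ) + 1)) with hth
  set A : (Fin n → ℝ) → ℕ → Finset (Fin n) := fun y j =>
    univ.filter (fun i => |y i - round (y i)| < th j) with hA
  have hmemA : ∀ y j i, i ∈ A y j ↔ |y i - round (y i)| < th j := by
    intro y j i; simp [hA]
  have hex : ∀ y : Fin n → ℝ, ∃ j, n ≤ (A y j).card + j := fun y => ⟨n, by omega⟩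
  set c : (Fin n → ℝ) → ℕ := fun y => Nat.find (hex y) with hc
  have hcn : ∀ y, c y < n + 1 := fun y => Nat.lt_succ_of_le (Nat.find_min' (hex y) (by omega))
  have hcspec : ∀ y, n ≤ (A y (c y)).card + c y := fun y => Nat.find_spec (hex y)
  have hcmin : ∀ y j, j < c y → (A y j).card + j < n := fun y j hj => by
    have := Nat.find_min (hex y) hj
    omega
  have hthstep : ∀ j : ℕ, th j = th (j + 1) + 1 / (4 * ((n : ℝ) + 1)) := by
    intro j
    simp only [hth]
    push_cast
    field_simp
    ring
  have hsub : ∀ y j, A y (j + 1) ⊆ A y j := by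
    intro y j i hi
    rw [hmemA] at hi ⊢
    have := hthstep j
    have h0 : 0 < 1 / (4 * ((n : ℝ) + 1)) := by positivity
    linarith
  -- at the colour, the set is the full set (colour 0) or has not changed
  have hgap : ∀ y i, i ∉ A y (c y) → 1 / (4 * ((n : ℝ) + 1)) ≤ |y i - round (y i)| ∧ 0 < c y ∧
      A y (c y) = A y (c y - 1) := by
    intro y i hi
    have hpos : 0 < c y := by
      by_contra h0
      have h1 : c y = 0 := by omega
      have h2 := hcspec y
      have h3 : (A y (c y)).card < n := by
        have : A y (c y) ⊂ univ := by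
          refine ⟨subset_univ _, fun h => hi (h (mem_univ i))⟩
        have := card_lt_card this
        simpa using this
      omega
    have hle : c y - 1 < c y := by omega
    have h1 := hcmin y (c y - 1) hle
    have h2 := hcspec y
    have hs' : A y (c y) ⊆ A y (c y - 1) := by
      have := hsub y (c y - 1)
      rwa [Nat.sub_add_cancel hpos] at this
    have heq : A y (c y) = A y (c y - 1) := eq_of_subset_of_card_le hs' (by omega)
    refine ⟨?_, hpos, heq⟩
    rw [heq, hmemA, not_lt] at hi
    refine le_trans ?_ hi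
    have hcn' := hcn y
    simp only [hth]
    have : (1 : ℝ) ≤ (n : ℝ) + 1 - ((c y - 1 : ℕ) : ℝ) := by
      have h5 : ((c y - 1 : ℕ) : ℝ) ≤ n := by
        have : c y - 1 ≤ n := by omega
        exact_mod_cast this
      linarith
    gcongr
  have hAeq : ∀ y z : Fin n → ℝ, (∀ i, |y i - z i| < 1 / (4 * ((n : ℝ) + 1))) → c y = c z →
      A y (c y) ⊆ A z (c z) := by
    intro y z hyz hcc i hi
    by_contra hiz
    obtain ⟨_, hpos, heq⟩ := hgap z i hiz
    rw [heq, hmemA, not_lt] at hiz
    rw [hmemA, hcc] at hi
    have h1 := grid_lip (z i) (y i)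
    have h2 := hyz i
    rw [abs_sub_comm] at h2
    have h3 := hthstep (c z - 1)
    rw [Nat.sub_add_cancel hpos] at h3
    linarith
  refine ⟨Fin (n + 1) × (Fin n → ℤ),
    fun x => (⟨c (fun i => x i / s), hcn _⟩,
      fun i => if i ∈ A (fun i => x i / s) (c (fun i => x i / s)) then 2 * round (x i / s)
        else 2 * ⌊x i / s⌋ + 1),
    fun l i => s * ((l.2 i : ℝ) / 2), Prod.fst, s / (4 * ((n : ℝ) + 1)), by positivity, ?_, ?_⟩
  · intro x
    rw [dist_pi_le_iff hs.le]
    intro i
    rw [Real.dist_eq]
    have hxi : x i = s * (x i / s) := by field_simp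
    have key : ∀ v : ℝ, |x i / s - v| ≤ 1 → |x i - s * v| ≤ s := by
      intro v hv
      have : x i - s * v = s * (x i / s - v) := by
        rw [mul_sub, ← hxi]
      rw [this, abs_mul, abs_of_pos hs]
      nlinarith
    refine key _ ?_
    by_cases hi : i ∈ A (fun i => x i / s) (c (fun i => x i / s))
    · simp only [hi, if_true]
      push_cast
      have := abs_sub_round (x i / s)
      have h2 : (2 * (round (x i / s) : ℝ)) / 2 = round (x i / s) := by ring
      rw [h2]
      linarith
    · simp only [hi, if_false]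
      push_cast
      have h1 := Int.floor_le (x i / s)
      have h2 := Int.lt_floor_add_one (x i / s)
      rw [abs_le]
      constructor <;> linarith
  · intro x y hxy hcol
    simp only [Fin.mk.injEq] at hcol
    have hclose : ∀ i, |x i / s - y i / s| < 1 / (4 * ((n : ℝ) + 1)) := by
      intro i
      have h1 : |x i - y i| < s / (4 * ((n : ℝ) + 1)) := by
        rw [← Real.dist_eq]
        exact lt_of_le_of_lt (dist_le_pi_dist x y i) hxy
      have h2 : x i / s - y i / s = (x i - y i) / s := by ring
      rw [h2, abs_div, abs_of_pos hs, div_lt_iff₀ hs]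
      calc |x i - y i| < s / (4 * ((n : ℝ) + 1)) := h1
        _ = 1 / (4 * ((n : ℝ) + 1)) * s := by ring
    have hclose' : ∀ i, |y i / s - x i / s| < 1 / (4 * ((n : ℝ) + 1)) := by
      intro i; rw [abs_sub_comm]; exact hclose i
    have hS : A (fun i => x i / s) (c (fun i => x i / s)) = A (fun i => y i / s) (c (fun i => y i / s)) :=
      Subset.antisymm (hAeq _ _ hclose hcol) (hAeq _ _ hclose' hcol.symm)
    have hquarter : 1 / (4 * ((n : ℝ) + 1)) ≤ 1 / 4 := by
      apply one_div_le_one_div_of_le (by norm_num)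
      have : (0 : ℝ) ≤ n := Nat.cast_nonneg n
      linarith
    have hthq : ∀ j, th j ≤ 1 / 4 := by
      intro j
      simp only [hth]
      rw [div_le_iff₀ hn]
      have : (0 : ℝ) ≤ (j : ℝ) := Nat.cast_nonneg j
      linarith
    refine Prod.ext (Fin.ext hcol) (funext fun i => ?_)
    by_cases hi : i ∈ A (fun i => x i / s) (c (fun i => x i / s))
    · have hi' : i ∈ A (fun i => y i / s) (c (fun i => y i / s)) := hS ▸ hi
      simp only [hi, hi', if_true]
      have e1 := (hmemA _ _ _).1 hi
      have e2 := (hmemA _ _ _).1 hi'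
      have e3 := hclose i
      have e4 := hthq (c (fun i => x i / s))
      have e5 := hthq (c (fun i => y i / s))
      rw [abs_lt] at e1 e2 e3
      have h1 : (round (x i / s) : ℝ) - round (y i / s) < 1 := by linarith [e1.1, e2.2, e3.2]
      have h2 : (-1 : ℝ) < (round (x i / s) : ℝ) - round (y i / s) := by linarith [e1.2, e2.1, e3.1]
      have h3 : round (x i / s) - round (y i / s) < 1 := by exact_mod_cast h1
      have h4 : -1 < round (x i / s) - round (y i / s) := by exact_mod_cast h2
      omega
    · have hi' : i ∉ A (fun i => y i / s) (c (fun i => y i / s)) := hS ▸ hi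
      simp only [hi, hi', if_false]
      obtain ⟨g1, _, _⟩ := hgap _ i hi
      obtain ⟨g2, _, _⟩ := hgap _ i hi'
      have e3 := hclose i
      rw [abs_lt] at e3
      have fl : ∀ a b : ℝ, a - b < 1 / (4 * ((n : ℝ) + 1)) → 1 / (4 * ((n : ℝ) + 1)) ≤ |b - round b| →
          ¬ (⌊b⌋ < ⌊a⌋) := by
        intro a b hab hb hlt
        have h1 : (⌊a⌋ : ℝ) ≤ a := Int.floor_le a
        have h2 : b < ⌊a⌋ := Int.floor_lt.1 hlt
        have h3 : |b - round b| ≤ |b - (⌊a⌋ : ℤ)| := round_le b ⌊a⌋
        rw [abs_of_neg (by linarith : b - ((⌊a⌋ : ℤ) : ℝ) < 0)] at h3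
        linarith
      have f1 := fl (x i / s) (y i / s) e3.2 g2
      have f2 := fl (y i / s) (x i / s) (by linarith [e3.1]) g1
      omega

end SV
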