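import Pool.Agent.Helper43.SV.Tup

/-! Ordered chains of a linear order, mapped to chains of strictly increasing tuples. -/

namespace SV

open Finset

section ord

variable {L : Type} [LinearOrder L]

/-- reduced cone: tuples which start with the apex are sent to zero -/
noncomputable def ordCone (w : L) (k : ℕ) : TC L k →ₗ[ℝ] TC L (k + 1) :=
  ext (fun t : Fin (k + 1) → L => if t 0 = w then 0 else Finsupp.single (Fin.cons w t : Fin (k + 2) → L) (1 : ℝ))

theorem ordCone_single (w : L) (k : ℕ) (t : Fin (k + 1) → L) :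
    ordCone w k (Finsupp.single t 1) =
      if t 0 = w then 0 else Finsupp.single (Fin.cons w t : Fin (k + 2) → L) (1 : ℝ) := by
  rw [ordCone, ext_single, one_smul]

theorem ordCone_zero (w : L) (c : TC L 0) :
    td 0 (ordCone w 0 c) = c - aug c • Finsupp.single (fun _ => w) (1 : ℝ) := by
  have : (td 0).comp (ordCone w 0) = LinearMap.id - (aug).smulRight (Finsupp.single (fun _ => w) (1 : ℝ)) := by
    refine Finsupp.lhom_ext' (fun x => LinearMap.ext_ring ?_)
    simp only [LinearMap.comp_apply, Finsupp.lsingle_apply,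
      LinearMap.sub_apply, LinearMap.id_apply, LinearMap.smulRight_apply, aug_single]
    rw [ordCone_single]
    split_ifs with h
    · have e : x = (fun _ => w) := by
        funext i
        have : i = 0 := Fin.fin_one_eq_zero i
        rw [this, h]
      rw [map_zero, e, one_smul, sub_self]
    · rw [← tcone_single, td_tcone_zero, aug_single]
  exact LinearMap.congr_fun this c

/-- strictly increasing tuples with entries in a set -/
def ordInc (k : ℕ) (A : Set L) : Set (Fin (k + 1) → L) := {t | StrictMono t ∧ ∀ i, t i ∈ A}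

theorem ordCone_mem (w : L) (k : ℕ) (A : Set L) (hw : w ∈ A) (hA : ∀ a ∈ A, w ≤ a) (c : TC L k)
    (hc : c ∈ Finsupp.supported ℝ ℝ (ordInc k A)) :
    ordCone w k c ∈ Finsupp.supported ℝ ℝ (ordInc (k + 1) A) := by
  have h : Finsupp.supported ℝ ℝ (ordInc k A) ≤
      (Finsupp.supported ℝ ℝ (ordInc (k + 1) A)).comap (ordCone w k) := by
    rw [Finsupp.supported_eq_span_single, Submodule.span_le]
    rintro _ ⟨t, ht, rfl⟩
    simp only [Submodule.comap_coe, Set.mem_preimage, SetLike.mem_coe]
    rw [ordCone_single]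
    split_ifs with h0
    · exact Submodule.zero_mem _
    · refine Finsupp.single_mem_supported ℝ _ ⟨?_, ?_⟩
      · have h1 : w < t 0 := lt_of_le_of_ne (hA _ (ht.2 0)) (fun h => h0 h.symm)
        rw [Fin.strictMono_iff_lt_succ]
        intro i
        refine Fin.cases ?_ (fun j => ?_) i
        · simpa using h1
        · have : (Fin.succ j).castSucc = (j.castSucc : Fin (k + 1)).succ := rfl
          rw [this, Fin.cons_succ, Fin.cons_succ]
          exact ht.1 Fin.castSucc_lt_succ
      · intro i
        refine Fin.cases ?_ (fun j => ?_) i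
        · simpa using hw
        · simpa using ht.2 j
  exact h hc

theorem ordCone_td (w : L) (k : ℕ) (A : Set L) (hA : ∀ a ∈ A, w ≤ a) (c : TC L (k + 1))
    (hc : c ∈ Finsupp.supported ℝ ℝ (ordInc (k + 1) A)) :
    td (k + 1) (ordCone w (k + 1) c) = c - ordCone w k (td k c) := by
  rw [Finsupp.supported_eq_span_single] at hc
  have h : Set.EqOn ((td (k + 1)).comp (ordCone w (k + 1)) : TC L (k + 1) →ₗ[ℝ] TC L (k + 1))
      (LinearMap.id - (ordCone w k).comp (td k) : TC L (k + 1) →ₗ[ℝ] TC L (k + 1))
      ((fun i => Finsupp.single i (1 : ℝ)) '' (ordInc (k + 1) A)) := by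
    rintro _ ⟨t, ht, rfl⟩
    simp only [LinearMap.comp_apply, LinearMap.sub_apply, LinearMap.id_apply]
    have hf : ∀ i : Fin (k + 1), tface L k i.succ t 0 = t 0 := by
      intro i
      simp [tface]
    have hf0 : tface L k 0 t 0 = t 1 := by
      simp [tface]
    have h01 : t 0 < t 1 := ht.1 (by simp)
    have hw0 : w ≤ t 0 := hA _ (ht.2 0)
    have hf1 : tface L k 0 t 0 ≠ w := by
      rw [hf0]
      exact (lt_of_le_of_lt hw0 h01).ne'
    rw [ordCone_single]
    split_ifs with h0
    · rw [map_zero, td_single, one_smul, map_sum, Fin.sum_univ_succ, map_smul, ordCone_single,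
        if_neg hf1]
      have e1 : ∀ i : Fin (k + 1), ordCone w k ((-1 : ℝ) ^ ((i.succ : Fin (k + 2)) : ℕ) •
          Finsupp.single (tface L k i.succ t) (1 : ℝ)) = 0 := by
        intro i
        rw [map_smul, ordCone_single, if_pos ((hf i).trans h0), smul_zero]
      rw [Finset.sum_eq_zero (fun i _ => e1 i)]
      have e2 : (Fin.cons w (tface L k 0 t) : Fin (k + 2) → L) = t := by
        funext i
        refine Fin.cases ?_ (fun j => ?_) i
        · simp [h0]
        · simp [tface]
      rw [e2]
      simp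
    · rw [← tcone_single, td_tcone]
      congr 1
      rw [td_single, one_smul, map_sum, map_sum]
      refine Finset.sum_congr rfl (fun i _ => ?_)
      rw [map_smul, map_smul, tcone_single, ordCone_single]
      have : tface L k i t 0 ≠ w := by
        refine Fin.cases hf1 (fun j => ?_) i
        rw [hf j]; exact h0
      rw [if_neg this]
  have := LinearMap.eqOn_span h hc
  simpa using this

/-- the ordering map -/
noncomputable def ordMap (L : Type) [LinearOrder L] : ∀ k, TC L k →ₗ[ℝ] TC L k
  | 0 => LinearMap.id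
  | (k + 1) => ext (fun l : Fin (k + 2) → L =>
      ordCone (Finset.univ.inf' Finset.univ_nonempty l) k (ordMap L k (td k (Finsupp.single l 1))))

theorem ordMap_succ (k : ℕ) (l : Fin (k + 2) → L) : ordMap L (k + 1) (Finsupp.single l 1) =
    ordCone (Finset.univ.inf' Finset.univ_nonempty l) k (ordMap L k (td k (Finsupp.single l 1))) := by
  rw [ordMap, ext_single, one_smul]

theorem ordMin_mem {k : ℕ} (l : Fin (k + 2) → L) :
    Finset.univ.inf' Finset.univ_nonempty l ∈ Set.range l := by
  obtain ⟨i, -, hi⟩ := Finset.exists_mem_eq_inf' (s := (Finset.univ : Finset (Fin (k + 2))))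
    Finset.univ_nonempty l
  exact ⟨i, hi.symm⟩

theorem ordMin_le {k : ℕ} (l : Fin (k + 2) → L) :
    ∀ a ∈ Set.range l, Finset.univ.inf' Finset.univ_nonempty l ≤ a := by
  rintro _ ⟨i, rfl⟩
  exact Finset.inf'_le l (Finset.mem_univ i)

theorem ordMap_td_mem (k : ℕ)
    (ih : ∀ l : Fin (k + 1) → L, ordMap L k (Finsupp.single l 1) ∈
      Finsupp.supported ℝ ℝ (ordInc k (Set.range l))) (l : Fin (k + 2) → L) :
    ordMap L k (td k (Finsupp.single l 1)) ∈ Finsupp.supported ℝ ℝ (ordInc k (Set.range l)) := by
  rw [td_single, one_smul, map_sum]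
  refine Submodule.sum_mem _ (fun i _ => ?_)
  rw [map_smul]
  refine Submodule.smul_mem _ _ ?_
  refine Finsupp.supported_mono ?_ (ih _)
  rintro t ⟨h1, h2⟩
  refine ⟨h1, fun j => ?_⟩
  obtain ⟨m, hm⟩ := h2 j
  exact ⟨_, hm⟩

theorem ordMap_mem (k : ℕ) : ∀ l : Fin (k + 1) → L, ordMap L k (Finsupp.single l 1) ∈
    Finsupp.supported ℝ ℝ (ordInc k (Set.range l)) := by
  induction k with
  | zero =>
    intro l
    refine Finsupp.single_mem_supported ℝ _ ⟨?_, fun i => ⟨i, rfl⟩⟩
    intro i j hij
    exact absurd hij (by rw [Fin.fin_one_eq_zero i, Fin.fin_one_eq_zero j]; exact lt_irrefl _)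
  | succ k ih =>
    intro l
    rw [ordMap_succ]
    exact ordCone_mem _ k _ (ordMin_mem l) (ordMin_le l) _ (ordMap_td_mem k ih l)

theorem td_ordMap_single (k : ℕ) : ∀ l : Fin (k + 2) → L,
    td k (ordMap L (k + 1) (Finsupp.single l 1)) = ordMap L k (td k (Finsupp.single l 1)) := by
  induction k with
  | zero =>
    intro l
    rw [ordMap_succ, ordCone_zero]
    have : aug (ordMap L 0 (td 0 (Finsupp.single l (1 : ℝ)))) = 0 := by
      rw [ordMap, LinearMap.id_apply, aug_td]
    rw [this, zero_smul, sub_zero]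
  | succ k ih =>
    intro l
    have ih' : ∀ c : TC L (k + 1), td k (ordMap L (k + 1) c) = ordMap L k (td k c) := by
      intro c
      have : (td k).comp (ordMap L (k + 1)) = (ordMap L k).comp (td k) := by
        refine Finsupp.lhom_ext' (fun x => LinearMap.ext_ring ?_)
        simp only [LinearMap.comp_apply, Finsupp.lsingle_apply]
        exact ih x
      exact LinearMap.congr_fun this c
    rw [ordMap_succ, ordCone_td _ k _ (ordMin_le l) _ (ordMap_td_mem (k + 1) (ordMap_mem (k + 1)) l),
      ih', td_td, map_zero, map_zero, sub_zero]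

theorem td_ordMap (k : ℕ) (c : TC L (k + 1)) :
    td k (ordMap L (k + 1) c) = ordMap L k (td k c) := by
  have : (td k).comp (ordMap L (k + 1)) = (ordMap L k).comp (td k) := by
    refine Finsupp.lhom_ext' (fun x => LinearMap.ext_ring ?_)
    simp only [LinearMap.comp_apply, Finsupp.lsingle_apply]
    exact td_ordMap_single k x
  exact LinearMap.congr_fun this c

end ord

theorem exists_ord (L : Type) [LinearOrder L] :
    ∃ O : ∀ k, TC L k →ₗ[ℝ] TC L k, (∀ k c, td k (O (k + 1) c) = O k (td k c)) ∧
      (∀ c, aug (O 0 c) = aug c) ∧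
      ∀ k (l : Fin (k + 1) → L), ∀ t ∈ (O k (Finsupp.single l 1)).support, StrictMono t ∧ ∀ i, ∃ j, t i = l j := by
  refine ⟨ordMap L, td_ordMap, fun c => rfl, ?_⟩
  intro k l t ht
  have h := (Finsupp.mem_supported ℝ _).1 (ordMap_mem k l) ht
  refine ⟨h.1, fun i => ?_⟩
  obtain ⟨j, hj⟩ := h.2 i
  exact ⟨j, hj.symm⟩

end SV
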