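import Pool.Agent.Helper43.SV.MV
import Pool.Agent.Helper43.SV.Grid
import Pool.Agent.Helper43.SV.Ord

/-! Open subsets of R^n have no homology in degrees at least n. -/

namespace SV

open Finset Topology Cvx

section line

variable {V : Type*} [NormedAddCommGroup V] [NormedSpace ℝ V]

/-- the tuple of vertices of a singular simplex, extended linearly -/
noncomputable def vert (V : Type*) [TopologicalSpace V] (k : ℕ) : SC V k →ₗ[ℝ] TC V k :=
  Finsupp.lmapDomain ℝ ℝ (fun σ i => σ (vtx i))

theorem vert_single {V : Type*} [TopologicalSpace V] (k : ℕ) (σ : Sx V k) (r : ℝ) :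
    vert V k (Finsupp.single σ r) = Finsupp.single (fun i => σ (vtx i)) r := by
  simp [vert]

theorem td_vert {V : Type*} [TopologicalSpace V] (k : ℕ) (c : SC V (k + 1)) : td k (vert V (k + 1) c) = vert V k (bd k c) :=
  gd_map (X := Sx V) (sface V) (Y := fun k => (Fin (k + 1) → V)) (tface V)
    (fun _ σ i => σ (vtx i)) (fun k i σ => by
      funext j
      show σ (dface k i (vtx j)) = σ (vtx (i.succAbove j))
      rw [dface_vtx]) k c

/-- the straight line homotopy from a simplex to the affine simplex with the same vertices -/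
noncomputable def lineH (V : Type*) [NormedAddCommGroup V] [NormedSpace ℝ V] (k : ℕ) (σ : Sx V k) : C(ℝ × Dl k, V) :=
  ⟨fun z => (1 - z.1) • σ z.2 + z.1 • comb (fun i => σ (vtx i)) z.2, by fun_prop⟩

theorem lineH_nat : HNat (lineH V) := by
  intro k σ i u t
  show (1 - u) • σ (dface k i t) + u • comb (fun j => σ (dface k i (vtx j))) t =
    (1 - u) • σ (dface k i t) + u • comb (fun j => σ (vtx j)) (dface k i t)
  rw [comb_face]
  simp only [dface_vtx]

/-- the line homotopy operator -/
noncomputable def Ln (V : Type*) [NormedAddCommGroup V] [NormedSpace ℝ V] (k : ℕ) : SC V k →ₗ[ℝ] SC V (k + 1) :=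
  prOp (lineH V) k

theorem bd_Ln (k : ℕ) (c : SC V (k + 1)) : bd (k + 1) (Ln V (k + 1) c) = real (k + 1) (vert V (k + 1) c) - c - Ln V k (bd k c) := by
  have h1 : enOp 1 (lineH V) (k + 1) = (real (k + 1)).comp (vert V (k + 1)) := by
    refine Finsupp.lhom_ext' (fun σ => LinearMap.ext_ring ?_)
    simp only [LinearMap.comp_apply, Finsupp.lsingle_apply]
    rw [enOp, ext_single, one_smul, vert_single, real_single]
    congr 1
    ext t
    show (1 - (1 : ℝ)) • σ t + (1 : ℝ) • comb (fun i => σ (vtx i)) t = _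
    rw [sub_self, zero_smul, one_smul, zero_add]
  have h0 : enOp 0 (lineH V) (k + 1) = LinearMap.id := by
    refine Finsupp.lhom_ext' (fun σ => LinearMap.ext_ring ?_)
    simp only [LinearMap.comp_apply, Finsupp.lsingle_apply, LinearMap.id_apply]
    rw [enOp, ext_single, one_smul]
    congr 1
    ext t
    show (1 - (0 : ℝ)) • σ t + (0 : ℝ) • comb (fun i => σ (vtx i)) t = _
    rw [sub_zero, zero_smul, one_smul, add_zero]
  rw [Ln, bd_prOp _ lineH_nat, h1, h0]
  rfl

theorem Ln_SIn (k : ℕ) (σ : Sx V k) (B : Set V) (hB : Convex ℝ B) (h : ∀ t, σ t ∈ B) : SIn B (Ln V k (Finsupp.single σ 1)) := by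
  refine prOp_SIn _ k σ B (fun u hu t => ?_)
  show (1 - u) • σ t + u • comb (fun i => σ (vtx i)) t ∈ B
  exact hB (h t) (cvxSet_convex hB k _ (fun i => h _) t) (by linarith [hu.2]) hu.1 (by ring)

end line

/-- open subsets of R^n have vanishing homology in degrees at least n -/
theorem Ex_euclid (n : ℕ) (S : Set (Fin n → ℝ)) (hS : IsOpen S) (k : ℕ) (hk : n ≤ k + 1) : Ex (Fin n → ℝ) k S := by
  classical
  intro z hz hz0
  -- the union of the images
  set K : Set (Fin n → ℝ) := ⋃ σ ∈ z.support, Set.range σ with hKd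
  have hKc : IsCompact K := z.support.isCompact_biUnion (fun σ _ => isCompact_range σ.continuous)
  have hKS : K ⊆ S := by
    intro x hx
    simp only [hKd, Set.mem_iUnion, Set.mem_range] at hx
    obtain ⟨σ, hσ, t, rfl⟩ := hx
    exact hz σ hσ t
  have hzK : SIn K z := by
    intro σ hσ t
    simp only [hKd, Set.mem_iUnion, Set.mem_range]
    exact ⟨σ, hσ, t, rfl⟩
  obtain ⟨r, hr, hrS⟩ := hKc.exists_cthickening_subset_open hS hKS
  have hball : ∀ x ∈ K, Metric.closedBall x r ⊆ S := fun x hx => (Metric.closedBall_subset_cthickening hx r).trans hrS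
  obtain ⟨L, lab, rep, col, η, hη, hrep, hcol⟩ := exists_labels n (r / 4) (by positivity)
  let : LinearOrder L := linearOrderOfSTO (WellOrderingRel : L → L → Prop)
  obtain ⟨O, hO1, hO2, hO3⟩ := exists_ord L
  set η' := min η (r / 4) with hη'
  have hη'0 : 0 < η' := lt_min hη (by positivity)
  -- z bounds in R^n
  set c := real (k + 2) (tcone 0 (k + 1) (vert _ (k + 1) z)) - Ln _ (k + 1) z with hc
  have hcz : bd (k + 1) c = z := by
    rw [hc, map_sub, bd_real, td_tcone, td_vert, hz0, map_zero, map_zero, sub_zero, bd_Ln, hz0, map_zero]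
    abel
  have hopen : ∀ v : Fin n → ℝ, IsOpen (Metric.ball v (η' / 2)) := fun v => Metric.isOpen_ball
  obtain ⟨N1, hN1⟩ := exists_small (fun v : Fin n → ℝ => Metric.ball v (η' / 2)) hopen (k + 1) z
    (fun σ _ t => ⟨σ t, Metric.mem_ball_self (by positivity)⟩)
  obtain ⟨N2, hN2⟩ := exists_small (fun v : Fin n → ℝ => Metric.ball v (η' / 2)) hopen (k + 2) c
    (fun σ _ t => ⟨σ t, Metric.mem_ball_self (by positivity)⟩)
  set N := max N1 N2 with hN
  have h1 := hN1 N (le_max_left _ _)
  have h2 := hN2 N (le_max_right _ _)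
  obtain ⟨c0, hc0, hc0'⟩ := exists_Sd_pow k N S z hz0 hz
  set z' := ((Sd _ (k + 1)) ^ N) z with hz'
  set c' := ((Sd _ (k + 2)) ^ N) c with hc'
  have hz'0 : bd k z' = 0 := by rw [hz', bd_Sd_pow, hz0, map_zero]
  have hcz' : bd (k + 1) c' = z' := by rw [hc', bd_Sd_pow, hcz]
  have hz'K : SIn K z' := hzK.Sd_pow N
  -- the homotopy to the straight chain
  have hball' : ∀ v : Fin n → ℝ, ∀ x ∈ Metric.ball v (η' / 2), ∀ y ∈ Metric.ball v (η' / 2), dist x y < η' := by
    intro v x hx y hy
    rw [Metric.mem_ball] at hx hy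
    calc dist x y ≤ dist x v + dist y v := dist_triangle_right x y v
      _ < η' := by linarith
  have hr' : η' ≤ r / 4 := min_le_right _ _
  have hLn : SIn S (Ln _ (k + 1) z') := by
    refine SIn.lin _ _ (fun σ hσ => ?_)
    obtain ⟨v, hv⟩ := h1 σ hσ
    refine (Ln_SIn (k + 1) σ (Metric.ball v (η' / 2)) (convex_ball _ _) hv).mono ?_
    refine Set.Subset.trans ?_ (hball (σ (vtx 0)) (hz'K σ hσ _))
    intro y hy
    rw [Metric.mem_closedBall]
    have := hball' v y hy _ (hv (vtx 0))
    linarith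
  -- the combinatorial homotopy
  set iq : ∀ k, TC (Fin n → ℝ) k →ₗ[ℝ] TC (Fin n → ℝ) k := fun k => (tmap rep k).comp ((O k).comp (tmap lab k)) with hiq
  have hiqc : ∀ k c, td k (iq (k + 1) c) = iq k (td k c) := by
    intro k c
    simp only [hiq, LinearMap.comp_apply]
    rw [td_tmap, hO1, td_tmap]
  have hiqa : ∀ c, aug (LinearMap.id (R := ℝ) (M := TC (Fin n → ℝ) 0) c) = aug (iq 0 c) := by
    intro c
    simp only [hiq, LinearMap.comp_apply, LinearMap.id_apply]
    rw [aug_tmap, hO2, aug_tmap]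
  set Kop : ∀ k, TC (Fin n → ℝ) k →ₗ[ℝ] TC (Fin n → ℝ) (k + 1) := hK (fun _ => LinearMap.id) iq (fun _ p => p 0) with hKop
  set w := vert _ (k + 1) z' with hw
  have hw0 : td k w = 0 := by rw [hw, td_vert, hz'0, map_zero]
  have hwc : w = td (k + 1) (vert _ (k + 2) c') := by rw [td_vert, hcz', hw]
  have hiq0 : iq (k + 2) (vert _ (k + 2) c') = 0 := by
    rw [fsum c', map_sum, map_sum]
    refine Finset.sum_eq_zero (fun τ hτ => ?_)
    rw [map_smul, map_smul, vert_single]
    have : O (k + 2) (tmap lab (k + 2) (Finsupp.single (fun i => τ (vtx i)) 1)) = 0 := by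
      rw [tmap_single, ← Finsupp.support_eq_empty, Finset.eq_empty_iff_forall_notMem]
      intro t ht
      obtain ⟨hmono, hrange⟩ := hO3 (k + 2) _ t ht
      obtain ⟨v, hv⟩ := h2 τ hτ
      have hinj : Function.Injective (fun i => col (t i)) := by
        intro i i' hii
        obtain ⟨j, hj⟩ := hrange i
        obtain ⟨j', hj'⟩ := hrange i'
        simp only at hii
        rw [hj, hj'] at hii
        have := hcol _ _ ((hball' v _ (hv (vtx j)) _ (hv (vtx j'))).trans_le (min_le_left _ _)) hii
        apply hmono.injective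
        rw [hj, hj']
        exact this
      have := Fintype.card_le_of_injective _ hinj
      simp only [Fintype.card_fin] at this
      omega
    simp only [hiq, LinearMap.comp_apply]
    rw [this, map_zero, smul_zero]
  have hKw : td (k + 1) (Kop (k + 1) w) = w := by
    rw [hKop, td_hK (fun _ => LinearMap.id) iq (fun _ p => p 0) (fun _ _ => rfl) hiqc hiqa, hw0, map_zero, sub_zero, LinearMap.id_apply]
    have : iq (k + 1) w = 0 := by rw [hwc, ← hiqc, hiq0, map_zero]
    rw [this, sub_zero]
  have hKS' : SIn S (real (k + 2) (Kop (k + 1) w)) := by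
    have : (real (k + 2)).comp (Kop (k + 1)) w = real (k + 2) (Kop (k + 1) w) := rfl
    rw [← this]
    refine SIn.lin _ _ (fun p hp => ?_)
    -- p is the tuple of vertices of a small simplex
    have hp' : ∃ σ ∈ z'.support, p = fun i => σ (vtx i) := by
      have := Finsupp.mapDomain_support (f := fun (σ : Sx (Fin n → ℝ) (k + 1)) i => σ (vtx i)) (s := z') hp
      rw [Finset.mem_image] at this
      obtain ⟨σ, hσ, rfl⟩ := this
      exact ⟨σ, hσ, rfl⟩
    obtain ⟨σ, hσ, rfl⟩ := hp'
    obtain ⟨v, hv⟩ := h1 σ hσ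
    have hin := hK_TIn (fun _ => LinearMap.id) iq (fun _ (p : Fin (_ + 1) → (Fin n → ℝ)) => p 0)
      (fun _ p => {y | ∃ i, dist (p i) y ≤ r / 4})
      (fun k p => TIn.single _ (fun i => ⟨i, by rw [dist_self]; positivity⟩))
      (fun k p => by
        simp only [hiq, LinearMap.comp_apply, tmap_single]
        refine TIn.lin _ _ (fun t ht => ?_)
        rw [tmap_single]
        refine TIn.single _ (fun i => ?_)
        obtain ⟨j, hj⟩ := (hO3 k _ t ht).2 i
        exact ⟨j, by rw [hj]; exact hrep (p j)⟩)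
      (fun k p => ⟨0, by rw [dist_self]; positivity⟩)
      (fun k p i y hy => by
        obtain ⟨j, hj⟩ := hy
        exact ⟨i.succAbove j, hj⟩)
      (k + 1) (fun i => σ (vtx i))
    rw [LinearMap.comp_apply]
    refine (real_SIn (S := Metric.closedBall (σ (vtx 0)) r) (cvxSet_convex (convex_closedBall _ _)) (hin.mono ?_)).mono
      (hball _ (hz'K σ hσ _))
    rintro y ⟨i, hi⟩
    rw [Metric.mem_closedBall]
    have h3 := hball' v _ (hv (vtx i)) _ (hv (vtx 0))
    have h4 : dist y (σ (vtx 0)) ≤ dist (σ (vtx i)) y + dist (σ (vtx i)) (σ (vtx 0)) := by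
      rw [dist_comm (σ (vtx i)) y]
      exact dist_triangle _ _ _
    linarith
  refine ⟨c0 - Ln _ (k + 1) z' + real (k + 2) (Kop (k + 1) w), (hc0.sub hLn).add hKS', ?_⟩
  rw [map_add, map_sub, hc0', bd_Ln, hz'0, map_zero, bd_real, hKw]
  abel

end SV
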