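import Mathlib

/-! Exponentials in a finite-dimensional commutative algebra acting on a vector space. -/

namespace SV

open Filter Topology

section

variable {A V : Type*} [NormedCommRing A] [NormedAlgebra ℝ A] [CompleteSpace A] [FiniteDimensional ℝ A]
  [NormedAddCommGroup V] [NormedSpace ℝ V] (T : A →ₐ[ℝ] (V →L[ℝ] V))

omit [CompleteSpace A] in
theorem expv_cont : Continuous T := LinearMap.continuous_of_finiteDimensional T.toLinearMap

theorem expv_hasSum (a : A) (v : V) :
    HasSum (fun n : ℕ => ((n.factorial : ℝ)⁻¹) • (T (a ^ n) v)) (T (NormedSpace.exp a) v) := by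
  have h1 := NormedSpace.exp_series_hasSum_exp' (𝕂 := ℝ) a
  let L : A →L[ℝ] V := ⟨(LinearMap.applyₗ' ℝ v).comp ((ContinuousLinearMap.coeLM ℝ).comp T.toLinearMap),
    LinearMap.continuous_of_finiteDimensional _⟩
  have hL : ∀ a, L a = T a v := fun a => rfl
  have h2 := L.hasSum h1
  simp only [map_smul, hL] at h2
  exact h2

theorem expv_eigen (a : A) (v : V) (r : ℝ) (h : T a v = r • v) : T (NormedSpace.exp a) v = Real.exp r • v := by
  have h1 := expv_hasSum T a v
  have h2 : ∀ n : ℕ, T (a ^ n) v = r ^ n • v := by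
    intro n
    induction n with
    | zero => simp
    | succ n ih =>
      rw [pow_succ', map_mul, mul_apply_eq_comp, ih, map_smul, h, smul_smul, pow_succ]
  simp only [h2, smul_smul] at h1
  have h3 := (NormedSpace.exp_series_hasSum_exp' (𝕂 := ℝ) r).smul_const v
  simp only [smul_eq_mul] at h3
  rw [← Real.exp_eq_exp_ℝ] at h3
  exact h1.unique h3

theorem expv_zero (a : A) (v : V) (h : T a v = 0) : T (NormedSpace.exp a) v = v := by
  have := expv_eigen T a v 0 (by rw [h, zero_smul])
  rwa [Real.exp_zero, one_smul] at this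

theorem expv_nil (a : A) (v : V) (h : T a (T a v) = 0) : T (NormedSpace.exp a) v = v + T a v := by
  have h1 := expv_hasSum T a v
  have h2 : ∀ n : ℕ, n ∉ Finset.range 2 → ((n.factorial : ℝ)⁻¹) • (T (a ^ n) v) = 0 := by
    intro n hn
    rw [Finset.mem_range, not_lt] at hn
    obtain ⟨m, rfl⟩ := Nat.exists_eq_add_of_le' hn
    rw [pow_add, map_mul, mul_apply_eq_comp, pow_two, map_mul, mul_apply_eq_comp, h, map_zero, smul_zero]
  have h3 : HasSum (fun n : ℕ => ((n.factorial : ℝ)⁻¹) • (T (a ^ n) v))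
      (∑ n ∈ Finset.range 2, ((n.factorial : ℝ)⁻¹) • (T (a ^ n) v)) := hasSum_sum_of_ne_finset_zero h2
  rw [h1.unique h3]
  simp [Finset.sum_range_succ]

theorem expv_growth (e : A) (v : V) (hev : T e v ≠ 0) (he : T (e * e) v = T e v ∨ T (e * e) v = 0) :
    Tendsto (fun k : ℕ => ‖T (NormedSpace.exp ((k : ℝ) • e)) v‖) atTop atTop := by
  rcases he with he | he
  · have h1 : ∀ k : ℕ, T (NormedSpace.exp ((k : ℝ) • e)) (T e v) = Real.exp k • T e v := by
      intro k
      refine expv_eigen T _ _ _ ?_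
      rw [map_smul, smul_apply, ← mul_apply_eq_comp, ← map_mul, he]
    have h2 : ∀ k : ℕ, Real.exp k * ‖T e v‖ ≤ ‖T e‖ * ‖T (NormedSpace.exp ((k : ℝ) • e)) v‖ := by
      intro k
      have h3 : T e (T (NormedSpace.exp ((k : ℝ) • e)) v) = Real.exp k • T e v := by
        rw [← h1, ← mul_apply_eq_comp, ← map_mul, mul_comm, map_mul, mul_apply_eq_comp]
      calc Real.exp k * ‖T e v‖ = ‖Real.exp k • T e v‖ := by
            rw [norm_smul, Real.norm_eq_abs, abs_of_pos (Real.exp_pos _)]
        _ = ‖T e (T (NormedSpace.exp ((k : ℝ) • e)) v)‖ := by rw [h3]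
        _ ≤ _ := (T e).le_opNorm _
    have hpos : 0 < ‖T e v‖ := norm_pos_iff.2 hev
    have hT : 0 < ‖T e‖ := by
      rw [norm_pos_iff]
      intro h0
      apply hev
      rw [h0]; rfl
    have h4 : Tendsto (fun k : ℕ => (‖T e v‖ / ‖T e‖) * Real.exp k) atTop atTop :=
      Tendsto.const_mul_atTop (by positivity) (Real.tendsto_exp_atTop.comp tendsto_natCast_atTop_atTop)
    refine tendsto_atTop_mono (fun k => ?_) h4
    rw [div_mul_eq_mul_div, div_le_iff₀ hT]
    have := h2 k
    nlinarith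
  · have h1 : ∀ k : ℕ, T (NormedSpace.exp ((k : ℝ) • e)) v = v + (k : ℝ) • T e v := by
      intro k
      rw [expv_nil, map_smul, smul_apply]
      rw [map_smul, smul_apply, smul_apply, map_smul,
        ← mul_apply_eq_comp, ← map_mul, he, smul_zero, smul_zero]
    have h4 : Tendsto (fun k : ℕ => (k : ℝ) * ‖T e v‖ - ‖v‖) atTop atTop :=
      tendsto_atTop_add_const_right _ _ (Tendsto.atTop_mul_const (norm_pos_iff.2 hev) tendsto_natCast_atTop_atTop)
    refine tendsto_atTop_mono (fun k => ?_) h4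
    rw [h1]
    have h5 : ‖(k : ℝ) • T e v‖ = (k : ℝ) * ‖T e v‖ := by
      rw [norm_smul, Real.norm_eq_abs, abs_of_nonneg (Nat.cast_nonneg k)]
    have h6 : ‖(k : ℝ) • T e v‖ ≤ ‖v + (k : ℝ) • T e v‖ + ‖v‖ := by
      have := norm_sub_le (v + (k : ℝ) • T e v) v
      rwa [add_sub_cancel_left] at this
    linarith

omit [CompleteSpace A] in
/-- choice of the direction -/
theorem expv_exists_e (eps : A →ₐ[ℝ] ℝ) (v : V) (X : A) (hX : eps X = 0) (hXv : T X v ≠ 0) :
    ∃ e : A, eps e = 0 ∧ T e v ≠ 0 ∧ (T (e * e) v = T e v ∨ T (e * e) v = 0) := by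
  have : IsArtinianRing A := IsArtinianRing.of_finite ℝ A
  by_cases hnil : ∀ e : A, eps e = 0 → ∃ n : ℕ, T (e ^ n) v = 0
  · classical
    have hex := hnil X hX
    set n := Nat.find hex with hn
    have hn1 : T (X ^ n) v = 0 := Nat.find_spec hex
    have hn2 : 2 ≤ n := by
      by_contra hlt
      push Not at hlt
      interval_cases h : n
      · rw [pow_zero, map_one] at hn1
        apply hXv
        have : v = 0 := hn1
        rw [this, map_zero]
      · rw [pow_one] at hn1
        exact hXv hn1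
    refine ⟨X ^ (n - 1), ?_, ?_, Or.inr ?_⟩
    · rw [map_pow, hX, zero_pow (by omega)]
    · intro h0
      have := Nat.find_min' hex h0
      omega
    · have : X ^ (n - 1) * X ^ (n - 1) = X ^ (n - 2) * X ^ n := by
        rw [← pow_add, ← pow_add]
        congr 1
        omega
      rw [this, map_mul, mul_apply_eq_comp, hn1, map_zero]
  · push Not at hnil
    obtain ⟨e₁, he₁, hn⟩ := hnil
    obtain ⟨n, y, hy⟩ := IsArtinian.exists_pow_succ_smul_dvd e₁ (1 : A)
    rw [smul_eq_mul, smul_eq_mul, mul_one, Nat.succ_eq_add_one] at hy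
    set u := e₁ * y with hu
    have h1 : e₁ ^ n * u = e₁ ^ n := by
      rw [hu, ← mul_assoc, ← pow_succ, hy]
    have h2 : ∀ j : ℕ, e₁ ^ n * u ^ j = e₁ ^ n := by
      intro j
      induction j with
      | zero => simp
      | succ j ih => rw [pow_succ, ← mul_assoc, ih, h1]
    have h3 : ∀ j : ℕ, u ^ (n + j) = u ^ n := by
      intro j
      have : u ^ n = y ^ n * e₁ ^ n := by rw [hu, mul_pow, mul_comm]
      rw [pow_add, this, mul_assoc, h2]
    refine ⟨u ^ (n + 1), ?_, ?_, Or.inl ?_⟩
    · rw [map_pow, hu, map_mul, he₁, zero_mul, zero_pow (by omega)]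
    · intro h0
      apply hn n
      have h4 : e₁ ^ n = e₁ ^ n * u ^ (n + 1) := (h2 _).symm
      rw [h4, map_mul, mul_apply_eq_comp, h0, map_zero]
    · rw [← pow_add, h3 1]
      have : n + 1 + (n + 1) = n + (n + 2) := by ring
      rw [this, h3]

omit [CompleteSpace A] in
/-- correction operator -/
theorem expv_corr [FiniteDimensional ℝ V] (v w : V) (b : A) (hw : w = T b v) (hann : ∀ a, T a w = 0 → T a v = 0) :
    ∃ R : V →L[ℝ] A, ∀ a, T (R (T a v)) w = T a v := by
  let q : V → (A →ₗ[ℝ] V) := fun v => (LinearMap.applyₗ' ℝ v).comp ((ContinuousLinearMap.coeLM ℝ).comp T.toLinearMap)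
  have hq : ∀ v a, q v a = T a v := fun _ _ => rfl
  have h1 : LinearMap.range (q w) ≤ LinearMap.range (q v) := by
    rintro _ ⟨a, rfl⟩
    refine ⟨a * b, ?_⟩
    rw [hq, hq, hw, map_mul, mul_apply_eq_comp]
  have h2 : Module.finrank ℝ (LinearMap.range (q v)) ≤ Module.finrank ℝ (LinearMap.range (q w)) := by
    have h3 := LinearMap.finrank_range_add_finrank_ker (q v)
    have h4 := LinearMap.finrank_range_add_finrank_ker (q w)
    have h5 : Module.finrank ℝ (LinearMap.ker (q w)) ≤ Module.finrank ℝ (LinearMap.ker (q v)) := by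
      refine Submodule.finrank_mono (fun a ha => ?_)
      rw [LinearMap.mem_ker, hq] at ha ⊢
      exact hann a ha
    omega
  have h3 : LinearMap.range (q w) = LinearMap.range (q v) := Submodule.eq_of_le_of_finrank_le h1 h2
  obtain ⟨g, hg⟩ := (q w).rangeRestrict.exists_rightInverse_of_surjective (LinearMap.range_rangeRestrict _)
  obtain ⟨g', hg'⟩ := g.exists_extend
  refine ⟨⟨g', LinearMap.continuous_of_finiteDimensional _⟩, fun a => ?_⟩
  have h4 : T a v ∈ LinearMap.range (q w) := by
    rw [h3]; exact ⟨a, rfl⟩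
  have h5 : g' (T a v) = g ⟨T a v, h4⟩ := by
    have := LinearMap.congr_fun hg' ⟨T a v, h4⟩
    exact this
  show T (g' (T a v)) w = T a v
  rw [h5, ← hq w]
  have h6 := LinearMap.congr_fun hg ⟨T a v, h4⟩
  exact congrArg Subtype.val h6

end

end SV
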