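import Pool.Agent.Helper43.SV.Flow

/-! The holonomy of a closed affine manifold fixes no point of the developing image. -/

namespace SV

open Topology

/-- uniqueness of lifts on a preconnected set -/
theorem Radiant_eqOn {A M E : Type*} [TopologicalSpace A] [TopologicalSpace M] [TopologicalSpace E] [T2Space M]
    {dev : M → E} (hdev : IsLocalHomeomorph dev) {s : Set A} (hs : IsPreconnected s) {f g : A → M}
    (hf : ContinuousOn f s) (hg : ContinuousOn g s) (he : s.EqOn (dev ∘ f) (dev ∘ g)) {a : A} (ha : a ∈ s)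
    (h : f a = g a) : s.EqOn f g :=
  (T2Space.isSeparatedMap dev).eqOn_of_comp_eqOn hdev.isLocallyInjective hs hf hg he ha h

theorem no_fixed {n : ℕ} (hn : 0 < n) {M G : Type*} [TopologicalSpace M] [T2Space M] [ConnectedSpace M]
    [Group G] [MulAction G M] [ContinuousConstSMul G M] (hfree : ∀ (g : G) (x : M), g • x = x → g = 1)
    (K : Set M) (hK : IsCompact K) (hcov : ∀ x : M, ∃ g : G, ∃ y ∈ K, x = g • y)
    (dev : M → (Fin n → ℝ)) (hdev : IsLocalHomeomorph dev) (h : G →* ((Fin n → ℝ) ≃ᵃ[ℝ] (Fin n → ℝ)))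
    (heq : ∀ g x, dev (g • x) = h g (dev x)) (x₀ : M) : ∃ g : G, h g (dev x₀) ≠ dev x₀ := by
  by_contra hcon
  push Not at hcon
  set p₀ := dev x₀ with hp₀
  have hne : Nonempty (Fin n) := ⟨⟨0, hn⟩⟩
  -- the radial flow
  let act : ℝ → (Fin n → ℝ) → (Fin n → ℝ) := fun t p => p₀ + Real.exp t • (p - p₀)
  have hact : Continuous (fun z : ℝ × (Fin n → ℝ) => act z.1 z.2) := by
    simp only [act]
    fun_prop
  have hact0 : ∀ p, act 0 p = p := by
    intro p
    simp [act]
  have hadd : ∀ X Y p, act (X + Y) p = act X (act Y p) := by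
    intro X Y p
    simp only [act, Real.exp_add, add_sub_cancel_left, smul_smul]
  have hcomm : ∀ (g : G) X p, h g (act X p) = act X (h g p) := by
    intro g X p
    have h1 : ∀ v : Fin n → ℝ, h g (p₀ + v) = p₀ + (h g).linear v := by
      intro v
      have := (h g).map_vadd p₀ v
      rw [vadd_eq_add, vadd_eq_add, hcon g] at this
      rw [add_comm p₀ v, this, add_comm]
    simp only [act]
    rw [h1, map_smul]
    have h2 : h g p = p₀ + (h g).linear (p - p₀) := by
      rw [← h1, add_sub_cancel]
    rw [h2, add_sub_cancel_left]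
  obtain ⟨Φ, hΦc, hΦ0, -, hΦdev, -⟩ := exists_flow dev hdev (fun g => h g) heq K hK hcov act hact hact0 hadd hcomm
  -- the point is fixed by the flow
  have hfix : ∀ t, Φ t x₀ = x₀ := by
    intro t
    have h1 := Radiant_eqOn hdev (s := (Set.univ : Set ℝ)) isPreconnected_univ (f := fun t => Φ t x₀)
      (g := fun _ => x₀) (hΦc.comp (continuous_id.prodMk continuous_const)).continuousOn
      continuousOn_const (fun t _ => by
        simp only [Function.comp_apply, hΦdev, act]
        rw [← hp₀, sub_self, smul_zero, add_zero]) (Set.mem_univ 0) (hΦ0 x₀)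
    exact h1 (Set.mem_univ t)
  obtain ⟨e, hx₀e, he⟩ := hdev x₀
  have hep : p₀ ∈ e.target := by
    rw [hp₀, he]
    exact e.map_source hx₀e
  obtain ⟨r, hr, hball⟩ := Metric.isOpen_iff.1 e.open_target p₀ hep
  have hesymm : e.symm p₀ = x₀ := by
    rw [hp₀, he]
    exact e.left_inv hx₀e
  -- local sections
  let sec : ℝ → (Fin n → ℝ) → M := fun t p => Φ t (e.symm (p₀ + Real.exp (-t) • (p - p₀)))
  have hin : ∀ t p, p ∈ Metric.ball p₀ (Real.exp t * r) →
      p₀ + Real.exp (-t) • (p - p₀) ∈ Metric.ball p₀ r := by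
    intro t p hp
    rw [mem_ball_iff_norm] at hp ⊢
    rw [add_sub_cancel_left, norm_smul, Real.norm_of_nonneg (Real.exp_pos _).le, Real.exp_neg,
      inv_mul_lt_iff₀ (Real.exp_pos t)]
    exact hp
  have hsec_cont : ∀ t, ContinuousOn (sec t) (Metric.ball p₀ (Real.exp t * r)) := by
    intro t
    have h1 : Continuous (fun x => Φ t x) := hΦc.comp (continuous_const.prodMk continuous_id)
    refine h1.comp_continuousOn ?_
    refine e.continuousOn_symm.comp ?_ fun p hp => hball (hin t p hp)
    fun_prop
  have hsec_dev : ∀ t, ∀ p ∈ Metric.ball p₀ (Real.exp t * r), dev (sec t p) = p := by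
    intro t p hp
    have h1 := e.right_inv (hball (hin t p hp))
    rw [← he] at h1
    simp only [sec, hΦdev, h1, act, add_sub_cancel_left, smul_smul, ← Real.exp_add, add_neg_cancel,
      Real.exp_zero, one_smul, add_sub_cancel]
  have hsec_p : ∀ t, sec t p₀ = x₀ := by
    intro t
    simp only [sec, sub_self, smul_zero, add_zero, hesymm, hfix]
  have hpb : ∀ t, p₀ ∈ Metric.ball p₀ (Real.exp t * r) := fun t =>
    Metric.mem_ball_self (by positivity)
  have hagree : ∀ s t, s ≤ t → ∀ p ∈ Metric.ball p₀ (Real.exp s * r), sec s p = sec t p := by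
    intro s t hst
    have hsub : Metric.ball p₀ (Real.exp s * r) ⊆ Metric.ball p₀ (Real.exp t * r) :=
      Metric.ball_subset_ball (mul_le_mul_of_nonneg_right (Real.exp_le_exp.2 hst) hr.le)
    refine Radiant_eqOn hdev (convex_ball p₀ _).isPreconnected (hsec_cont s) ((hsec_cont t).mono hsub) ?_
      (hpb s) (by rw [hsec_p, hsec_p])
    intro p hp
    simp only [Function.comp_apply]
    rw [hsec_dev s p hp, hsec_dev t p (hsub hp)]
  -- the global section
  have hex : ∀ p : Fin n → ℝ, ∃ t : ℝ, p ∈ Metric.ball p₀ (Real.exp t * r) := by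
    intro p
    obtain ⟨t, ht⟩ := (Real.tendsto_exp_atTop.eventually_gt_atTop (dist p p₀ / r)).exists
    refine ⟨t, ?_⟩
    rw [Metric.mem_ball]
    rwa [div_lt_iff₀ hr] at ht
  choose T hT using hex
  let σ : (Fin n → ℝ) → M := fun p => sec (T p) p
  have hσ : ∀ t, ∀ p ∈ Metric.ball p₀ (Real.exp t * r), σ p = sec t p := by
    intro t p hp
    rcases le_total (T p) t with h1 | h1
    · exact hagree _ _ h1 p (hT p)
    · exact (hagree _ _ h1 p hp).symm
  have hσc : Continuous σ := by
    rw [continuous_iff_continuousAt]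
    intro p
    have h1 : Metric.ball p₀ (Real.exp (T p) * r) ∈ 𝓝 p := Metric.isOpen_ball.mem_nhds (hT p)
    refine ((hsec_cont (T p)).continuousAt h1).congr ?_
    filter_upwards [h1] with q hq
    exact (hσ _ q hq).symm
  have hσdev : ∀ p, dev (σ p) = p := fun p => hsec_dev _ p (hT p)
  have hσp : σ p₀ = x₀ := hsec_p _
  have hinv : ∀ x, σ (dev x) = x := by
    intro x
    have h1 := Radiant_eqOn hdev (s := (Set.univ : Set M)) isPreconnected_univ (f := fun x => σ (dev x))
      (g := fun x => x) (hσc.comp hdev.continuous).continuousOn continuousOn_id (fun x _ => by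
        simp only [Function.comp_apply, hσdev]) (Set.mem_univ x₀) hσp
    exact h1 (Set.mem_univ x)
  -- the group is trivial, so the space is compact
  have hG : ∀ g : G, g = 1 := by
    intro g
    refine hfree g x₀ ?_
    have h1 := congrArg σ (heq g x₀)
    rw [hinv, hcon, hσp] at h1
    exact h1
  have hM : K = Set.univ := by
    refine Set.eq_univ_of_forall fun x => ?_
    obtain ⟨g, y, hy, rfl⟩ := hcov x
    rw [hG g, one_smul]
    exact hy
  have hE : IsCompact (Set.univ : Set (Fin n → ℝ)) := by
    have h1 : (Set.univ : Set (Fin n → ℝ)) = dev '' K := by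
      rw [hM]
      symm
      exact Set.eq_univ_of_forall fun p => ⟨σ p, Set.mem_univ _, hσdev p⟩
    rw [h1]
    exact hK.image hdev.continuous
  exact noncompact_univ (Fin n → ℝ) hE

end SV
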