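import Pool.Agent.Helper43.SV.Van

/-! Transfer from a subgroup of finite index, and descent to the quotient. -/

namespace SV

open Finset Topology

section trans

variable {M G : Type*} [TopologicalSpace M] [Group G] [MulAction G M] [ContinuousConstSMul G M]

theorem Trans_sub_le (H : Subgroup G) (k : ℕ) :
    (JJ H k : Submodule ℝ (SC M k)) ≤ JJ (⊤ : Subgroup H) k := by
  refine Submodule.span_le.2 ?_
  rintro c ⟨g, hg, c', rfl⟩
  exact JJ.mk (G := H) (Γ := ⊤) (g := ⟨g, hg⟩) trivial c'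

/-- the transfer of a chain -/
noncomputable def Trans_T (H : Subgroup G) [Fintype (G ⧸ H)] (k : ℕ) : SC M k →ₗ[ℝ] SC M k :=
  ∑ q : G ⧸ H, tr (q.out)⁻¹ k

theorem Trans_T_apply (H : Subgroup G) [Fintype (G ⧸ H)] (k : ℕ) (c : SC M k) :
    Trans_T H k c = ∑ q : G ⧸ H, tr (q.out)⁻¹ k c := by
  rw [Trans_T, LinearMap.sum_apply]

theorem Trans_T_bd (H : Subgroup G) [Fintype (G ⧸ H)] (k : ℕ) (c : SC M (k + 1)) :
    bd k (Trans_T H (k + 1) c) = Trans_T H k (bd k c) := by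
  rw [Trans_T_apply, Trans_T_apply, map_sum]
  exact Finset.sum_congr rfl fun q _ => bd_tr _ _ _

theorem Trans_T_mem (H : Subgroup G) [Fintype (G ⧸ H)] (k : ℕ) {c : SC M k}
    (hc : c ∈ JJ (⊤ : Subgroup G) k) : Trans_T H k c ∈ JJ H k := by
  have key : (JJ (⊤ : Subgroup G) k : Submodule ℝ (SC M k)) ≤ (JJ H k).comap (Trans_T H k) := by
    refine Submodule.span_le.2 ?_
    rintro c ⟨g, -, c', rfl⟩
    rw [SetLike.mem_coe, Submodule.mem_comap, map_sub, Trans_T_apply, Trans_T_apply]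
    have h1 : ∑ q : G ⧸ H, tr (q.out)⁻¹ k c' = ∑ q : G ⧸ H, tr ((g⁻¹ • q).out)⁻¹ k c' :=
      (Equiv.sum_comp (MulAction.toPerm g⁻¹) (fun q : G ⧸ H => tr (q.out)⁻¹ k c')).symm
    rw [h1, ← Finset.sum_sub_distrib]
    refine Submodule.sum_mem _ fun q _ => ?_
    have h2 : ((g⁻¹ • q).out)⁻¹ * (g⁻¹ * q.out) ∈ H := by
      rw [← QuotientGroup.eq, QuotientGroup.out_eq']
      conv_lhs => rw [← QuotientGroup.out_eq' q]
      rfl
    have h3 : (q.out)⁻¹ * g = (((g⁻¹ • q).out)⁻¹ * (g⁻¹ * q.out))⁻¹ * ((g⁻¹ • q).out)⁻¹ := by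
      group
    rw [← tr_mul, h3, tr_mul]
    exact JJ.mk (H.inv_mem h2) _
  exact key hc

/-- transfer: if norms of cycles modulo a finite index subgroup vanish, then so do those modulo the group -/
theorem transfer (H : Subgroup G) [H.FiniteIndex] (d : ℕ)
    (hH : ∀ z : SC M (d + 1), bd d z ∈ JJ (⊤ : Subgroup H) d → ∀ ε : ℝ, 0 < ε →
      ∃ (z' : SC M (d + 1)) (v : SC M (d + 2)), nrm z' < ε ∧ z' - z - bd (d + 1) v ∈ JJ (⊤ : Subgroup H) (d + 1))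
    (z : SC M (d + 1)) (hz : bd d z ∈ JJ (⊤ : Subgroup G) d) (ε : ℝ) (hε : 0 < ε) :
    ∃ (z' : SC M (d + 1)) (v : SC M (d + 2)), nrm z' < ε ∧ z' - z - bd (d + 1) v ∈ JJ (⊤ : Subgroup G) (d + 1) := by
  classical
  have : Fintype (G ⧸ H) := Fintype.ofFinite _
  set r : ℝ := (Fintype.card (G ⧸ H) : ℝ) with hr
  have hr0 : 0 < r := by
    rw [hr]
    exact_mod_cast Fintype.card_pos
  have h1 : bd d (Trans_T H (d + 1) z) ∈ JJ (⊤ : Subgroup H) d := by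
    rw [Trans_T_bd]
    exact Trans_sub_le H d (Trans_T_mem H d hz)
  obtain ⟨z', v, hz', hv⟩ := hH _ h1 (r * ε) (by positivity)
  have h2 : z' - Trans_T H (d + 1) z - bd (d + 1) v ∈ JJ (⊤ : Subgroup G) (d + 1) :=
    JJ.mono le_top (JJ_sub H _ hv)
  have h3 : Trans_T H (d + 1) z - r • z ∈ JJ (⊤ : Subgroup G) (d + 1) := by
    have h4 : r • z = ∑ q : G ⧸ H, z := by
      rw [Finset.sum_const, Finset.card_univ, hr, Nat.cast_smul_eq_nsmul]
    rw [h4, Trans_T_apply, ← Finset.sum_sub_distrib]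
    exact Submodule.sum_mem _ fun q _ => JJ.mk (Subgroup.mem_top _) _
  refine ⟨r⁻¹ • z', r⁻¹ • v, ?_, ?_⟩
  · rw [nrm_smul, abs_of_pos (inv_pos.2 hr0), inv_mul_lt_iff₀ hr0]
    exact hz'
  · have h5 : r⁻¹ • z' - z - bd (d + 1) (r⁻¹ • v) =
        r⁻¹ • (z' - Trans_T H (d + 1) z - bd (d + 1) v) + r⁻¹ • (Trans_T H (d + 1) z - r • z) := by
      rw [map_smul, smul_sub, smul_sub, smul_sub, smul_smul, inv_mul_cancel₀ hr0.ne', one_smul]
      abel
    rw [h5]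
    exact Submodule.add_mem _ (Submodule.smul_mem _ _ h2) (Submodule.smul_mem _ _ h3)

/-- descent to the quotient -/
theorem descend {X : Type*} [TopologicalSpace X] {p : C(M, X)} (hp : IsQuotientCoveringMap p G) (d : ℕ)
    (h : ∀ z : SC M (d + 1), bd d z ∈ JJ (⊤ : Subgroup G) d → ∀ ε : ℝ, 0 < ε →
      ∃ (z' : SC M (d + 1)) (v : SC M (d + 2)), nrm z' < ε ∧ z' - z - bd (d + 1) v ∈ JJ (⊤ : Subgroup G) (d + 1))
    (z : SC X (d + 1)) (hz : bd d z = 0) (ε : ℝ) (hε : 0 < ε) :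
    ∃ (z' : SC X (d + 1)) (v : SC X (d + 2)), nrm z' < ε ∧ z' - z = bd (d + 1) v := by
  obtain ⟨w, hw, -⟩ := lift_chain hp (d + 1) z
  have h1 : bd d w ∈ JJ (⊤ : Subgroup G) d := by
    apply smap_eq_zero hp
    rw [← bd_smap, hw, hz]
  obtain ⟨z', v, hz', hv⟩ := h w h1 ε hε
  refine ⟨smap p (d + 1) z', smap p (d + 2) v, (nrm_smap _ _ _).trans_lt hz', ?_⟩
  have h2 := smap_JJ p (⊤ : Subgroup G) (fun g _ x => hp.apply_eq_iff_mem_orbit.2 ⟨g, rfl⟩) _ hv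
  rw [map_sub, map_sub, hw, ← bd_smap, sub_eq_zero] at h2
  exact h2

end trans

end SV
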