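import Pool.Agent.Helper43.SV.Sing

/-! Prism operators. -/

namespace SV

open Finset Cvx

section tup

variable {P Q : Type*}

/-- the prism over a tuple -/
noncomputable def tprism (P : Type*) (k : ℕ) : TC P k →ₗ[ℝ] TC (ℝ × P) (k + 1) :=
  hK (P := P) (Q := ℝ × P) (fun k => tmap (fun x => ((1 : ℝ), x)) k) (fun k => tmap (fun x => ((0 : ℝ), x)) k)
    (fun _ p => ((0 : ℝ), p 0)) k

theorem aug_tmap {f : P → Q} (c : TC P 0) : aug (tmap f 0 c) = aug c := by
  have : (aug (A := Fin 1 → Q)).comp (tmap f 0) = aug := by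
    refine Finsupp.lhom_ext' (fun x => LinearMap.ext_ring ?_)
    simp
  exact LinearMap.congr_fun this c

theorem td_tprism_zero (c : TC P 0) : td 0 (tprism P 0 c) = tmap (fun x => ((1 : ℝ), x)) 0 c - tmap (fun x => ((0 : ℝ), x)) 0 c := by
  refine td_hK_zero (P := P) (Q := ℝ × P) (fun k => tmap (fun x => ((1 : ℝ), x)) k) (fun k => tmap (fun x => ((0 : ℝ), x)) k)
    (fun _ p => ((0 : ℝ), p 0)) (fun c => ?_) c
  simp only [aug_tmap]

theorem td_tprism (k : ℕ) (c : TC P (k + 1)) : td (k + 1) (tprism P (k + 1) c) =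
    tmap (fun x => ((1 : ℝ), x)) (k + 1) c - tmap (fun x => ((0 : ℝ), x)) (k + 1) c - tprism P k (td k c) := by
  refine td_hK (P := P) (Q := ℝ × P) (fun k => tmap (fun x => ((1 : ℝ), x)) k) (fun k => tmap (fun x => ((0 : ℝ), x)) k)
    (fun _ p => ((0 : ℝ), p 0)) (fun k c => td_tmap _ _ _) (fun k c => td_tmap _ _ _) (fun c => ?_) k c
  simp only [aug_tmap]

theorem tprism_nat (f : P → Q) (k : ℕ) (c : TC P k) :
    tprism Q k (tmap f k c) = tmap (fun z : ℝ × P => (z.1, f z.2)) (k + 1) (tprism P k c) := by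
  refine hK_nat _ _ _ _ _ _ f (fun z : ℝ × P => (z.1, f z.2)) (fun k c => ?_) (fun k c => ?_) (fun k p => rfl) k c
  · rw [tmap_tmap, tmap_tmap]
  · rw [tmap_tmap, tmap_tmap]

theorem tprism_TIn (k : ℕ) (p : Fin (k + 1) → P) :
    TIn {z : ℝ × P | z.1 ∈ Set.Icc (0 : ℝ) 1} (tprism P k (Finsupp.single p 1)) := by
  refine hK_TIn _ _ _ (fun _ _ => {z : ℝ × P | z.1 ∈ Set.Icc (0 : ℝ) 1}) ?_ ?_ ?_ ?_ k p
  · intro k p
    rw [tmap_single]
    exact TIn.single _ (fun i => by simp)
  · intro k p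
    rw [tmap_single]
    exact TIn.single _ (fun i => by simp)
  · intro k p
    simp
  · intro k p i
    exact le_rfl

end tup

section cvx

variable {P : Type*} [TopologicalSpace P] [Cvx P]

/-- convex subsets -/
def CvxSet (S : Set P) : Prop := ∀ (m : ℕ) (p : Fin (m + 1) → P), (∀ i, p i ∈ S) → ∀ t, comb p t ∈ S

theorem real_SIn {S : Set P} (hS : CvxSet S) {k : ℕ} {c : TC P k} (h : TIn S c) : SIn S (real k c) := by
  refine SIn.lin _ _ (fun q hq => ?_)
  rw [real_single]
  exact SIn.single _ (fun t => hS k q (h q hq) t)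

end cvx

theorem cvxSet_convex {V : Type*} [NormedAddCommGroup V] [NormedSpace ℝ V] {S : Set V} (h : Convex ℝ S) : CvxSet S := by
  intro m p hp t
  show ∑ i, t i • p i ∈ S
  exact h.sum_mem (fun i _ => stdSimplex.zero_le t i) (stdSimplex.sum_eq_one t) (fun i _ => hp i)

variable {X Y Z : Type*} [TopologicalSpace X] [TopologicalSpace Y] [TopologicalSpace Z]

/-- the slice at height u -/
def slice (u : ℝ) (X : Type*) [TopologicalSpace X] : C(X, ℝ × X) := ⟨fun t => (u, t), by fun_prop⟩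

theorem isAff_slice (u : ℝ) {P : Type*} [TopologicalSpace P] [Cvx P] : IsAff (slice u P) := by
  intro m p t
  show (u, comb p t) = (comb (fun _ => u) t, comb p t)
  congr 1
  show u = ∑ i, t i • u
  rw [← Finset.sum_smul, stdSimplex.sum_eq_one, one_smul]

/-- the product of the line with a map -/
def lineProd (f : C(X, Y)) : C(ℝ × X, ℝ × Y) := ⟨fun z => (z.1, f z.2), by fun_prop⟩

theorem isAff_lineProd {P Q : Type*} [TopologicalSpace P] [Cvx P] [TopologicalSpace Q] [Cvx Q] (f : C(P, Q))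
    (hf : IsAff f) : IsAff (lineProd f) := by
  intro m p t
  show (comb (fun i => (p i).1) t, f (comb (fun i => (p i).2) t)) = (comb (fun i => (p i).1) t, comb (fun i => f (p i).2) t)
  rw [hf]

/-- prism operator of a family of homotopies of singular simplices -/
noncomputable def prOp (H : ∀ k, Sx X k → C(ℝ × Dl k, Y)) (k : ℕ) : SC X k →ₗ[ℝ] SC Y (k + 1) :=
  ext (fun σ => smap (H k σ) (k + 1) (real (k + 1) (tprism (Dl k) k (iot k))))

/-- end operator of a family of homotopies of singular simplices -/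
noncomputable def enOp (u : ℝ) (H : ∀ k, Sx X k → C(ℝ × Dl k, Y)) (k : ℕ) : SC X k →ₗ[ℝ] SC Y k :=
  ext (fun σ => Finsupp.single ((H k σ).comp (slice u (Dl k))) (1 : ℝ))

/-- compatibility with faces -/
def HNat (H : ∀ k, Sx X k → C(ℝ × Dl k, Y)) : Prop :=
  ∀ k (σ : Sx X (k + 1)) (i : Fin (k + 2)) (u : ℝ) (t : Dl k), H k (sface X k i σ) (u, t) = H (k + 1) σ (u, dface k i t)

theorem smap_end (H : ∀ k, Sx X k → C(ℝ × Dl k, Y)) (u : ℝ) (k : ℕ) (σ : Sx X k) :
    smap (H k σ) k (real k (tmap (fun x => (u, x)) k (iot k))) = enOp u H k (Finsupp.single σ 1) := by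
  have h1 : real k (tmap (fun x : Dl k => (u, x)) k (iot k)) = smap (slice u (Dl k)) k (real k (iot k)) := by
    rw [smap_real _ (isAff_slice u)]
    rfl
  rw [h1, smap_smap, smap_iot, enOp, ext_single, one_smul]

theorem bd_prOp_zero (H : ∀ k, Sx X k → C(ℝ × Dl k, Y)) (c : SC X 0) :
    bd 0 (prOp H 0 c) = enOp 1 H 0 c - enOp 0 H 0 c := by
  have : (bd 0).comp (prOp H 0) = enOp 1 H 0 - enOp 0 H 0 := by
    refine Finsupp.lhom_ext' (fun σ => LinearMap.ext_ring ?_)
    simp only [LinearMap.comp_apply, Finsupp.lsingle_apply, LinearMap.sub_apply]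
    rw [← smap_end, ← smap_end, prOp, ext_single, one_smul, bd_smap, bd_real, td_tprism_zero, map_sub, map_sub]
  exact LinearMap.congr_fun this c

theorem bd_prOp (H : ∀ k, Sx X k → C(ℝ × Dl k, Y)) (hH : HNat H) (k : ℕ) (c : SC X (k + 1)) :
    bd (k + 1) (prOp H (k + 1) c) = enOp 1 H (k + 1) c - enOp 0 H (k + 1) c - prOp H k (bd k c) := by
  have : (bd (k + 1)).comp (prOp H (k + 1)) = enOp 1 H (k + 1) - enOp 0 H (k + 1) - (prOp H k).comp (bd k) := by
    refine Finsupp.lhom_ext' (fun σ => LinearMap.ext_ring ?_)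
    simp only [LinearMap.comp_apply, Finsupp.lsingle_apply, LinearMap.sub_apply]
    rw [← smap_end, ← smap_end]
    conv_lhs => rw [prOp, ext_single, one_smul, bd_smap, bd_real, td_tprism, map_sub, map_sub, map_sub, map_sub]
    congr 1
    rw [td_iot, bd_single, one_smul, map_sum, map_sum, map_sum, map_sum]
    refine Finset.sum_congr rfl (fun i _ => ?_)
    rw [map_smul, map_smul, map_smul, map_smul]
    congr 1
    rw [tprism_nat]
    have h1 : real (k + 1) (tmap (fun z : ℝ × Dl k => (z.1, dface k i z.2)) (k + 1) (tprism (Dl k) k (iot k))) =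
        smap (lineProd (dface k i)) (k + 1) (real (k + 1) (tprism (Dl k) k (iot k))) := by
      rw [smap_real _ (isAff_lineProd _ (isAff_dface k i))]
      rfl
    rw [h1, smap_smap, prOp, ext_single, one_smul]
    congr 1
    congr 1
    ext z
    exact (hH k σ i z.1 z.2).symm
  exact LinearMap.congr_fun this c

theorem prOp_SIn (H : ∀ k, Sx X k → C(ℝ × Dl k, Y)) (k : ℕ) (σ : Sx X k) (S : Set Y)
    (hS : ∀ u ∈ Set.Icc (0 : ℝ) 1, ∀ t, H k σ (u, t) ∈ S) : SIn S (prOp H k (Finsupp.single σ 1)) := by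
  rw [prOp, ext_single, one_smul]
  refine SIn.smap (S := {z : ℝ × Dl k | z.1 ∈ Set.Icc (0 : ℝ) 1}) (fun z hz => hS z.1 hz z.2) ?_
  refine real_SIn ?_ (tprism_TIn k _)
  intro m p hp t
  show comb (fun i => (p i).1) t ∈ Set.Icc (0 : ℝ) 1
  exact cvxSet_convex (convex_Icc 0 1) m _ hp t

/-- the family of homotopies of singular simplices given by a homotopy of maps -/
def homH (H : C(ℝ × X, Y)) (k : ℕ) (σ : Sx X k) : C(ℝ × Dl k, Y) := H.comp (lineProd σ)

theorem homH_nat (H : C(ℝ × X, Y)) : HNat (homH H) := fun _ _ _ _ _ => rfl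

theorem enOp_homH (H : C(ℝ × X, Y)) (u : ℝ) (k : ℕ) (c : SC X k) :
    enOp u (homH H) k c = smap (H.comp (slice u X)) k c := by
  have : enOp u (homH H) k = smap (H.comp (slice u X)) k := by
    refine Finsupp.lhom_ext' (fun σ => LinearMap.ext_ring ?_)
    simp only [LinearMap.comp_apply, Finsupp.lsingle_apply]
    rw [enOp, ext_single, one_smul, smap_single]
    rfl
  exact LinearMap.congr_fun this c

/-- the chain homotopy of a homotopy -/
noncomputable def homP (H : C(ℝ × X, Y)) (k : ℕ) : SC X k →ₗ[ℝ] SC Y (k + 1) := prOp (homH H) k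

theorem bd_homP (H : C(ℝ × X, Y)) (k : ℕ) (c : SC X (k + 1)) :
    bd (k + 1) (homP H (k + 1) c) = smap (H.comp (slice 1 X)) (k + 1) c - smap (H.comp (slice 0 X)) (k + 1) c
      - homP H k (bd k c) := by
  rw [homP, bd_prOp _ (homH_nat H), enOp_homH, enOp_homH]
  rfl

theorem bd_homP_zero (H : C(ℝ × X, Y)) (c : SC X 0) :
    bd 0 (homP H 0 c) = smap (H.comp (slice 1 X)) 0 c - smap (H.comp (slice 0 X)) 0 c := by
  rw [homP, bd_prOp_zero, enOp_homH, enOp_homH]

/-- naturality of the chain homotopy -/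
theorem homP_nat {X' Y' : Type*} [TopologicalSpace X'] [TopologicalSpace Y'] (H : C(ℝ × X, Y)) (H' : C(ℝ × X', Y'))
    (f : C(X, X')) (g : C(Y, Y')) (h : ∀ u x, H' (u, f x) = g (H (u, x))) (k : ℕ) (c : SC X k) :
    homP H' k (smap f k c) = smap g (k + 1) (homP H k c) := by
  have : (homP H' k).comp (smap f k) = (smap g (k + 1)).comp (homP H k) := by
    refine Finsupp.lhom_ext' (fun σ => LinearMap.ext_ring ?_)
    simp only [LinearMap.comp_apply, Finsupp.lsingle_apply, smap_single]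
    rw [homP, homP, prOp, prOp, ext_single, ext_single, one_smul, one_smul, smap_smap]
    congr 1
    congr 1
    ext z
    exact h z.1 (σ z.2)
  exact LinearMap.congr_fun this c

end SV
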