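import Pool.Agent.Helper43.SV.CovDef
import Pool.Agent.Helper43.SV.Prism

/-! Coinvariants of free actions on singular chains. -/

namespace SV

open Finset

section basic

variable {M G : Type*} [TopologicalSpace M] [Group G] [MulAction G M] [ContinuousConstSMul G M]

theorem tr_single (g : G) (k : ℕ) (σ : Sx M k) (r : ℝ) : tr g k (Finsupp.single σ r) = Finsupp.single (g • σ) r := by
  rw [tr, smap_single]
  rfl

theorem tr_mul (g h : G) (k : ℕ) (c : SC M k) : tr (g * h) k c = tr g k (tr h k c) := by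
  have : tr (g * h) k = (tr g k).comp (tr (E := M) h k) := by
    refine Finsupp.lhom_ext' (fun σ => LinearMap.ext_ring ?_)
    simp only [LinearMap.comp_apply, Finsupp.lsingle_apply]
    rw [tr_single, tr_single, tr_single, mul_smul]
  rw [this]; rfl

theorem tr_one (k : ℕ) (c : SC M k) : tr (1 : G) k c = c := by
  have : tr (1 : G) k = (LinearMap.id : SC M k →ₗ[ℝ] SC M k) := by
    refine Finsupp.lhom_ext' (fun σ => LinearMap.ext_ring ?_)
    simp only [LinearMap.comp_apply, Finsupp.lsingle_apply, LinearMap.id_apply]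
    rw [tr_single, one_smul]
  rw [this]; rfl

theorem bd_tr (g : G) (k : ℕ) (c : SC M (k + 1)) : bd k (tr g (k + 1) c) = tr g k (bd k c) := bd_smap _ k c

variable {Γ Γ' : Subgroup G} {k l : ℕ}

theorem JJ.mk {g : G} (hg : g ∈ Γ) (c : SC M k) : tr g k c - c ∈ JJ Γ k :=
  Submodule.subset_span ⟨g, hg, c, rfl⟩

theorem JJ.mono (h : Γ ≤ Γ') : (JJ Γ k : Submodule ℝ (SC M k)) ≤ JJ Γ' k := by
  refine Submodule.span_mono ?_
  rintro c ⟨g, hg, c', rfl⟩
  exact ⟨g, h hg, c', rfl⟩

/-- equivariant maps preserve J -/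
theorem JJ.map {M' : Type*} [TopologicalSpace M'] [MulAction G M'] [ContinuousConstSMul G M']
    (f : SC M k →ₗ[ℝ] SC M' l) (hf : ∀ g ∈ Γ, ∀ c, f (tr g k c) = tr g l (f c)) {c : SC M k} (hc : c ∈ JJ Γ k) :
    f c ∈ JJ Γ l := by
  have : (JJ Γ k : Submodule ℝ (SC M k)) ≤ (JJ Γ l : Submodule ℝ (SC M' l)).comap f := by
    refine Submodule.span_le.2 ?_
    rintro c ⟨g, hg, c', rfl⟩
    rw [SetLike.mem_coe, Submodule.mem_comap, map_sub, hf g hg]
    exact JJ.mk hg _
  exact this hc

theorem JJ.bd {c : SC M (k + 1)} (hc : c ∈ JJ Γ (k + 1)) : bd k c ∈ JJ Γ k :=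
  JJ.map (SV.bd k) (fun g _ c => bd_tr g k c) hc

theorem JJ.tr {τ : G} (h : ∀ g ∈ Γ, τ * g * τ⁻¹ ∈ Γ) {c : SC M k} (hc : c ∈ JJ Γ k) : tr τ k c ∈ JJ Γ k := by
  have : (JJ Γ k : Submodule ℝ (SC M k)) ≤ (JJ Γ k : Submodule ℝ (SC M k)).comap (SV.tr τ k) := by
    refine Submodule.span_le.2 ?_
    rintro c ⟨g, hg, c', rfl⟩
    rw [SetLike.mem_coe, Submodule.mem_comap, map_sub]
    have h1 : SV.tr τ k (SV.tr g k c') = SV.tr (τ * g * τ⁻¹) k (SV.tr τ k c') := by
      rw [← tr_mul, ← tr_mul, inv_mul_cancel_right]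
    rw [h1]
    exact JJ.mk (h g hg) _
  exact this hc

/-- splitting of J for a subgroup generated by two parts -/
theorem JJ.split {κ : Subgroup G} {τ : G} (hΓ : Γ ≤ κ ⊔ Subgroup.zpowers τ) {c : SC M k} (hc : c ∈ JJ Γ k) :
    ∃ y : SC M k, ∃ j ∈ (JJ κ k : Submodule ℝ (SC M k)), c = (SV.tr τ k y - y) + j := by
  set N : Submodule ℝ (SC M k) := (LinearMap.range (SV.tr τ k - LinearMap.id)) ⊔ JJ κ k with hN
  have key : ∀ g ∈ κ ⊔ Subgroup.zpowers τ, ∀ c' : SC M k, SV.tr g k c' - c' ∈ N := by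
    let H : Subgroup G :=
      { carrier := {g | ∀ c' : SC M k, SV.tr g k c' - c' ∈ N}
        mul_mem' := by
          intro a b ha hb c'
          have : SV.tr (a * b) k c' - c' = (SV.tr a k (SV.tr b k c') - SV.tr b k c') + (SV.tr b k c' - c') := by
            rw [tr_mul]; abel
          rw [this]
          exact N.add_mem (ha _) (hb _)
        one_mem' := by
          intro c'
          rw [tr_one, sub_self]
          exact N.zero_mem
        inv_mem' := by
          intro a ha c'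
          have h2 := ha (SV.tr a⁻¹ k c')
          rw [← tr_mul, mul_inv_cancel, tr_one] at h2
          have := N.neg_mem h2
          rwa [neg_sub] at this }
    have h1 : κ ⊔ Subgroup.zpowers τ ≤ H := by
      refine sup_le (fun g hg c' => ?_) ?_
      · exact (le_sup_right : JJ κ k ≤ N) (JJ.mk hg c')
      · rw [Subgroup.zpowers_le]
        intro c'
        exact (le_sup_left : _ ≤ N) ⟨c', by simp⟩
    exact fun g hg => h1 hg
  have h2 : (JJ Γ k : Submodule ℝ (SC M k)) ≤ N := by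
    refine Submodule.span_le.2 ?_
    rintro c ⟨g, hg, c', rfl⟩
    exact key g (hΓ hg) c'
  obtain ⟨a, ⟨y, rfl⟩, j, hj, hcj⟩ := Submodule.mem_sup.1 (h2 hc)
  exact ⟨y, j, hj, by rw [← hcj]; simp⟩

end basic

section orb

variable {A G : Type*} [Group G] [MulAction G A]

/-- the projection to the orbit space of a subgroup -/
noncomputable def orb (Γ : Subgroup G) : (A →₀ ℝ) →ₗ[ℝ] (Quotient (MulAction.orbitRel Γ A) →₀ ℝ) :=
  Finsupp.lmapDomain ℝ ℝ (Quotient.mk _)

theorem orb_single (Γ : Subgroup G) (a : A) (r : ℝ) :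
    orb Γ (Finsupp.single a r) = Finsupp.single (Quotient.mk _ a) r := by simp [orb]

end orb

section free

variable {M G : Type*} [TopologicalSpace M] [Group G] [MulAction G M] [ContinuousConstSMul G M]

theorem orb_JJ {Γ : Subgroup G} {k : ℕ} {c : SC M k} (hc : c ∈ JJ Γ k) : orb Γ c = 0 := by
  have : (JJ Γ k : Submodule ℝ (SC M k)) ≤ LinearMap.ker (orb Γ) := by
    refine Submodule.span_le.2 ?_
    rintro c ⟨g, hg, c', rfl⟩
    rw [SetLike.mem_coe, LinearMap.mem_ker, map_sub, sub_eq_zero]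
    have : (orb Γ).comp (tr g k) = (orb Γ : SC M k →ₗ[ℝ] _) := by
      refine Finsupp.lhom_ext' (fun σ => LinearMap.ext_ring ?_)
      simp only [LinearMap.comp_apply, Finsupp.lsingle_apply]
      rw [tr_single, orb_single, orb_single]
      congr 1
      refine Quotient.sound ?_
      exact ⟨⟨g, hg⟩, rfl⟩
    exact LinearMap.congr_fun this c'
  exact this hc

theorem JJ_of_orb {Γ : Subgroup G} {k : ℕ} {c : SC M k} (hc : orb Γ c = 0) : c ∈ JJ Γ k := by
  classical
  -- a section of the projection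
  let s : SC M k →ₗ[ℝ] SC M k := Finsupp.lmapDomain ℝ ℝ (fun σ => (Quotient.mk (MulAction.orbitRel Γ (Sx M k)) σ).out)
  have h1 : s c = 0 := by
    have : s = (Finsupp.lmapDomain ℝ ℝ (fun q : Quotient (MulAction.orbitRel Γ (Sx M k)) => q.out)).comp (orb Γ) := by
      refine Finsupp.lhom_ext' (fun σ => LinearMap.ext_ring ?_)
      simp only [LinearMap.comp_apply, Finsupp.lsingle_apply, s, orb_single, Finsupp.lmapDomain_apply, Finsupp.mapDomain_single]
    rw [this, LinearMap.comp_apply, hc, map_zero]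
  have h2 : ∀ c : SC M k, c - s c ∈ JJ Γ k := by
    intro c
    rw [fsum c, map_sum, ← Finset.sum_sub_distrib]
    refine Submodule.sum_mem _ (fun σ _ => ?_)
    rw [map_smul, ← smul_sub]
    refine Submodule.smul_mem _ _ ?_
    simp only [s, Finsupp.lmapDomain_apply, Finsupp.mapDomain_single]
    have h3 : MulAction.orbitRel Γ (Sx M k) (Quotient.mk (MulAction.orbitRel Γ (Sx M k)) σ).out σ := Quotient.mk_out σ
    obtain ⟨⟨g, hg⟩, hgσ⟩ := h3
    have h4 : g • σ = (Quotient.mk (MulAction.orbitRel Γ (Sx M k)) σ).out := hgσ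
    rw [← h4]
    have h5 := (JJ Γ k).neg_mem (JJ.mk (M := M) (k := k) hg (Finsupp.single σ 1))
    rw [neg_sub, tr_single] at h5
    exact h5
  have := h2 c
  rwa [h1, sub_zero] at this

/-- elements fixed modulo J by an element of infinite order modulo the kernel are in J -/
theorem JJ_of_fixed (hfree : ∀ (g : G) (x : M), g • x = x → g = 1) (χ : G →* Multiplicative ℤ) (τ : G) (hτ : χ τ ≠ 1)
    {k : ℕ} {c : SC M k} (hc : tr τ k c - c ∈ JJ χ.ker k) : c ∈ JJ χ.ker k := by
  classical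
  apply JJ_of_orb
  by_contra hne
  -- the action of powers of τ on orbits
  have hpow : ∀ n : ℕ, tr (τ ^ n) k c - c ∈ JJ χ.ker k := by
    intro n
    induction n with
    | zero => rw [pow_zero, tr_one, sub_self]; exact Submodule.zero_mem _
    | succ n ih =>
      have : tr (τ ^ (n + 1)) k c - c = tr τ k (tr (τ ^ n) k c - c) + (tr τ k c - c) := by
        rw [map_sub, ← tr_mul, ← pow_succ']; abel
      rw [this]
      refine Submodule.add_mem _ (JJ.tr (fun g hg => ?_) ih) hc
      rw [MonoidHom.mem_ker] at hg ⊢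
      rw [map_mul, map_mul, hg, mul_one, map_inv, mul_inv_cancel]
  obtain ⟨q, hq⟩ := Finsupp.ne_iff.1 hne
  rw [Finsupp.zero_apply] at hq
  obtain ⟨σ, rfl⟩ := Quotient.exists_rep q
  -- orb of the translate
  have htr : ∀ (n : ℕ) (c : SC M k) (σ : Sx M k), (orb χ.ker (tr (τ ^ n) k c)) (Quotient.mk _ (τ ^ n • σ)) =
      (orb χ.ker c) (Quotient.mk _ σ) := by
    intro n c σ
    rw [fsum c]
    simp only [map_sum, map_smul, Finsupp.finsetSum_apply, Finsupp.smul_apply]
    refine Finset.sum_congr rfl (fun ρ _ => ?_)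
    congr 1
    rw [tr_single, orb_single, orb_single, Finsupp.single_apply, Finsupp.single_apply]
    have : (Quotient.mk (MulAction.orbitRel χ.ker (Sx M k)) (τ ^ n • ρ) = Quotient.mk _ (τ ^ n • σ)) ↔
        (Quotient.mk (MulAction.orbitRel χ.ker (Sx M k)) ρ = Quotient.mk _ σ) := by
      rw [Quotient.eq, Quotient.eq]
      constructor
      · rintro ⟨⟨g, hg⟩, h⟩
        have h' : g • (τ ^ n • σ) = τ ^ n • ρ := h
        refine ⟨⟨(τ ^ n)⁻¹ * g * τ ^ n, ?_⟩, ?_⟩
        · rw [MonoidHom.mem_ker] at hg ⊢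
          rw [map_mul, map_mul, hg, mul_one, map_inv, inv_mul_cancel]
        · show ((τ ^ n)⁻¹ * g * τ ^ n) • σ = ρ
          rw [mul_smul, mul_smul, h', inv_smul_smul]
      · rintro ⟨⟨g, hg⟩, h⟩
        have h' : g • σ = ρ := h
        refine ⟨⟨τ ^ n * g * (τ ^ n)⁻¹, ?_⟩, ?_⟩
        · rw [MonoidHom.mem_ker] at hg ⊢
          rw [map_mul, map_mul, hg, mul_one, map_inv, mul_inv_cancel]
        · show (τ ^ n * g * (τ ^ n)⁻¹) • (τ ^ n • σ) = τ ^ n • ρ
          rw [mul_smul, mul_smul, inv_smul_smul, h']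
    simp only [this]
  have hval : ∀ n : ℕ, (orb χ.ker c) (Quotient.mk _ (τ ^ n • σ)) ≠ 0 := by
    intro n
    have h1 := orb_JJ (hpow n)
    rw [map_sub, sub_eq_zero] at h1
    rw [← h1, htr]
    exact hq
  -- infinitely many orbits
  have hinj : Function.Injective (fun n : ℕ => Quotient.mk (MulAction.orbitRel χ.ker (Sx M k)) (τ ^ n • σ)) := by
    intro a b hab
    simp only at hab
    rw [Quotient.eq] at hab
    obtain ⟨⟨g, hg⟩, h⟩ := hab
    have h' : g • (τ ^ b • σ) = τ ^ a • σ := h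
    have h2 : ((τ ^ a)⁻¹ * g * τ ^ b) • (σ (vtx 0)) = σ (vtx 0) := by
      have := DFunLike.congr_fun h' (vtx 0)
      have h3 : g • (τ ^ b • (σ (vtx 0))) = τ ^ a • (σ (vtx 0)) := this
      rw [mul_smul, mul_smul, h3, inv_smul_smul]
    have h4 := hfree _ _ h2
    have h5 : χ τ ^ b = χ τ ^ a := by
      rw [MonoidHom.mem_ker] at hg
      have := congrArg χ h4
      rw [map_mul, map_mul, hg, mul_one, map_inv, map_pow, map_pow, map_one, inv_mul_eq_one] at this
      exact this.symm
    have h6 : (Multiplicative.toAdd (χ τ)) ≠ 0 := fun h0 => hτ (by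
      rw [← toAdd_one] at h0; exact Multiplicative.toAdd.injective h0)
    have h7 := congrArg Multiplicative.toAdd h5
    rw [toAdd_pow, toAdd_pow, nsmul_eq_mul, nsmul_eq_mul] at h7
    have := mul_right_cancel₀ h6 h7
    exact_mod_cast this.symm
  have : Set.Infinite ((orb χ.ker c).support : Set (Quotient (MulAction.orbitRel χ.ker (Sx M k)))) := by
    refine Set.infinite_of_injective_forall_mem hinj (fun n => ?_)
    rw [Finset.mem_coe, Finsupp.mem_support_iff]
    exact hval n
  exact this (Finset.finite_toSet _)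

end free

end SV
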