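import Pool.Agent.Helper43.SV.Dim
import Pool.Agent.Helper43.SV.Orb
import Pool.Agent.Helper43.SV.Cover

/-! Vanishing above the dimension, in terms of the covering space. -/

namespace SV

open Finset Topology

theorem locEuc_of_cover {n : ℕ} {M X G : Type*} [TopologicalSpace M] [TopologicalSpace X] [Group G] [MulAction G M]
    (dev : M → (Fin n → ℝ)) (hdev : IsLocalHomeomorph dev) (p : C(M, X)) (hp : IsQuotientCoveringMap p G) : LocEuc n X := by
  intro x
  obtain ⟨m, rfl⟩ := hp.surjective x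
  obtain ⟨e, hme, he⟩ := hdev m
  obtain ⟨e', hme', he'⟩ := hp.isCoveringMap.isLocalHomeomorph m
  let e2 : OpenPartialHomeomorph (Fin n → ℝ) X := e.symm.trans e'
  have hm : e m ∈ e2.source := by
    rw [OpenPartialHomeomorph.trans_source, OpenPartialHomeomorph.symm_source]
    refine ⟨e.map_source hme, ?_⟩
    rw [Set.mem_preimage, e.left_inv hme]
    exact hme'
  refine ⟨e2.source, ⟨fun y => (e2.toHomeomorphSourceTarget y : X), by fun_prop⟩, e2.open_source, ?_, ?_⟩
  · exact e2.open_target.isOpenEmbedding_subtypeVal.comp e2.toHomeomorphSourceTarget.isOpenEmbedding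
  · refine ⟨⟨e m, hm⟩, ?_⟩
    show e' (e.symm (e m)) = p m
    rw [e.left_inv hme, he']

theorem locallyCompact_of_dev {n : ℕ} {M : Type*} [TopologicalSpace M] (dev : M → (Fin n → ℝ)) (hdev : IsLocalHomeomorph dev) :
    LocallyCompactSpace M := by
  let : ChartedSpace (Fin n → ℝ) M :=
    { atlas := Set.univ
      chartAt := fun x => (hdev x).choose
      mem_chart_source := fun x => (hdev x).choose_spec.1
      chart_mem_atlas := fun _ => Set.mem_univ _ }
  exact ChartedSpace.locallyCompactSpace (Fin n → ℝ) M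

theorem properlyDisc_subgroup {M G : Type*} [TopologicalSpace M] [Group G] [MulAction G M]
    [ProperlyDiscontinuousSMul G M] (Γ : Subgroup G) : ProperlyDiscontinuousSMul Γ M where
  finite_disjoint_inter_image := by
    intro K L hK hL
    have h := ProperlyDiscontinuousSMul.finite_disjoint_inter_image (Γ := G) hK hL
    exact (h.preimage (f := fun g : Γ => (g : G)) (Subtype.val_injective.injOn)).subset (fun g hg => hg)

variable {M G : Type*} [TopologicalSpace M] [Group G] [MulAction G M] [ContinuousConstSMul G M]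

instance contSub (Γ : Subgroup G) : ContinuousConstSMul Γ M := ⟨fun g => continuous_const_smul (g : G)⟩

theorem JJ_sub (Γ : Subgroup G) (k : ℕ) :
    (JJ (⊤ : Subgroup Γ) k : Submodule ℝ (SC M k)) ≤ JJ Γ k := by
  refine Submodule.span_le.2 ?_
  rintro c ⟨g, _, c', rfl⟩
  exact JJ.mk g.2 c'

theorem smap_JJ {X : Type*} [TopologicalSpace X] (p : C(M, X)) (Γ : Subgroup G) (hp : ∀ g ∈ Γ, ∀ x, p (g • x) = p x)
    (k : ℕ) {c : SC M k} (hc : c ∈ JJ Γ k) : smap p k c = 0 := by
  have : (JJ Γ k : Submodule ℝ (SC M k)) ≤ LinearMap.ker (smap p k) := by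
    refine Submodule.span_le.2 ?_
    rintro c ⟨g, hg, c', rfl⟩
    rw [SetLike.mem_coe, LinearMap.mem_ker, map_sub, sub_eq_zero, tr, smap_smap]
    congr 2
    ext x
    exact hp g hg x
  exact this hc

/-- vanishing above the dimension -/
theorem hV_of [T2Space M] [LocallyCompactSpace M] [ProperlyDiscontinuousSMul G M]
    (hfree : ∀ (g : G) (x : M), g • x = x → g = 1) (d : ℕ) (dev : M → (Fin (d + 1) → ℝ)) (hdev : IsLocalHomeomorph dev)
    (Γ : Subgroup G) (K : Set M) (hK : IsCompact K) (hcov : ∀ x : M, ∃ g ∈ Γ, ∃ y ∈ K, x = g • y)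
    (u : SC M (d + 2)) (hu : bd (d + 1) u ∈ JJ Γ (d + 1)) :
    ∃ y : SC M (d + 3), u - bd (d + 2) y ∈ JJ Γ (d + 2) := by
  have := properlyDisc_subgroup (M := M) Γ
  have hcan : IsCancelSMul Γ M := by
    rw [isCancelSMul_iff_eq_one_of_smul_eq]
    intro g x hgx
    exact Subtype.ext (hfree g x hgx)
  have hp0 := isQuotientCoveringMap_quotientMk_of_properlyDiscontinuousSMul (G := Γ) (E := M)
  let X := Quotient (MulAction.orbitRel Γ M)
  let p : C(M, X) := ⟨Quotient.mk _, hp0.continuous⟩
  have hp : IsQuotientCoveringMap p Γ := hp0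
  have hpg : ∀ g ∈ Γ, ∀ x, p (g • x) = p x := by
    intro g hg x
    exact hp.apply_eq_iff_mem_orbit.2 ⟨⟨g, hg⟩, rfl⟩
  have hX : CompactSpace X := by
    constructor
    have : (Set.univ : Set X) = p '' K := by
      refine (Set.eq_univ_of_forall fun x => ?_).symm
      obtain ⟨m, rfl⟩ := hp.surjective x
      obtain ⟨g, hg, y, hy, rfl⟩ := hcov m
      exact ⟨y, hy, (hpg g hg y).symm⟩
    rw [this]
    exact hK.image p.continuous
  have hL : LocEuc (d + 1) X := locEuc_of_cover dev hdev p hp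
  have hE := Ex_compact (n := d + 1) (by omega) hL (d + 1) le_rfl
  obtain ⟨c, -, hc⟩ := hE (smap p (d + 2) u) (SIn.univ _) (by rw [bd_smap, smap_JJ p Γ hpg _ hu])
  obtain ⟨c', hc', -⟩ := lift_chain hp (d + 3) c
  refine ⟨c', JJ_sub Γ _ (smap_eq_zero hp _ _ ?_)⟩
  rw [map_sub, ← bd_smap, hc', hc, sub_self]

end SV
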