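import Pool.Agent.Helper43.SV.Orb

/-! The self-maps given by a periodic flow and a character: Wang type argument. -/

namespace SV

open Finset

variable {M G : Type*} [TopologicalSpace M] [Group G] [MulAction G M] [ContinuousConstSMul G M]

theorem JJ_of_char {χ : G →* Multiplicative ℤ} {g g' : G} (h : χ g = χ g') {k : ℕ} (c : SC M k) :
    tr g k c - tr g' k c ∈ JJ χ.ker k := by
  have h1 : tr g k c = tr (g * g'⁻¹) k (tr g' k c) := by
    rw [← tr_mul, inv_mul_cancel_right]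
  rw [h1]
  refine JJ.mk ?_ _
  rw [MonoidHom.mem_ker, map_mul, map_inv, h, mul_inv_cancel]

theorem ker_conj {χ : G →* Multiplicative ℤ} (τ : G) : ∀ g ∈ χ.ker, τ * g * τ⁻¹ ∈ χ.ker := by
  intro g hg
  rw [MonoidHom.mem_ker] at hg ⊢
  rw [map_mul, map_mul, hg, mul_one, map_inv, mul_inv_cancel]

theorem homP_tr (H : C(ℝ × M, M)) (g : G) (hg : ∀ u x, H (u, g • x) = g • H (u, x)) (k : ℕ) (c : SC M k) :
    homP H k (tr g k c) = tr g (k + 1) (homP H k c) :=
  homP_nat H H ⟨fun x => g • x, continuous_const_smul g⟩ ⟨fun x => g • x, continuous_const_smul g⟩ hg k c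

theorem smap_tr (f : C(M, M)) (g g' : G) (hg : ∀ x, f (g • x) = g' • f x) (k : ℕ) (c : SC M k) :
    smap f k (tr g k c) = tr g' k (smap f k c) := by
  have : (smap f k).comp (tr g k) = (tr g' k).comp (smap f k) := by
    refine Finsupp.lhom_ext' (fun σ => LinearMap.ext_ring ?_)
    simp only [LinearMap.comp_apply, Finsupp.lsingle_apply]
    rw [tr_single, smap_single, smap_single, tr_single]
    congr 1
    ext t
    exact hg (σ t)
  exact LinearMap.congr_fun this c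

section wang

variable (hfree : ∀ (g : G) (x : M), g • x = x → g = 1) (χ : G →* Multiplicative ℤ) (ζ : G) (hζ : χ ζ ≠ 1)
  (F : C(ℝ × M, M)) (hF0 : ∀ x, F (0, x) = x) (hF1 : ∀ x, F (1, x) = ζ • x)
  (hFg : ∀ (g : G) u x, F (u, g • x) = g • F (u, x))

include hfree hζ hF0 hF1 hFg

/-- no homology in degree d+1 for the kernel -/
theorem wangA (d : ℕ)
    (hV : ∀ u : SC M (d + 2), bd (d + 1) u ∈ JJ (χ.ker ⊔ Subgroup.zpowers ζ) (d + 1) →
      ∃ y : SC M (d + 3), u - bd (d + 2) y ∈ JJ (χ.ker ⊔ Subgroup.zpowers ζ) (d + 2))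
    (u : SC M (d + 1)) (hu : bd d u ∈ JJ χ.ker d) : ∃ y : SC M (d + 2), u - bd (d + 1) y ∈ JJ χ.ker (d + 1) := by
  have e1 : ∀ c : SC M (d + 1), smap (F.comp (slice 1 M)) (d + 1) c = tr ζ (d + 1) c := by
    intro c
    have : F.comp (slice 1 M) = ⟨fun x => ζ • x, continuous_const_smul ζ⟩ := by
      ext x; exact hF1 x
    rw [this]; rfl
  have e0 : ∀ c : SC M (d + 1), smap (F.comp (slice 0 M)) (d + 1) c = c := by
    intro c
    have : F.comp (slice 0 M) = ContinuousMap.id M := by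
      ext x; exact hF0 x
    rw [this, smap_id]
  have hQu : bd (d + 1) (homP F (d + 1) u) = tr ζ (d + 1) u - u - homP F d (bd d u) := by
    rw [bd_homP, e1, e0]
  have hQ : ∀ (Γ : Subgroup G) k (c : SC M k), c ∈ JJ Γ k → homP F k c ∈ JJ Γ (k + 1) := fun Γ k c hc =>
    JJ.map (homP F k) (fun g _ c => homP_tr F g (hFg g) k c) hc
  obtain ⟨y, hy⟩ := hV (homP F (d + 1) u) (by
    rw [hQu]
    refine Submodule.sub_mem _ (JJ.mk (Subgroup.mem_sup_right (Subgroup.mem_zpowers ζ)) _) ?_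
    exact JJ.mono le_sup_left (hQ _ _ _ hu))
  obtain ⟨y', j, hj, hyj⟩ := JJ.split le_rfl hy
  have h1 : bd (d + 1) (homP F (d + 1) u) = (tr ζ (d + 1) (bd (d + 1) y') - bd (d + 1) y') + bd (d + 1) j := by
    have := congrArg (bd (d + 1)) hyj
    rw [map_sub, bd_bd, sub_zero, map_add, map_sub, bd_tr] at this
    exact this
  refine ⟨y', JJ_of_fixed hfree χ ζ hζ ?_⟩
  have h2 : tr ζ (d + 1) (u - bd (d + 1) y') - (u - bd (d + 1) y') = homP F d (bd d u) + bd (d + 1) j := by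
    rw [hQu] at h1
    rw [map_sub]
    have h3 : tr ζ (d + 1) u - u = homP F d (bd d u) + ((tr ζ (d + 1) (bd (d + 1) y') - bd (d + 1) y') + bd (d + 1) j) := by
      rw [← h1]; abel
    calc tr ζ (d + 1) u - tr ζ (d + 1) (bd (d + 1) y') - (u - bd (d + 1) y')
        = (tr ζ (d + 1) u - u) - (tr ζ (d + 1) (bd (d + 1) y') - bd (d + 1) y') := by abel
      _ = homP F d (bd d u) + bd (d + 1) j := by rw [h3]; abel
  rw [h2]
  exact Submodule.add_mem _ (hQ _ _ _ hu) (JJ.bd hj)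

theorem wangB (τ : G) (hτ : χ τ = Multiplicative.ofAdd 1) (c₀ : ℕ) (hc₀ : χ ζ = Multiplicative.ofAdd (c₀ : ℤ))
    (hFa : ∀ u v x, F (u + v, x) = F (u, F (v, x)))
    (ρ : C(M, ℝ)) (hρ : ∀ (g : G) x, ρ (g • x) = ρ x + ((Multiplicative.toAdd (χ g) : ℤ) : ℝ))
    (d : ℕ)
    (hV : ∀ u : SC M (d + 2), bd (d + 1) u ∈ JJ (χ.ker ⊔ Subgroup.zpowers ζ) (d + 1) →
      ∃ y : SC M (d + 3), u - bd (d + 2) y ∈ JJ (χ.ker ⊔ Subgroup.zpowers ζ) (d + 2))
    (z : SC M (d + 1)) (hz : bd d z ∈ JJ (⊤ : Subgroup G) d) (m : ℕ) :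
    ∃ (f : C(M, M)) (v : SC M (d + 2)),
      smap f (d + 1) z - ((1 + m * c₀ : ℕ) : ℝ) • z - bd (d + 1) v ∈ JJ (⊤ : Subgroup G) (d + 1) := by
  classical
  -- the homotopy
  let H : C(ℝ × M, M) := ⟨fun w => F (w.1 * (m * ρ w.2), w.2), by fun_prop⟩
  let f : C(M, M) := H.comp (slice 1 M)
  have hf : ∀ x, f x = F (m * ρ x, x) := by
    intro x
    show F (1 * (m * ρ x), x) = _
    rw [one_mul]
  have hH0 : H.comp (slice 0 M) = ContinuousMap.id M := by
    ext x
    show F (0 * (m * ρ x), x) = x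
    rw [zero_mul, hF0]
  have hFm : ∀ (j : ℕ) x, F ((j : ℝ), x) = ζ ^ j • x := by
    intro j
    induction j with
    | zero => intro x; rw [Nat.cast_zero, hF0, pow_zero, one_smul]
    | succ j ih =>
      intro x
      rw [Nat.cast_succ, hFa, hF1, ih, pow_succ, mul_smul]
  have hHκ : ∀ g ∈ χ.ker, ∀ u x, H (u, g • x) = g • H (u, x) := by
    intro g hg u x
    show F (u * (m * ρ (g • x)), g • x) = g • F (u * (m * ρ x), x)
    rw [MonoidHom.mem_ker] at hg
    rw [hρ, hg, toAdd_one, Int.cast_zero, add_zero, hFg]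
  have hfκ : ∀ g ∈ χ.ker, ∀ x, f (g • x) = g • f x := fun g hg x => hHκ g hg 1 x
  have hfτ : ∀ x, f (τ • x) = (τ * ζ ^ m) • f x := by
    intro x
    rw [hf, hf, hρ, hτ, toAdd_ofAdd, Int.cast_one, hFg, mul_smul, ← hFm, ← hFa]
    congr 3
    ring
  -- splitting of the boundary
  have hG : (⊤ : Subgroup G) ≤ χ.ker ⊔ Subgroup.zpowers τ := by
    intro g _
    have h1 : g = (g * (τ ^ (Multiplicative.toAdd (χ g)))⁻¹) * τ ^ (Multiplicative.toAdd (χ g)) := by group
    rw [h1]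
    refine Subgroup.mul_mem_sup ?_ (Subgroup.zpow_mem _ (Subgroup.mem_zpowers τ) _)
    rw [MonoidHom.mem_ker, map_mul, map_inv, map_zpow, hτ, ← ofAdd_zsmul]
    simp
  obtain ⟨y, j, hj, hyj⟩ := JJ.split hG hz
  have hχτ : χ τ ≠ 1 := by
    rw [hτ]
    intro h
    have := congrArg Multiplicative.toAdd h
    simp at this
  have hJf : ∀ k (c : SC M k), c ∈ JJ χ.ker k → smap f k c ∈ JJ χ.ker k := fun k c hc =>
    JJ.map (smap f k) (fun g hg c => smap_tr f g g (hfκ g hg) k c) hc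
  have hJP : ∀ k (c : SC M k), c ∈ JJ χ.ker k → homP H k c ∈ JJ χ.ker (k + 1) := fun k c hc =>
    JJ.map (homP H k) (fun g hg c => homP_tr H g (hHκ g hg) k c) hc
  have hJτ : ∀ (a : G) k (c : SC M k), c ∈ JJ χ.ker k → tr a k c ∈ JJ χ.ker k := fun a k c hc => JJ.tr (ker_conj a) hc
  -- f y is homologous to y modulo the kernel
  have B0 : smap f d y - y - bd d (homP H d y) ∈ JJ χ.ker d := by
    cases d with
    | zero =>
      rw [bd_homP_zero, hH0, smap_id]
      have : smap f 0 y - y - (smap (H.comp (slice 1 M)) 0 y - y) = 0 := by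
        show smap f 0 y - y - (smap f 0 y - y) = 0
        abel
      rw [this]
      exact Submodule.zero_mem _
    | succ d =>
      rw [bd_homP, hH0, smap_id]
      have : smap f (d + 1) y - y - (smap (H.comp (slice 1 M)) (d + 1) y - y - homP H d (bd d y)) = homP H d (bd d y) := by
        show smap f (d + 1) y - y - (smap f (d + 1) y - y - homP H d (bd d y)) = _
        abel
      rw [this]
      refine hJP _ _ (JJ_of_fixed hfree χ τ hχτ ?_)
      have h2 := congrArg (bd d) hyj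
      rw [bd_bd, map_add, map_sub, bd_tr] at h2
      have h3 : tr τ d (bd d y) - bd d y = - bd d j := by
        have := eq_neg_of_add_eq_zero_left h2.symm
        exact this
      rw [h3]
      exact Submodule.neg_mem _ (JJ.bd hj)
  set K : ℕ := 1 + m * c₀ with hK'
  -- telescoping
  have htel : ∀ (K : ℕ), ∑ i ∈ Finset.range K, tr (τ ^ i) d (tr τ d y - y) = tr (τ ^ K) d y - y := by
    intro K
    induction K with
    | zero => rw [Finset.sum_range_zero, pow_zero, tr_one, sub_self]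
    | succ K ih =>
      rw [Finset.sum_range_succ, ih, map_sub, ← tr_mul, ← pow_succ]
      abel
  set Sz := ∑ i ∈ Finset.range K, tr (τ ^ i) (d + 1) z with hSz
  set w := smap f (d + 1) z - Sz - (tr (τ ^ K) (d + 1) (homP H d y) - homP H d y) with hw
  have hbw : bd d w ∈ JJ χ.ker d := by
    have h1 : bd d (smap f (d + 1) z) = tr (τ * ζ ^ m) d (smap f d y) - smap f d y + smap f d j := by
      rw [bd_smap, hyj, map_add, map_sub, smap_tr f τ (τ * ζ ^ m) hfτ]
    have h2 : bd d Sz = (tr (τ ^ K) d y - y) + ∑ i ∈ Finset.range K, tr (τ ^ i) d j := by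
      rw [hSz, map_sum, ← htel, ← Finset.sum_add_distrib]
      refine Finset.sum_congr rfl (fun i _ => ?_)
      rw [bd_tr, hyj, map_add]
    have h3 : bd d w = (tr (τ * ζ ^ m) d (smap f d y) - tr (τ ^ K) d (smap f d y))
        + (tr (τ ^ K) d (smap f d y - y - bd d (homP H d y)) - (smap f d y - y - bd d (homP H d y)))
        + (smap f d j - ∑ i ∈ Finset.range K, tr (τ ^ i) d j) := by
      rw [hw, map_sub, map_sub, map_sub, h1, h2, bd_tr, map_sub, map_sub]
      abel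
    rw [h3]
    refine Submodule.add_mem _ (Submodule.add_mem _ (JJ_of_char ?_ _) (Submodule.sub_mem _ (hJτ _ _ _ B0) B0))
      (Submodule.sub_mem _ (hJf _ _ hj) (Submodule.sum_mem _ (fun i _ => hJτ _ _ _ hj)))
    rw [map_mul, map_pow, map_pow, hτ, hc₀, hK', ← ofAdd_nsmul, ← ofAdd_nsmul, ← ofAdd_add]
    congr 1
    simp
  obtain ⟨v, hv⟩ := wangA hfree χ ζ hζ F hF0 hF1 hFg d hV w hbw
  refine ⟨f, v, ?_⟩
  have h4 : smap f (d + 1) z - ((K : ℕ) : ℝ) • z - bd (d + 1) v = (w - bd (d + 1) v)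
      + (Sz - ((K : ℕ) : ℝ) • z) + (tr (τ ^ K) (d + 1) (homP H d y) - homP H d y) := by
    rw [hw]; abel
  rw [h4]
  refine Submodule.add_mem _ (Submodule.add_mem _ (JJ.mono le_top hv) ?_) (JJ.mk (Subgroup.mem_top _) _)
  have h5 : Sz - ((K : ℕ) : ℝ) • z = ∑ i ∈ Finset.range K, (tr (τ ^ i) (d + 1) z - z) := by
    rw [Finset.sum_sub_distrib, Finset.sum_const, Finset.card_range, ← Nat.cast_smul_eq_nsmul ℝ]
  rw [h5]
  exact Submodule.sum_mem _ (fun i _ => JJ.mk (Subgroup.mem_top _) _)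

theorem wang (τ : G) (hτ : χ τ = Multiplicative.ofAdd 1) (c₀ : ℕ) (hc₀ : χ ζ = Multiplicative.ofAdd (c₀ : ℤ))
    (hc : 0 < c₀) (hFa : ∀ u v x, F (u + v, x) = F (u, F (v, x)))
    (ρ : C(M, ℝ)) (hρ : ∀ (g : G) x, ρ (g • x) = ρ x + ((Multiplicative.toAdd (χ g) : ℤ) : ℝ))
    (d : ℕ)
    (hV : ∀ u : SC M (d + 2), bd (d + 1) u ∈ JJ (χ.ker ⊔ Subgroup.zpowers ζ) (d + 1) →
      ∃ y : SC M (d + 3), u - bd (d + 2) y ∈ JJ (χ.ker ⊔ Subgroup.zpowers ζ) (d + 2))
    (z : SC M (d + 1)) (hz : bd d z ∈ JJ (⊤ : Subgroup G) d) (ε : ℝ) (hε : 0 < ε) :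
    ∃ (z' : SC M (d + 1)) (v : SC M (d + 2)), nrm z' < ε ∧ z' - z - bd (d + 1) v ∈ JJ (⊤ : Subgroup G) (d + 1) := by
  obtain ⟨m, hm⟩ := exists_nat_gt (nrm z / ε)
  obtain ⟨f, v, hfv⟩ := wangB hfree χ ζ hζ F hF0 hF1 hFg τ hτ c₀ hc₀ hFa ρ hρ d hV z hz m
  set K : ℝ := ((1 + m * c₀ : ℕ) : ℝ) with hK'
  have hKm : (m : ℝ) < K := by
    rw [hK']
    have : m < 1 + m * c₀ := by nlinarith
    exact_mod_cast this
  have hm0 : (0 : ℝ) ≤ m := Nat.cast_nonneg m
  have hK0 : 0 < K := by linarith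
  refine ⟨K⁻¹ • smap f (d + 1) z, K⁻¹ • v, ?_, ?_⟩
  · rw [nrm_smul, abs_of_pos (by positivity), inv_mul_eq_div, div_lt_iff₀ hK0]
    have h1 := nrm_smap f (d + 1) z
    have h2 : nrm z < m * ε := by rwa [div_lt_iff₀ hε] at hm
    nlinarith
  · have h3 : K⁻¹ • smap f (d + 1) z - z - bd (d + 1) (K⁻¹ • v) =
        K⁻¹ • (smap f (d + 1) z - K • z - bd (d + 1) v) := by
      rw [map_smul, smul_sub, smul_sub, smul_smul, inv_mul_cancel₀ hK0.ne', one_smul]
    rw [h3]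
    exact Submodule.smul_mem _ _ hfv

end wang

end SV
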