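import Pool.Agent.Helper43.SV.Period
import Pool.Agent.Helper43.SV.Radiant
import Pool.Agent.Helper43.SV.CharNorm
import Pool.Agent.Helper43.SV.Char
import Pool.Agent.Helper43.SV.Trans
import Pool.Agent.Helper43.SV.Wang
import Pool.Agent.Helper43.SV.Van

/-! Closed affine manifolds with virtually abelian holonomy have vanishing l1-seminorm in top degree. -/

namespace SV

open Filter Topology

section lin

variable {n : ℕ}

/-- the linear map of R^n x R given by an affine automorphism -/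
noncomputable def linA (f : (Fin n → ℝ) ≃ᵃ[ℝ] (Fin n → ℝ)) : VV n →L[ℝ] VV n :=
  LinearMap.toContinuousLinearMap
    { toFun := fun v => (f.linear v.1 + v.2 • f 0, v.2)
      map_add' := by
        intro v w
        ext i
        · simp only [Prod.fst_add, Prod.snd_add, map_add, add_smul, Pi.add_apply]; ring
        · rfl
      map_smul' := by
        intro r v
        ext i
        · simp only [Prod.smul_fst, Prod.smul_snd, map_smul, smul_eq_mul, mul_smul, RingHom.id_apply,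
            Pi.add_apply, Pi.smul_apply]
          ring
        · rfl }

theorem linA_apply (f : (Fin n → ℝ) ≃ᵃ[ℝ] (Fin n → ℝ)) (v : VV n) : linA f v = (f.linear v.1 + v.2 • f 0, v.2) := rfl

theorem aff_eq (f : (Fin n → ℝ) ≃ᵃ[ℝ] (Fin n → ℝ)) (p : Fin n → ℝ) : f p = f.linear p + f 0 := by
  have := f.map_vadd 0 p
  simpa using this

theorem linA_one : linA (1 : (Fin n → ℝ) ≃ᵃ[ℝ] (Fin n → ℝ)) = 1 := by
  refine ContinuousLinearMap.ext (fun v => ?_)
  rw [linA_apply]
  refine Prod.ext ?_ rfl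
  show (1 : (Fin n → ℝ) ≃ᵃ[ℝ] (Fin n → ℝ)).linear v.1 + v.2 • (0 : Fin n → ℝ) = v.1
  rw [smul_zero, add_zero]; rfl

theorem linA_mul (f g : (Fin n → ℝ) ≃ᵃ[ℝ] (Fin n → ℝ)) : linA (f * g) = linA f * linA g := by
  refine ContinuousLinearMap.ext (fun v => ?_)
  show linA (f * g) v = linA f (linA g v)
  rw [linA_apply, linA_apply, linA_apply]
  refine Prod.ext ?_ rfl
  show (f.linear (g.linear v.1)) + v.2 • f (g 0) = f.linear (g.linear v.1 + v.2 • g 0) + v.2 • f 0
  rw [aff_eq f (g 0), map_add, map_smul, smul_add]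
  abel

/-- the representation on R^n x R -/
noncomputable def linH : ((Fin n → ℝ) ≃ᵃ[ℝ] (Fin n → ℝ)) →* (VV n →L[ℝ] VV n) where
  toFun := linA
  map_one' := linA_one
  map_mul' := linA_mul

end lin

theorem main_comm {M G : Type*} [TopologicalSpace M] [T2Space M] [ConnectedSpace M] [Group G] [MulAction G M]
    [ContinuousConstSMul G M] [ProperlyDiscontinuousSMul G M] (hfree : ∀ (g : G) (x : M), g • x = x → g = 1)
    (K : Set M) (hK : IsCompact K) (hcov : ∀ x : M, ∃ g : G, ∃ y ∈ K, x = g • y)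
    (d : ℕ) (dev : M → (Fin (d + 1) → ℝ)) (hdev : IsLocalHomeomorph dev)
    (h : G →* ((Fin (d + 1) → ℝ) ≃ᵃ[ℝ] (Fin (d + 1) → ℝ))) (heq : ∀ g x, dev (g • x) = h g (dev x))
    (hcomm : ∀ a b : G, h a * h b = h b * h a) (z : SC M (d + 1)) (hz : bd d z ∈ JJ (⊤ : Subgroup G) d)
    (ε : ℝ) (hε : 0 < ε) :
    ∃ (z' : SC M (d + 1)) (v : SC M (d + 2)), nrm z' < ε ∧ z' - z - bd (d + 1) v ∈ JJ (⊤ : Subgroup G) (d + 1) := by
  classical
  have hlc : LocallyCompactSpace M := locallyCompact_of_dev dev hdev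
  have hfg : Group.FG G := fg_of_cocompact K hK hcov
  -- the algebra generated by the holonomy
  let A : Subalgebra ℝ (VV (d + 1) →L[ℝ] VV (d + 1)) := Algebra.adjoin ℝ (Set.range (fun g => linH (h g)))
  have hAc : ∀ a b : A, a * b = b * a := by
    intro a b
    have := Algebra.isMulCommutative_adjoin ℝ (s := Set.range (fun g => linH (h g))) (by
      rintro _ ⟨g, rfl⟩ _ ⟨g', rfl⟩
      show linH (h g) * linH (h g') = linH (h g') * linH (h g)
      rw [← map_mul linH, hcomm, map_mul linH])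
    exact this.is_comm.comm a b
  let iA : NormedCommRing A := { (inferInstance : NormedRing A) with mul_comm := hAc }
  let iB : NormedAlgebra ℝ A := (inferInstance : NormedAlgebra ℝ A)
  have iF : FiniteDimensional ℝ A := inferInstance
  have iC : CompleteSpace A := FiniteDimensional.complete ℝ A
  have heps0 : ∀ a ∈ A, ∀ v : VV (d + 1), (a v).2 = (a (0, 1)).2 * v.2 := by
    intro a ha
    refine Algebra.adjoin_induction (p := fun a _ => ∀ v : VV (d + 1), (a v).2 = (a (0, 1)).2 * v.2) ?_ ?_ ?_ ?_ ha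
    · rintro _ ⟨g, rfl⟩ v
      show (linA (h g) v).2 = (linA (h g) (0, 1)).2 * v.2
      rw [linA_apply, linA_apply, one_mul]
    · intro r v
      rw [Algebra.algebraMap_eq_smul_one]
      show r • v.2 = (r • (1 : ℝ)) * v.2
      rw [smul_eq_mul, smul_eq_mul, mul_one]
    · intro x y _ _ hx hy v
      show (x v).2 + (y v).2 = ((x (0, 1)).2 + (y (0, 1)).2) * v.2
      rw [hx v, hy v]; ring
    · intro x y _ _ hx hy v
      show (x (y v)).2 = (x (y (0, 1))).2 * v.2
      rw [hx (y v), hy v, hx (y (0, 1))]; ring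
  let eps : A →ₐ[ℝ] ℝ := AlgHom.ofLinearMap
    ((LinearMap.snd ℝ (Fin (d + 1) → ℝ) ℝ).comp ((LinearMap.applyₗ' ℝ ((0, 1) : VV (d + 1))).comp
      ((ContinuousLinearMap.coeLM ℝ).comp A.val.toLinearMap))) rfl (by
      intro a b
      show ((a : VV (d + 1) →L[ℝ] VV (d + 1)) ((b : VV (d + 1) →L[ℝ] VV (d + 1)) (0, 1))).2 =
        ((a : VV (d + 1) →L[ℝ] VV (d + 1)) (0, 1)).2 * ((b : VV (d + 1) →L[ℝ] VV (d + 1)) (0, 1)).2
      rw [heps0 a.1 a.2])
  have heps1 : ∀ a : A, eps a = ((a : VV (d + 1) →L[ℝ] VV (d + 1)) (0, 1)).2 := fun _ => rfl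
  let gg : G →* A :=
    { toFun := fun g => ⟨linH (h g), Algebra.subset_adjoin ⟨g, rfl⟩⟩
      map_one' := Subtype.ext (by
        show linH (h 1) = 1
        rw [map_one, map_one])
      map_mul' := fun a b => Subtype.ext (by
        show linH (h (a * b)) = linH (h a) * linH (h b)
        rw [map_mul, map_mul]) }
  obtain ⟨S0, hS0, hS0g⟩ := exists_finite_of_char h hcomm
  have hinj : Function.Injective (fun a : A => (a : VV (d + 1) →L[ℝ] VV (d + 1))) := Subtype.val_injective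
  obtain ⟨ζ, χ, F, hχ, hF0, hF1, hFg, hFa⟩ := exists_period (n := d + 1) (M := M) (G := G) (A := A) A.val eps
    (fun a v => heps0 a.1 a.2 v) gg (fun g => by
      show (linA (h g) (0, 1)).2 = 1
      rw [linA_apply]) dev hdev (fun g p => h g p) heq (fun g p => by
      show linA (h g) (p, 1) = (h g p, 1)
      rw [linA_apply, one_smul, aff_eq (h g) p]) K hK hcov
    (no_fixed (Nat.succ_pos d) hfree K hK hcov dev hdev h heq)
    ((fun a : A => (a : VV (d + 1) →L[ℝ] VV (d + 1))) ⁻¹' (linH '' S0)) ((hS0.image _).preimage hinj.injOn)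
    (fun g hg => ⟨h g, hS0g g hg, rfl⟩)
  obtain ⟨χ', τ, c₀, hτ, hζ, hc⟩ := exists_char_norm χ ζ hχ
  obtain ⟨K', hK', hcov'⟩ := exists_compact_sub K hK hcov χ' τ ζ c₀ hτ hζ hc
  obtain ⟨ρ, hρ⟩ := exists_rho K hK hcov χ'
  have hχ' : χ' ζ ≠ 1 := by
    rw [hζ]
    intro h0
    have := congrArg Multiplicative.toAdd h0
    simp at this
    omega
  exact wang hfree χ' ζ hχ' F hF0 hF1 hFg τ hτ c₀ hζ hc hFa ρ hρ d
    (hV_of hfree d dev hdev _ K' hK' hcov') z hz ε hε

/-- closed affine manifolds with virtually abelian holonomy -/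
theorem main_virt {M G : Type*} [TopologicalSpace M] [T2Space M] [ConnectedSpace M] [Group G] [MulAction G M]
    [ContinuousConstSMul G M] [ProperlyDiscontinuousSMul G M] (hfree : ∀ (g : G) (x : M), g • x = x → g = 1)
    (K : Set M) (hK : IsCompact K) (hcov : ∀ x : M, ∃ g : G, ∃ y ∈ K, x = g • y)
    (d : ℕ) (dev : M → (Fin (d + 1) → ℝ)) (hdev : IsLocalHomeomorph dev)
    (h : G →* ((Fin (d + 1) → ℝ) ≃ᵃ[ℝ] (Fin (d + 1) → ℝ))) (heq : ∀ g x, dev (g • x) = h g (dev x))
    (H : Subgroup G) [H.FiniteIndex] (hcomm : ∀ a ∈ H, ∀ b ∈ H, h a * h b = h b * h a)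
    (z : SC (Quotient (MulAction.orbitRel G M)) (d + 1)) (hz : bd d z = 0) (ε : ℝ) (hε : 0 < ε) :
    ∃ (z' : SC (Quotient (MulAction.orbitRel G M)) (d + 1)) (v : SC (Quotient (MulAction.orbitRel G M)) (d + 2)),
      nrm z' < ε ∧ z' - z = bd (d + 1) v := by
  classical
  have hlc : LocallyCompactSpace M := locallyCompact_of_dev dev hdev
  have hcan : IsCancelSMul G M := by
    rw [isCancelSMul_iff_eq_one_of_smul_eq]
    exact hfree
  have hp0 := isQuotientCoveringMap_quotientMk_of_properlyDiscontinuousSMul (G := G) (E := M)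
  let p : C(M, Quotient (MulAction.orbitRel G M)) := ⟨Quotient.mk _, hp0.continuous⟩
  have hp : IsQuotientCoveringMap p G := hp0
  refine descend hp d ?_ z hz ε hε
  intro z hz ε hε
  refine transfer H d ?_ z hz ε hε
  have := properlyDisc_subgroup (M := M) H
  -- cocompactness of H
  obtain ⟨K', hK', hcov'⟩ : ∃ K' : Set M, IsCompact K' ∧ ∀ x : M, ∃ g : H, ∃ y ∈ K', x = g • y := by
    have : Finite (G ⧸ H) := inferInstance
    have := Fintype.ofFinite (G ⧸ H)
    refine ⟨⋃ q : G ⧸ H, (fun x => (q.out)⁻¹ • x) '' K, isCompact_iUnion (fun q => hK.image (continuous_const_smul _)), ?_⟩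
    intro x
    obtain ⟨g, y, hy, rfl⟩ := hcov x
    have h1 : ((QuotientGroup.mk (g⁻¹) : G ⧸ H).out)⁻¹ * g⁻¹ ∈ H := by
      rw [← QuotientGroup.eq]
      exact QuotientGroup.out_eq' _
    refine ⟨⟨_, H.inv_mem h1⟩, ((QuotientGroup.mk (g⁻¹) : G ⧸ H).out)⁻¹ • y, Set.mem_iUnion.2 ⟨_, y, hy, rfl⟩, ?_⟩
    show g • y = (((QuotientGroup.mk (g⁻¹) : G ⧸ H).out)⁻¹ * g⁻¹)⁻¹ • ((QuotientGroup.mk (g⁻¹) : G ⧸ H).out)⁻¹ • y
    rw [← mul_smul]
    congr 1
    group
  intro z hz ε hε
  exact main_comm (M := M) (G := H) (fun g x hgx => Subtype.ext (hfree g x hgx)) K' hK' hcov' d dev hdev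
    (h.comp H.subtype) (fun g x => heq g x) (fun a b => hcomm a a.2 b b.2) z hz ε hε

end SV
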