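import Mathlib

/-! SV4: lifting commuting flows through a developing map. -/

namespace SV

open Topology unitInterval

section flow

variable {M E G A : Type*} [TopologicalSpace M] [TopologicalSpace E]
    [NormedAddCommGroup A] [NormedSpace ℝ A]

/-- `Γ` lifts the orbit segment of `act` through `dev x`. -/
def FlowLift (dev : M → E) (act : A → E → E) (X : A) (x : M) (Γ : C(I, M)) : Prop :=
  Γ 0 = x ∧ ∀ s : I, dev (Γ s) = act ((s : ℝ) • X) (dev x)

theorem flow_unique [T2Space M] {dev : M → E} (hdev : IsLocalHomeomorph dev) {Γ Γ' : I → M}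
    (h1 : Continuous Γ) (h2 : Continuous Γ') (he : ∀ s, dev (Γ s) = dev (Γ' s))
    (h0 : Γ 0 = Γ' 0) (s : I) : Γ s = Γ' s :=
  congrFun ((T2Space.isSeparatedMap dev).eq_of_comp_eq hdev.isLocallyInjective h1 h2
    (funext he) 0 h0) s

theorem flow_local {dev : M → E} (hdev : IsLocalHomeomorph dev) {act : A → E → E}
    (hact : Continuous (fun z : A × E => act z.1 z.2)) (h0 : ∀ p, act 0 p = p) (y : M) :
    ∀ᶠ z : A × M in 𝓝 (0, y), ∃ Γ : C(I, M), FlowLift dev act z.1 z.2 Γ := by
  obtain ⟨e, hy, he⟩ := hdev y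
  have hdc : Continuous dev := hdev.continuous
  set F : A × M → E := fun z => act z.1 (dev z.2) with hF
  have hFc : Continuous F := hact.comp (continuous_fst.prodMk (hdc.comp continuous_snd))
  have hS : {z : A × M | F z ∈ e.target ∧ z.2 ∈ e.source} ∈ 𝓝 ((0 : A), y) := by
    apply IsOpen.mem_nhds
    · exact (e.open_target.preimage hFc).inter (e.open_source.preimage continuous_snd)
    · refine ⟨?_, hy⟩
      have h1 : F (0, y) = e y := by rw [hF]; simp only; rw [h0, he]
      rw [h1]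
      exact e.map_source hy
  rw [mem_nhds_prod_iff] at hS
  obtain ⟨B, hB, V, hV, hBV⟩ := hS
  obtain ⟨r, hr, hrB⟩ := Metric.mem_nhds_iff.1 hB
  have hmem : Metric.ball (0 : A) r ×ˢ V ∈ 𝓝 ((0 : A), y) :=
    prod_mem_nhds (Metric.ball_mem_nhds _ hr) hV
  filter_upwards [hmem] with z hz
  obtain ⟨hz1, hz2⟩ := hz
  have key : ∀ s : I, ((s : ℝ) • z.1, z.2) ∈ {z : A × M | F z ∈ e.target ∧ z.2 ∈ e.source} := by
    intro s
    apply hBV
    refine ⟨hrB ?_, hz2⟩
    rw [mem_ball_zero_iff] at hz1 ⊢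
    rw [norm_smul, Real.norm_of_nonneg s.2.1]
    have h1 : (s : ℝ) ≤ 1 := s.2.2
    have h2 := norm_nonneg z.1
    nlinarith [s.2.1]
  refine ⟨⟨fun s => e.symm (F ((s : ℝ) • z.1, z.2)), ?_⟩, ?_, ?_⟩
  · refine e.continuousOn_symm.comp_continuous ?_ fun s => (key s).1
    exact hFc.comp ((continuous_subtype_val.smul continuous_const).prodMk continuous_const)
  · simp only [ContinuousMap.coe_mk]
    have h1 : F (((0 : I) : ℝ) • z.1, z.2) = e z.2 := by
      rw [hF]; simp only [Set.Icc.coe_zero, zero_smul]; rw [h0, he]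
    rw [h1]
    exact e.left_inv (key 0).2
  · intro s
    simp only [ContinuousMap.coe_mk]
    have h1 := e.right_inv (key s).1
    rw [← he] at h1
    exact h1

omit [TopologicalSpace E] in
theorem flow_double {dev : M → E} {act : A → E → E}
    (hadd : ∀ X Y p, act (X + Y) p = act X (act Y p))
    {X : A} (hX : ∀ x, ∃ Γ : C(I, M), FlowLift dev act X x Γ) (x : M) :
    ∃ Γ : C(I, M), FlowLift dev act ((2 : ℝ) • X) x Γ := by
  obtain ⟨Γ₁, h1, h1'⟩ := hX x
  obtain ⟨Γ₂, h2, h2'⟩ := hX (Γ₁ 1)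
  set γ₁ : Path x (Γ₁ 1) := ⟨Γ₁, h1, rfl⟩ with hγ₁
  set γ₂ : Path (Γ₁ 1) (Γ₂ 1) := ⟨Γ₂, h2, rfl⟩ with hγ₂
  refine ⟨(γ₁.trans γ₂).toContinuousMap, ?_, ?_⟩
  · exact (γ₁.trans γ₂).source
  · intro s
    change dev ((γ₁.trans γ₂) s) = _
    rw [Path.trans_apply]
    split_ifs with h
    · change dev (Γ₁ _) = _
      rw [h1']
      congr 1
      simp only
      rw [smul_smul, mul_comm]
    · change dev (Γ₂ _) = _
      rw [h2', h1' 1, ← hadd]
      congr 1
      simp only [Set.Icc.coe_one]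
      rw [← add_smul, smul_smul]
      congr 1
      ring

theorem exists_flow {M E G A : Type*} [TopologicalSpace M] [T2Space M] [TopologicalSpace E]
    [Group G] [MulAction G M] [ContinuousConstSMul G M] [NormedAddCommGroup A] [NormedSpace ℝ A]
    (dev : M → E) (hdev : IsLocalHomeomorph dev) (hol : G → E → E) (hhol : ∀ g x, dev (g • x) = hol g (dev x))
    (K : Set M) (hK : IsCompact K) (hcov : ∀ x : M, ∃ g : G, ∃ y ∈ K, x = g • y)
    (act : A → E → E) (hact : Continuous (fun z : A × E => act z.1 z.2)) (h0 : ∀ p, act 0 p = p)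
    (hadd : ∀ X Y p, act (X + Y) p = act X (act Y p)) (hcomm : ∀ g X p, hol g (act X p) = act X (hol g p)) :
    ∃ Φ : A → M → M, Continuous (fun z : A × M => Φ z.1 z.2) ∧ (∀ x, Φ 0 x = x) ∧
      (∀ X Y x, Φ (X + Y) x = Φ X (Φ Y x)) ∧ (∀ X x, dev (Φ X x) = act X (dev x)) ∧
      (∀ (g : G) X x, Φ X (g • x) = g • Φ X x) := by
  have hdc : Continuous dev := hdev.continuous
  -- translates of lifts
  have htr : ∀ (g : G) (X : A) (x : M) (Γ : C(I, M)), FlowLift dev act X x Γ →
      ∃ Γ' : C(I, M), FlowLift dev act X (g • x) Γ' ∧ ∀ s, Γ' s = g • Γ s := by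
    intro g X x Γ hΓ
    refine ⟨⟨fun s => g • Γ s, (continuous_const_smul g).comp Γ.continuous⟩, ⟨?_, ?_⟩,
      fun s => rfl⟩
    · change g • Γ 0 = g • x
      rw [hΓ.1]
    · intro s
      change dev (g • Γ s) = _
      rw [hhol, hΓ.2 s, hcomm, ← hhol]
  -- small vectors are good
  have hsmall : ∀ᶠ X : A in 𝓝 0, ∀ y ∈ K, ∃ Γ : C(I, M), FlowLift dev act X y Γ :=
    hK.eventually_forall_of_forall_eventually fun y _ => flow_local hdev hact h0 y
  obtain ⟨r, hr, hrX⟩ := Metric.eventually_nhds_iff.1 hsmall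
  have hgood0 : ∀ X : A, ‖X‖ < r → ∀ x, ∃ Γ : C(I, M), FlowLift dev act X x Γ := by
    intro X hX x
    obtain ⟨g, y, hy, rfl⟩ := hcov x
    obtain ⟨Γ, hΓ⟩ := hrX (by rwa [dist_zero_right]) y hy
    obtain ⟨Γ', hΓ', -⟩ := htr g X y Γ hΓ
    exact ⟨Γ', hΓ'⟩
  have hgoodn : ∀ n : ℕ, ∀ X : A, ‖X‖ < 2 ^ n * r → ∀ x, ∃ Γ : C(I, M), FlowLift dev act X x Γ := by
    intro n
    induction n with
    | zero => intro X hX; exact hgood0 X (by simpa using hX)
    | succ n ih =>
      intro X hX x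
      have h1 : ‖(2⁻¹ : ℝ) • X‖ < 2 ^ n * r := by
        rw [norm_smul, Real.norm_of_nonneg (by norm_num)]
        rw [pow_succ] at hX
        linarith
      have h2 := flow_double hadd (ih _ h1) x
      rwa [smul_smul, mul_inv_cancel₀ (by norm_num), one_smul] at h2
  have hgood : ∀ X : A, ∀ x, ∃ Γ : C(I, M), FlowLift dev act X x Γ := by
    intro X x
    obtain ⟨n, hn⟩ := pow_unbounded_of_one_lt (‖X‖ / r) (by norm_num : (1:ℝ) < 2)
    exact hgoodn n X (by rwa [div_lt_iff₀ hr] at hn) x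
  choose Γ hΓ using hgood
  -- joint continuity
  set g : I × (A × M) → M := fun z => Γ z.2.1 z.2.2 z.1 with hg
  have hgc : Continuous g := by
    refine hdev.continuous_lift (T2Space.isSeparatedMap dev)
      (⟨fun z : I × (A × M) => act ((z.1 : ℝ) • z.2.1) (dev z.2.2), ?_⟩ : C(I × (A × M), E))
      ?_ ?_ ?_
    · exact hact.comp (((continuous_subtype_val.comp continuous_fst).smul
        (continuous_fst.comp continuous_snd)).prodMk (hdc.comp (continuous_snd.comp continuous_snd)))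
    · funext z
      exact (hΓ z.2.1 z.2.2).2 z.1
    · have h1 : (fun a : A × M => g (0, a)) = fun a => a.2 := by
        funext a
        exact (hΓ a.1 a.2).1
      rw [h1]
      exact continuous_snd
    · intro a
      exact (Γ a.1 a.2).continuous
  have hg0 : ∀ X x, g (0, (X, x)) = x := fun X x => (hΓ X x).1
  have hgd : ∀ s X x, dev (g (s, (X, x))) = act ((s : ℝ) • X) (dev x) := fun s X x =>
    (hΓ X x).2 s
  have hgs : ∀ X x, Continuous fun s : I => g (s, (X, x)) := fun X x => (Γ X x).continuous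
  refine ⟨fun X x => g (1, (X, x)), ?_, ?_, ?_, ?_, ?_⟩
  · exact hgc.comp (continuous_const.prodMk continuous_id)
  · intro x
    have := flow_unique hdev (hgs 0 x) (continuous_const (y := x)) (fun s => by
      rw [hgd, smul_zero, h0]) (hg0 0 x) 1
    exact this
  · intro X Y x
    have hc : Continuous fun s : I => g (s, (X, g (s, (Y, x)))) :=
      hgc.comp (continuous_id.prodMk (continuous_const.prodMk (hgs Y x)))
    have h1 := flow_unique hdev (hgs (X + Y) x) hc (fun s => by
      rw [hgd, hgd, hgd, ← hadd, smul_add]) (by rw [hg0, hg0, hg0]) 1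
    exact h1
  · intro X x
    change dev (g (1, (X, x))) = _
    rw [hgd]
    simp
  · intro h X x
    have hc : Continuous fun s : I => h • g (s, (X, x)) := (continuous_const_smul h).comp (hgs X x)
    exact flow_unique hdev (hgs X (h • x)) hc (fun s => by
      rw [hgd, hhol, hhol, hgd, hcomm]) (by rw [hg0, hg0]) 1

end flow

end SV
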