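import Mathlib

/-! Logarithms in commutative Banach algebras. -/

namespace SV

open Set MeasureTheory intervalIntegral

section log

variable {A : Type*} [NormedCommRing A] [NormedAlgebra ℝ A] [CompleteSpace A]

theorem log_exp_add (x y : A) : NormedSpace.exp (x + y) = NormedSpace.exp x * NormedSpace.exp y := by
  letI : NormedAlgebra ℚ A := NormedAlgebra.restrictScalars ℚ ℝ A
  exact NormedSpace.exp_add_of_commute (Commute.all x y)

theorem log_exp_mul_neg (x : A) : NormedSpace.exp x * NormedSpace.exp (-x) = 1 := by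
  rw [← log_exp_add, add_neg_cancel, NormedSpace.exp_zero]

theorem log_aux (g : A) (hg : ∀ t ∈ Set.Icc (0 : ℝ) 1, IsUnit (1 + t • (g - 1))) :
    ∃ q : A, NormedSpace.exp ((g - 1) * q) = g ∧
      ∀ C : ℝ, (∀ t ∈ Set.Icc (0 : ℝ) 1, ‖Ring.inverse (1 + t • (g - 1))‖ ≤ C) → ‖q‖ ≤ C := by
  set f : ℝ → A := fun t => Ring.inverse (1 + t • (g - 1)) with hf
  have hfc : ContinuousOn f (Icc 0 1) := by
    intro t ht
    apply ContinuousAt.continuousWithinAt
    have h1 : ContinuousAt (fun t : ℝ => 1 + t • (g - 1)) t := by fun_prop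
    obtain ⟨u, hu⟩ := hg t ht
    have h2 : ContinuousAt Ring.inverse (1 + t • (g - 1)) := by
      rw [← hu]
      exact NormedRing.inverse_continuousAt u
    exact ContinuousAt.comp (f := fun t : ℝ => 1 + t • (g - 1)) h2 h1
  set F : ℝ → A := fun t => f (projIcc 0 1 zero_le_one t) with hF
  have hFc : Continuous F := by
    have h1 : Continuous (Icc (0 : ℝ) 1 |>.restrict f) := continuousOn_iff_continuous_restrict.1 hfc
    exact h1.comp continuous_projIcc
  have hFf : ∀ t ∈ Icc (0 : ℝ) 1, F t = f t := by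
    intro t ht
    simp only [hF]
    rw [projIcc_of_mem zero_le_one ht]
  set Q : ℝ → A := fun t => ∫ x in (0 : ℝ)..t, F x with hQ
  have hQd : ∀ t, HasDerivAt Q (F t) t := fun t => hFc.integral_hasStrictDerivAt 0 t |>.hasDerivAt
  set H : ℝ → A := fun t => NormedSpace.exp (-((g - 1) * Q t)) * (1 + t • (g - 1)) with hH
  have hHd : ∀ t ∈ Icc (0 : ℝ) 1, HasDerivAt H 0 t := by
    intro t ht
    have e1 : HasDerivAt (fun t => -((g - 1) * Q t)) (-((g - 1) * F t)) t :=
      ((hQd t).const_mul (g - 1)).neg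
    have e2 : HasFDerivAt (NormedSpace.exp : A → A)
        (NormedSpace.exp (-((g - 1) * Q t)) • (1 : A →L[ℝ] A)) (-((g - 1) * Q t)) :=
      hasFDerivAt_exp
    have e3 := e2.comp_hasDerivAt t e1
    have e4 : HasDerivAt (fun t : ℝ => 1 + t • (g - 1)) (g - 1) t := by
      have := ((hasDerivAt_id t).smul_const (g - 1)).const_add (1 : A)
      simpa using this
    have e5 := e3.mul e4
    have hu := hg t ht
    have hinv : F t * (1 + t • (g - 1)) = 1 := by
      rw [hFf t ht]
      exact Ring.inverse_mul_cancel _ hu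
    refine (e5.congr_deriv ?_)
    simp only [ContinuousLinearMap.smul_apply, ContinuousLinearMap.one_apply, smul_eq_mul,
      Function.comp_apply]
    calc NormedSpace.exp (-((g - 1) * Q t)) * -((g - 1) * F t) * (1 + t • (g - 1)) +
        NormedSpace.exp (-((g - 1) * Q t)) * (g - 1)
        = NormedSpace.exp (-((g - 1) * Q t)) * (g - 1) * (1 - F t * (1 + t • (g - 1))) := by ring
      _ = 0 := by rw [hinv]; ring
  have hconst : H 1 = H 0 := by
    have h1 : ContinuousOn H (Icc 0 1) := fun t ht => (hHd t ht).continuousAt.continuousWithinAt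
    have h2 : ∀ x ∈ Ico (0 : ℝ) 1, HasDerivWithinAt H 0 (Ici x) x := fun x hx =>
      (hHd x ⟨hx.1, hx.2.le⟩).hasDerivWithinAt
    exact constant_of_has_deriv_right_zero h1 h2 1 ⟨zero_le_one, le_refl 1⟩
  have hH0 : H 0 = 1 := by
    simp [hH, hQ]
  have hH1 : H 1 = NormedSpace.exp (-((g - 1) * Q 1)) * g := by
    simp [hH]
  refine ⟨Q 1, ?_, ?_⟩
  · have h3 : NormedSpace.exp (-((g - 1) * Q 1)) * g = 1 := by rw [← hH1, hconst, hH0]
    calc NormedSpace.exp ((g - 1) * Q 1)
        = NormedSpace.exp ((g - 1) * Q 1) * (NormedSpace.exp (-((g - 1) * Q 1)) * g) := by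
          rw [h3, mul_one]
      _ = g := by rw [← mul_assoc, log_exp_mul_neg, one_mul]
  · intro C hC
    have : ‖∫ x in (0 : ℝ)..1, F x‖ ≤ C * |1 - 0| := by
      apply intervalIntegral.norm_integral_le_of_norm_le_const
      intro x hx
      rw [uIoc_of_le zero_le_one] at hx
      have hx' : x ∈ Icc (0 : ℝ) 1 := ⟨hx.1.le, hx.2⟩
      rw [hFf x hx']
      exact hC x hx'
    simpa [hQ] using this

theorem exists_log (g : A) (hg : ∀ t ∈ Set.Icc (0 : ℝ) 1, IsUnit (1 + t • (g - 1))) :
    ∃ q : A, NormedSpace.exp ((g - 1) * q) = g := by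
  obtain ⟨q, hq, _⟩ := log_aux g hg
  exact ⟨q, hq⟩

/-- small logarithms -/
theorem exists_log_small (ε : ℝ) (hε : 0 < ε) : ∃ δ > 0, ∀ g : A, ‖g - 1‖ < δ →
    ∃ q : A, NormedSpace.exp ((g - 1) * q) = g ∧ ‖(g - 1) * q‖ < ε := by
  have hC : (0 : ℝ) < ‖(1 : A)‖ + 1 := by positivity
  refine ⟨min (1 / 2) (ε / (‖(1 : A)‖ + 1)), by positivity, fun g hg => ?_⟩
  have hg1 : ‖g - 1‖ < 1 / 2 := lt_of_lt_of_le hg (min_le_left _ _)
  have hg2 : ‖g - 1‖ < ε / (‖(1 : A)‖ + 1) := lt_of_lt_of_le hg (min_le_right _ _)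
  have hsmall : ∀ t ∈ Icc (0 : ℝ) 1, ‖-(t • (g - 1))‖ < 1 / 2 := by
    intro t ht
    rw [norm_neg, norm_smul, Real.norm_eq_abs, abs_of_nonneg ht.1]
    calc t * ‖g - 1‖ ≤ 1 * ‖g - 1‖ := by
          apply mul_le_mul_of_nonneg_right ht.2 (norm_nonneg _)
      _ < 1 / 2 := by linarith
  have hrew : ∀ t : ℝ, 1 + t • (g - 1) = 1 - (-(t • (g - 1))) := by intro t; abel
  have hunit : ∀ t ∈ Icc (0 : ℝ) 1, IsUnit (1 + t • (g - 1)) := by
    intro t ht
    rw [hrew]
    exact (Units.oneSub _ (lt_trans (hsmall t ht) (by norm_num))).isUnit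
  obtain ⟨q, hq, hqC⟩ := log_aux g hunit
  have hb : ‖q‖ ≤ ‖(1 : A)‖ + 1 := by
    apply hqC
    intro t ht
    have h1 : ‖-(t • (g - 1))‖ < 1 := lt_trans (hsmall t ht) (by norm_num)
    rw [hrew, NormedRing.inverse_one_sub _ h1]
    have h2 : ((Units.oneSub _ h1)⁻¹ : Aˣ).val = ∑' n : ℕ, (-(t • (g - 1))) ^ n := rfl
    rw [h2]
    refine (tsum_geometric_le_of_norm_lt_one _ h1).trans ?_
    have h3 : (1 - ‖-(t • (g - 1))‖)⁻¹ ≤ 2 := by
      rw [inv_le_comm₀ (by linarith) (by norm_num)]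
      have := hsmall t ht
      linarith
    linarith
  refine ⟨q, hq, ?_⟩
  calc ‖(g - 1) * q‖ ≤ ‖g - 1‖ * ‖q‖ := norm_mul_le _ _
    _ ≤ ‖g - 1‖ * (‖(1 : A)‖ + 1) := by
        apply mul_le_mul_of_nonneg_left hb (norm_nonneg _)
    _ < ε / (‖(1 : A)‖ + 1) * (‖(1 : A)‖ + 1) := by
        apply mul_lt_mul_of_pos_right hg2 hC
    _ = ε := by field_simp

/-- a power of `z` with positive exponent divisible by `N` is never a negative real -/
def LogGood (N : ℕ) (z : ℂ) : Prop := ∀ k : ℕ, 0 < k → ¬ ((z ^ (N * k)).im = 0 ∧ (z ^ (N * k)).re < 0)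

theorem logGood_exists (z : ℂ) : ∃ N : ℕ, 0 < N ∧ LogGood N z := by
  by_cases h : ∃ M : ℕ, 0 < M ∧ (z ^ M).im = 0 ∧ (z ^ M).re < 0
  · obtain ⟨M, hM, h1, h2⟩ := h
    refine ⟨2 * M, by omega, fun k _ hk => ?_⟩
    have hz : z ^ M = (((z ^ M).re : ℝ) : ℂ) := by
      apply Complex.ext
      · simp
      · simpa using h1
    have h3 : z ^ (2 * M * k) = ((((z ^ M).re ^ 2) ^ k : ℝ) : ℂ) := by
      rw [mul_comm 2 M, pow_mul, pow_mul]
      conv_lhs => rw [hz]
      push_cast
      rfl
    rw [h3] at hk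
    have h4 : (0 : ℝ) ≤ ((z ^ M).re ^ 2) ^ k := by positivity
    have h5 := hk.2
    rw [Complex.ofReal_re] at h5
    linarith
  · push Not at h
    refine ⟨1, one_pos, fun k hk hh => ?_⟩
    rw [one_mul] at hh
    have := h k hk hh.1
    linarith [hh.2]

theorem logGood_mul {N M : ℕ} (hM : 0 < M) {z : ℂ} (h : LogGood N z) : LogGood (N * M) z := by
  intro k hk
  rw [mul_assoc]
  exact h (M * k) (Nat.mul_pos hM hk)

theorem logGood_finset (S : Finset ℂ) : ∃ N : ℕ, 0 < N ∧ ∀ z ∈ S, LogGood N z := by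
  classical
  induction S using Finset.induction_on with
  | empty => exact ⟨1, one_pos, by simp⟩
  | insert a S _ ih =>
    obtain ⟨N, hN, h⟩ := ih
    obtain ⟨M, hM, hm⟩ := logGood_exists a
    refine ⟨N * M, Nat.mul_pos hN hM, fun z hz => ?_⟩
    rcases Finset.mem_insert.1 hz with rfl | hz
    · rw [mul_comm]
      exact logGood_mul hN hm
    · exact logGood_mul hM (h z hz)

/-- some power of a unit of a finite-dimensional algebra is an exponential -/
theorem exists_pow_log [FiniteDimensional ℝ A] (g : A) (hg : IsUnit g) :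
    ∃ N : ℕ, 0 < N ∧ ∃ q : A, NormedSpace.exp ((g ^ N - 1) * q) = g ^ N := by
  classical
  have hint : IsIntegral ℝ g := IsIntegral.of_finite ℝ g
  set m := minpoly ℝ g with hm
  have hm0 : m ≠ 0 := minpoly.ne_zero hint
  obtain ⟨N, hN, hgood⟩ := logGood_finset ((m.map (algebraMap ℝ ℂ)).roots.toFinset)
  refine ⟨N, hN, exists_log (g ^ N) ?_⟩
  intro t ht
  set P : Polynomial ℝ := Polynomial.C (1 - t) + Polynomial.C t * Polynomial.X ^ N with hP
  have hPg : Polynomial.aeval g P = 1 + t • (g ^ N - 1) := by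
    simp only [hP, map_add, map_mul, Polynomial.aeval_C, map_pow, Polynomial.aeval_X]
    rw [Algebra.algebraMap_eq_smul_one, Algebra.algebraMap_eq_smul_one, sub_smul, one_smul,
      smul_one_mul, smul_sub]
    abel
  have hcop : IsCoprime P m := by
    rw [Polynomial.isCoprime_iff_aeval_ne_zero_of_isAlgClosed ℝ ℂ]
    intro z
    by_contra hcon
    push Not at hcon
    obtain ⟨h1, h2⟩ := hcon
    -- z is not zero
    have hz0 : z ≠ 0 := by
      rintro rfl
      have h3 : m.coeff 0 = 0 := by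
        have : Polynomial.aeval (0 : ℂ) m = algebraMap ℝ ℂ (m.coeff 0) := by
          rw [Polynomial.aeval_def, Polynomial.eval₂_at_zero]
        rw [this] at h2
        exact (map_eq_zero (algebraMap ℝ ℂ)).1 h2
      have h4 : Polynomial.X ∣ m := Polynomial.X_dvd_iff.2 h3
      obtain ⟨m', hm'⟩ := h4
      have h5 : g * Polynomial.aeval g m' = 0 := by
        have := minpoly.aeval ℝ g
        rw [← hm, hm', map_mul, Polynomial.aeval_X] at this
        exact this
      have h6 : Polynomial.aeval g m' = 0 := hg.mul_right_eq_zero.1 h5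
      have hm'0 : m' ≠ 0 := by
        rintro rfl
        rw [mul_zero] at hm'
        exact hm0 hm'
      have h7 := minpoly.dvd ℝ g h6
      have h8 := Polynomial.natDegree_le_of_dvd h7 hm'0
      have h9 : m.natDegree = m'.natDegree + 1 := by
        rw [hm', mul_comm, Polynomial.natDegree_mul_X hm'0]
      rw [← hm] at h8
      omega
    have hroot : z ∈ (m.map (algebraMap ℝ ℂ)).roots.toFinset := by
      rw [Multiset.mem_toFinset, Polynomial.mem_roots (Polynomial.map_ne_zero hm0)]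
      rw [Polynomial.IsRoot.def, Polynomial.eval_map_algebraMap]
      exact h2
    have hgz := hgood z hroot 1 one_pos
    rw [mul_one] at hgz
    have h3 : (1 - (t : ℂ)) + (t : ℂ) * z ^ N = 0 := by
      have : Polynomial.aeval z P = (1 - (t : ℂ)) + (t : ℂ) * z ^ N := by
        simp [hP]
      rw [← this]
      exact h1
    have ht0 : t ≠ 0 := by
      rintro rfl
      simp at h3
    have htpos : 0 < t := lt_of_le_of_ne ht.1 (Ne.symm ht0)
    have h4 : z ^ N = (((-(1 - t) / t : ℝ)) : ℂ) := by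
      have htc : (t : ℂ) ≠ 0 := by exact_mod_cast ht0
      push_cast
      rw [eq_div_iff htc]
      linear_combination h3
    by_cases h1t : t = 1
    · rw [h1t] at h4
      simp at h4
      exact hz0 h4.1
    · apply hgz
      rw [h4]
      refine ⟨Complex.ofReal_im _, ?_⟩
      rw [Complex.ofReal_re]
      apply div_neg_of_neg_of_pos _ htpos
      have := ht.2
      have : t < 1 := lt_of_le_of_ne this h1t
      linarith
  obtain ⟨a, b, hab⟩ := hcop
  have h1 : Polynomial.aeval g a * Polynomial.aeval g P = 1 := by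
    have := congrArg (Polynomial.aeval g) hab
    rw [map_add, map_mul, map_mul, map_one] at this
    have h2 : Polynomial.aeval g m = 0 := minpoly.aeval ℝ g
    rw [h2, mul_zero, add_zero] at this
    exact this
  rw [← hPg]
  exact IsUnit.of_mul_eq_one_right _ h1

end log

end SV
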