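import Pool.Agent.Helper43.SV.Sd

/-! Mayer-Vietoris for the vanishing of homology, embeddings. -/

namespace SV

open Finset Topology

variable {X Y : Type*} [TopologicalSpace X] [TopologicalSpace Y]

/-- cycles of degree k+1 with support in S are boundaries of chains with support in S -/
def Ex (X : Type*) [TopologicalSpace X] (k : ℕ) (S : Set X) : Prop :=
  ∀ z : SC X (k + 1), SIn S z → bd k z = 0 → ∃ c : SC X (k + 2), SIn S c ∧ bd (k + 1) c = z

theorem SIn.inter {k : ℕ} {A B : Set X} {c : SC X k} (h1 : SIn A c) (h2 : SIn B c) : SIn (A ∩ B) c :=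
  fun σ hσ t => ⟨h1 σ hσ t, h2 σ hσ t⟩

theorem Ex_union {A B : Set X} (hA : IsOpen A) (hB : IsOpen B) (k : ℕ) (h1 : Ex X (k + 1) A) (h2 : Ex X (k + 1) B)
    (h3 : Ex X k (A ∩ B)) : Ex X (k + 1) (A ∪ B) := by
  classical
  intro z hz hz0
  obtain ⟨N, hN⟩ := exists_small (fun b : Bool => if b then A else B) (by intro b; cases b <;> simp [hA, hB]) (k + 2) z
    (fun σ hσ t => by
      rcases hz σ hσ t with h | h
      · exact ⟨true, by simpa using h⟩
      · exact ⟨false, by simpa using h⟩)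
  obtain ⟨c0, hc0, hc0'⟩ := exists_Sd_pow (k + 1) N (A ∪ B) z hz0 hz
  have hN' := hN N le_rfl
  set z' := ((Sd X (k + 2)) ^ N) z with hz'
  have hz'0 : bd (k + 1) z' = 0 := by
    rw [hz', bd_Sd_pow, hz0, map_zero]
  set a := z'.filter (fun σ => ∀ t, σ t ∈ A) with ha
  set b := z'.filter (fun σ => ¬ ∀ t, σ t ∈ A) with hb
  have hab : a + b = z' := Finsupp.filter_add_filter_not _ _
  have haA : SIn A a := by
    intro σ hσ t
    rw [ha, Finsupp.support_filter, Finset.mem_filter] at hσ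
    exact hσ.2 t
  have hbB : SIn B b := by
    intro σ hσ t
    rw [hb, Finsupp.support_filter, Finset.mem_filter] at hσ
    obtain ⟨i, hi⟩ := hN' σ hσ.1
    cases i with
    | true => exact absurd (fun t => by simpa using hi t) hσ.2
    | false => simpa using hi t
  have h4 : bd (k + 1) a = - bd (k + 1) b := by
    have : bd (k + 1) a + bd (k + 1) b = 0 := by rw [← map_add, hab, hz'0]
    exact eq_neg_of_add_eq_zero_left this
  have h5 : SIn (A ∩ B) (bd (k + 1) a) := by
    refine SIn.inter haA.bd ?_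
    rw [h4]; exact hbB.bd.neg
  obtain ⟨c, hc, hc'⟩ := h3 (bd (k + 1) a) h5 (bd_bd k a)
  obtain ⟨u, hu, hu'⟩ := h1 (a - c) (haA.sub (hc.mono Set.inter_subset_left)) (by rw [map_sub, hc', sub_self])
  obtain ⟨v, hv, hv'⟩ := h2 (b + c) (hbB.add (hc.mono Set.inter_subset_right)) (by rw [map_add, hc', h4]; simp)
  refine ⟨c0 + u + v, (hc0.add (hu.mono Set.subset_union_left)).add (hv.mono Set.subset_union_right), ?_⟩
  rw [map_add, map_add, hc0', hu', hv', ← hab]
  abel

theorem smap_injective {j : C(X, Y)} (hj : Function.Injective j) (k : ℕ) : Function.Injective (smap j k) := by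
  refine Finsupp.mapDomain_injective ?_
  intro σ τ h
  ext t
  exact hj (DFunLike.congr_fun h t)

theorem exists_lift_emb {j : C(Y, X)} (hj : IsEmbedding j) (k : ℕ) (T : Set Y) (z : SC X k) (hz : SIn (j '' T) z) :
    ∃ z' : SC Y k, SIn T z' ∧ smap j k z' = z := by
  classical
  have h1 : ∀ σ ∈ z.support, ∃ τ : Sx Y k, (∀ t, τ t ∈ T) ∧ j.comp τ = σ := by
    intro σ hσ
    choose f hf using hz σ hσ
    refine ⟨⟨f, ?_⟩, fun t => (hf t).1, ?_⟩
    · rw [hj.continuous_iff]
      have : (j ∘ f) = σ := funext (fun t => (hf t).2)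
      rw [this]
      exact σ.continuous
    · ext t
      exact (hf t).2
  choose l hl1 hl2 using h1
  refine ⟨∑ σ ∈ z.support.attach, z σ.1 • Finsupp.single (l σ.1 σ.2) (1 : ℝ), ?_, ?_⟩
  · exact SIn.sum _ _ (fun σ _ => (SIn.single _ (hl1 σ.1 σ.2)).smul _)
  · rw [map_sum]
    conv_rhs => rw [fsum z, ← Finset.sum_attach]
    refine Finset.sum_congr rfl (fun σ _ => ?_)
    rw [map_smul, smap_single, hl2 σ.1 σ.2]

theorem Ex_emb {j : C(Y, X)} (hj : IsEmbedding j) (k : ℕ) (T : Set Y) (h : Ex Y k T) : Ex X k (j '' T) := by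
  intro z hz hz0
  obtain ⟨z', hz', hz''⟩ := exists_lift_emb hj (k + 1) T z hz
  have h0 : bd k z' = 0 := by
    apply smap_injective hj.injective k
    rw [← bd_smap, hz'', hz0, map_zero]
  obtain ⟨c, hc, hc'⟩ := h z' hz' h0
  refine ⟨smap j (k + 2) c, SIn.smap (S := T) (fun x hx => Set.mem_image_of_mem j hx) hc, ?_⟩
  rw [bd_smap, hc', hz'']

/-- the converse for subsets of the image -/
theorem Ex_emb' {j : C(Y, X)} (hj : IsEmbedding j) (k : ℕ) (T : Set Y) (h : Ex X k (j '' T)) : Ex Y k T := by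
  intro z hz hz0
  obtain ⟨c, hc, hc'⟩ := h (smap j (k + 1) z) (SIn.smap (S := T) (fun x hx => Set.mem_image_of_mem j hx) hz) (by rw [bd_smap, hz0, map_zero])
  obtain ⟨c', hc1, hc2⟩ := exists_lift_emb hj (k + 2) T c hc
  refine ⟨c', hc1, ?_⟩
  apply smap_injective hj.injective (k + 1)
  rw [← bd_smap, hc2, hc']

theorem Ex_empty (k : ℕ) : Ex X k (∅ : Set X) := by
  intro z hz _
  refine ⟨0, SIn.zero, ?_⟩
  have : z = 0 := by
    rw [← Finsupp.support_eq_empty, Finset.eq_empty_iff_forall_notMem]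
    intro σ hσ
    exact hz σ hσ (vtx 0)
  rw [this, map_zero]

end SV
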