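import Pool.Agent.Helper43.SV.ExpV
import Pool.Agent.Helper43.SV.Flow
import Pool.Agent.Helper43.SV.Log

/-! A periodic affine flow on a closed affine manifold with abelian holonomy. -/

namespace SV

open Filter Topology

/-- the linear space of pairs (point, number) -/
abbrev VV (n : ℕ) := (Fin n → ℝ) × ℝ

section

variable {A : Type*} [NormedCommRing A] [NormedAlgebra ℝ A] [CompleteSpace A] [FiniteDimensional ℝ A]

theorem eps_exp (eps : A →ₐ[ℝ] ℝ) (a : A) (h : eps a = 0) : eps (NormedSpace.exp a) = 1 := by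
  let T' : A →ₐ[ℝ] (ℝ →L[ℝ] ℝ) := (Algebra.ofId ℝ (ℝ →L[ℝ] ℝ)).comp eps
  have hT' : ∀ a r, T' a r = eps a * r := by
    intro a r
    show (Algebra.ofId ℝ (ℝ →L[ℝ] ℝ) (eps a)) r = _
    rw [Algebra.ofId_apply, Algebra.algebraMap_eq_smul_one]
    rfl
  have h1 := expv_zero T' a 1 (by rw [hT', h, zero_mul])
  rw [hT', mul_one] at h1
  exact h1

end

theorem lift_uniq {M E : Type*} [TopologicalSpace M] [T2Space M] [TopologicalSpace E] {dev : M → E}
    (hdev : IsLocalHomeomorph dev) {B : Type*} [TopologicalSpace B] [PreconnectedSpace B] (g₁ g₂ : B → M)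
    (h1 : Continuous g₁) (h2 : Continuous g₂) (h3 : ∀ z, dev (g₁ z) = dev (g₂ z)) (z₀ : B) (h4 : g₁ z₀ = g₂ z₀) : g₁ = g₂ :=
  (T2Space.isSeparatedMap dev).eq_of_comp_eq hdev.isLocallyInjective h1 h2 (funext h3) z₀ h4

theorem exists_period {n : ℕ} {M G A : Type*} [TopologicalSpace M] [T2Space M] [ConnectedSpace M] [Group G]
    [MulAction G M] [ContinuousConstSMul G M]
    [NormedCommRing A] [NormedAlgebra ℝ A] [CompleteSpace A] [FiniteDimensional ℝ A]
    (T : A →ₐ[ℝ] (VV n →L[ℝ] VV n)) (eps : A →ₐ[ℝ] ℝ) (heps : ∀ a v, (T a v).2 = eps a * v.2)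
    (gg : G →* A) (hgg : ∀ g, eps (gg g) = 1)
    (dev : M → (Fin n → ℝ)) (hdev : IsLocalHomeomorph dev)
    (hol : G → (Fin n → ℝ) → (Fin n → ℝ)) (hhol : ∀ g x, dev (g • x) = hol g (dev x))
    (hT : ∀ g p, T (gg g) (p, 1) = (hol g p, 1))
    (K : Set M) (hK : IsCompact K) (hcov : ∀ x : M, ∃ g : G, ∃ y ∈ K, x = g • y)
    (hfix : ∀ x : M, ∃ g, hol g (dev x) ≠ dev x)
    (S : Set A) (hS : S.Finite) (hSg : ∀ g, (∀ χ : G →* Multiplicative ℤ, χ g = 1) → gg g ∈ S) :
    ∃ (ζ : G) (χ : G →* Multiplicative ℤ) (F : C(ℝ × M, M)), χ ζ ≠ 1 ∧ (∀ x, F (0, x) = x) ∧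
      (∀ x, F (1, x) = ζ • x) ∧ (∀ (g : G) u x, F (u, g • x) = g • F (u, x)) ∧
      ∀ u v x, F (u + v, x) = F (u, F (v, x)) := by
  classical
  have hTc : Continuous T := expv_cont T
  have hexpc : Continuous (NormedSpace.exp : A → A) := by
    let : NormedAlgebra ℚ A := NormedAlgebra.restrictScalars ℚ ℝ A
    exact NormedSpace.exp_continuous
  let aa : Submodule ℝ A := LinearMap.ker eps.toLinearMap
  have haa : ∀ X : aa, eps (X : A) = 0 := fun X => X.2
  have hTexp : ∀ (X : aa) (v : VV n), v.2 = 1 → T (NormedSpace.exp (X : A)) v = ((T (NormedSpace.exp (X : A)) v).1, 1) := by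
    intro X v hv
    refine Prod.ext rfl ?_
    rw [heps, eps_exp eps _ (haa X), hv, mul_one]
  let act : aa → (Fin n → ℝ) → (Fin n → ℝ) := fun X p => (T (NormedSpace.exp (X : A)) (p, 1)).1
  have hact1 : ∀ (X : aa) p, T (NormedSpace.exp (X : A)) (p, 1) = (act X p, 1) := fun X p => hTexp X (p, 1) rfl
  have hact : Continuous (fun z : aa × (Fin n → ℝ) => act z.1 z.2) := by
    refine continuous_fst.comp (Continuous.clm_apply ?_ ?_)
    · exact hTc.comp (hexpc.comp (continuous_subtype_val.comp continuous_fst))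
    · exact continuous_snd.prodMk continuous_const
  have h0 : ∀ p, act 0 p = p := by
    intro p
    show (T (NormedSpace.exp ((0 : aa) : A)) (p, 1)).1 = p
    rw [Submodule.coe_zero, NormedSpace.exp_zero, map_one]
    rfl
  have hmulT : ∀ (a b : A) (v : VV n), T (a * b) v = T a (T b v) := by
    intro a b v
    rw [map_mul]; rfl
  have hadd : ∀ (X Y : aa) p, act (X + Y) p = act X (act Y p) := by
    intro X Y p
    show (T (NormedSpace.exp ((X + Y : aa) : A)) (p, 1)).1 = (T (NormedSpace.exp (X : A)) (act Y p, 1)).1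
    rw [Submodule.coe_add, log_exp_add, hmulT, hact1]
  have hcomm : ∀ (g : G) (X : aa) p, hol g (act X p) = act X (hol g p) := by
    intro g X p
    have h1 : T (gg g * NormedSpace.exp (X : A)) (p, 1) = (hol g (act X p), 1) := by
      rw [hmulT, hact1, hT]
    have h2 : T (gg g * NormedSpace.exp (X : A)) (p, 1) = (act X (hol g p), 1) := by
      rw [mul_comm, hmulT, hT, hact1]
    exact congrArg Prod.fst (h1.symm.trans h2)
  obtain ⟨Φ, hΦc, hΦ0, hΦa, hΦd, hΦg⟩ := exists_flow dev hdev hol hhol K hK hcov act hact h0 hadd hcomm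
  -- the developed vector
  let dv : M → VV n := fun x => (dev x, 1)
  have hdvc : Continuous dv := hdev.continuous.prodMk continuous_const
  have hdvΦ : ∀ (X : aa) x, dv (Φ X x) = T (NormedSpace.exp (X : A)) (dv x) := by
    intro X x
    show (dev (Φ X x), (1 : ℝ)) = _
    rw [hΦd, hact1]
  have hdvg : ∀ (g : G) x, dv (g • x) = T (gg g) (dv x) := by
    intro g x
    show (dev (g • x), (1 : ℝ)) = T (gg g) (dev x, 1)
    rw [hT, hhol]
  -- maximal annihilator
  let q : VV n → (A →ₗ[ℝ] VV n) := fun v => (LinearMap.applyₗ' ℝ v).comp ((ContinuousLinearMap.coeLM ℝ).comp T.toLinearMap)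
  have hq : ∀ v a, q v a = T a v := fun _ _ => rfl
  have hmax : ∃ x₀ : M, ∀ x, Module.finrank ℝ (LinearMap.ker (q (dv x))) ≤ Module.finrank ℝ (LinearMap.ker (q (dv x₀))) := by
    have : Nonempty M := ConnectedSpace.toNonempty
    let f : M → ℕ := fun x => Module.finrank ℝ A - Module.finrank ℝ (LinearMap.ker (q (dv x)))
    refine ⟨Function.argmin f, fun x => ?_⟩
    have h1 := Function.argmin_le f x
    have h2 : ∀ y, Module.finrank ℝ (LinearMap.ker (q (dv y))) ≤ Module.finrank ℝ A := fun y => Submodule.finrank_le _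
    have h3 := h2 x
    have h4 := h2 (Function.argmin f)
    simp only [f] at h1 ⊢
    omega
  obtain ⟨x₀, hx₀⟩ := hmax
  set v : VV n := dv x₀ with hv
  obtain ⟨g₀, hg₀⟩ := hfix x₀
  obtain ⟨e, he0, hev, hee⟩ := expv_exists_e T eps v (gg g₀ - 1) (by rw [map_sub, hgg, map_one, sub_self]) (by
    intro h
    rw [map_sub, map_one] at h
    have h1 : T (gg g₀) v - v = 0 := h
    rw [hv, ← hdvg, sub_eq_zero] at h1
    apply hg₀
    rw [← hhol]
    exact congrArg Prod.fst h1)
  let e' : aa := ⟨e, he0⟩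
  -- the recurrent sequence
  have hch : ∀ k : ℕ, ∃ δ : G, δ • Φ ((k : ℝ) • e') x₀ ∈ K := by
    intro k
    obtain ⟨g, y, hy, hgy⟩ := hcov (Φ ((k : ℝ) • e') x₀)
    refine ⟨g⁻¹, ?_⟩
    rw [hgy, inv_smul_smul]
    exact hy
  choose δ hδ using hch
  set P : ℕ → M := fun k => δ k • Φ ((k : ℝ) • e') x₀ with hP
  obtain ⟨y, hyK, hy⟩ := hK.ultrafilter_le_nhds ((Filter.hyperfilter ℕ).map P) (by
    rw [Filter.le_principal_iff]
    exact Filter.mem_map.2 (Filter.univ_mem' hδ))
  have hPy : Tendsto P (Filter.hyperfilter ℕ) (𝓝 y) := hy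
  let a : ℕ → A := fun k => gg (δ k) * NormedSpace.exp ((k : ℝ) • e)
  have hTa : ∀ k, T (a k) v = dv (P k) := by
    intro k
    show T (gg (δ k) * NormedSpace.exp ((k : ℝ) • e)) v = dv (δ k • Φ ((k : ℝ) • e') x₀)
    rw [hdvg, hdvΦ, hmulT]
    rfl
  set w : VV n := dv y with hw
  have hTaw : Tendsto (fun k => T (a k) v) (Filter.hyperfilter ℕ) (𝓝 w) := by
    simp only [hTa]
    exact (hdvc.tendsto y).comp hPy
  have hann1 : ∀ b, T b v = 0 → T b w = 0 := by
    intro b hb
    have h1 : Tendsto (fun k => T b (T (a k) v)) (Filter.hyperfilter ℕ) (𝓝 (T b w)) :=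
      ((T b).continuous.tendsto w).comp hTaw
    have h2 : ∀ k, T b (T (a k) v) = 0 := by
      intro k
      rw [← hmulT, mul_comm, hmulT, hb, map_zero]
    simp only [h2] at h1
    exact (tendsto_nhds_unique h1 tendsto_const_nhds)
  have hann : ∀ b, T b w = 0 → T b v = 0 := by
    have h1 : LinearMap.ker (q v) ≤ LinearMap.ker (q w) := fun b hb => hann1 b hb
    have h2 := Submodule.eq_of_le_of_finrank_le h1 (hx₀ y)
    intro b hb
    have h3 : b ∈ LinearMap.ker (q w) := hb
    rw [← h2] at h3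
    exact h3
  obtain ⟨b, hb⟩ : ∃ b, w = T b v := by
    have hcl : IsClosed (LinearMap.range (q v) : Set (VV n)) := Submodule.closed_of_finiteDimensional _
    have h1 : w ∈ (LinearMap.range (q v) : Set (VV n)) :=
      hcl.mem_of_tendsto hTaw (Filter.Eventually.of_forall (fun k => ⟨a k, rfl⟩))
    obtain ⟨b, hb⟩ := h1
    exact ⟨b, hb.symm⟩
  obtain ⟨R, hR⟩ := expv_corr T v w b hb hann
  let c : ℕ → A := fun k => R (T (a k) v - w)
  have hc1 : ∀ k, T (c k) w = T (a k) v - w := by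
    intro k
    have : T (a k) v - w = T (a k - b) v := by
      rw [map_sub, hb]; rfl
    show T (R (T (a k) v - w)) w = _
    rw [this, hR]
  have hc0 : Tendsto c (Filter.hyperfilter ℕ) (𝓝 0) := by
    have h1 : Tendsto (fun k => T (a k) v - w) (Filter.hyperfilter ℕ) (𝓝 (w - w)) := hTaw.sub_const w
    rw [sub_self] at h1
    have h2 := (R.continuous.tendsto 0).comp h1
    rw [map_zero] at h2
    exact h2
  have hceps : ∀ k, eps (c k) = 0 := by
    intro k
    have h1 := heps (c k) w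
    rw [hc1, hTa] at h1
    have h2 : (dv (P k) - w).2 = 0 := by
      show (1 : ℝ) - 1 = 0
      ring
    rw [h2] at h1
    have h3 : w.2 = 1 := rfl
    rw [h3, mul_one] at h1
    exact h1.symm
  -- a neighbourhood of y on which dev is injective
  obtain ⟨ch, hych, hdevch⟩ := hdev y
  have hUopen : IsOpen ch.source := ch.open_source
  have hUinj : Set.InjOn dev ch.source := by
    rw [hdevch]; exact ch.injOn
  have hnb1 : ∀ᶠ X : aa in 𝓝 0, Φ X y ∈ ch.source := by
    have h1 : Continuous (fun X : aa => Φ X y) := hΦc.comp (continuous_id.prodMk continuous_const)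
    have h2 := h1.tendsto 0
    rw [hΦ0] at h2
    exact h2.eventually (hUopen.mem_nhds hych)
  have hnb2 : ∀ᶠ X : aa in 𝓝 0, ‖T (NormedSpace.exp (X : A)) w‖ < ‖w‖ + 1 := by
    have h1 : Continuous (fun X : aa => ‖T (NormedSpace.exp (X : A)) w‖) :=
      continuous_norm.comp (Continuous.clm_apply (hTc.comp (hexpc.comp continuous_subtype_val)) continuous_const)
    have h2 := h1.tendsto 0
    have h3 : ‖T (NormedSpace.exp ((0 : aa) : A)) w‖ = ‖w‖ := by
      rw [Submodule.coe_zero, NormedSpace.exp_zero, map_one]; rfl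
    rw [h3] at h2
    exact h2.eventually (gt_mem_nhds (by linarith))
  obtain ⟨ε, hε, hεX⟩ := Metric.eventually_nhds_iff.1 (hnb1.and hnb2)
  obtain ⟨η, hη, hηg⟩ := exists_log_small (A := A) ε hε
  have hgood : ∀ᶠ k in (Filter.hyperfilter ℕ : Filter ℕ), ∃ τ : aa, P k = Φ τ y ∧ ‖T (NormedSpace.exp (τ : A)) w‖ < ‖w‖ + 1 := by
    have h1 : ∀ᶠ k in (Filter.hyperfilter ℕ : Filter ℕ), ‖c k‖ < η := by
      have := hc0.eventually (Metric.ball_mem_nhds (0 : A) hη)
      refine this.mono (fun k hk => ?_)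
      simpa using hk
    have h2 : ∀ᶠ k in (Filter.hyperfilter ℕ : Filter ℕ), P k ∈ ch.source := hPy.eventually (hUopen.mem_nhds hych)
    refine (h1.and h2).mono (fun k hk => ?_)
    obtain ⟨qq, hqq, hqqn⟩ := hηg (1 + c k) (by rw [add_sub_cancel_left]; exact hk.1)
    rw [add_sub_cancel_left] at hqq hqqn
    let τ : aa := ⟨c k * qq, by
      show eps (c k * qq) = 0
      rw [map_mul, hceps, zero_mul]⟩
    have hτ := hεX (y := τ) (by rw [dist_zero_right]; exact hqqn)
    refine ⟨τ, ?_, hτ.2⟩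
    apply hUinj hk.2 hτ.1
    have h3 : dv (Φ τ y) = dv (P k) := by
      rw [hdvΦ]
      show T (NormedSpace.exp (c k * qq)) (dv y) = _
      rw [hqq, map_add, map_one]
      have : ((1 : VV n →L[ℝ] VV n) + T (c k)) (dv y) = w + T (c k) w := rfl
      rw [this, hc1, hTa]
      abel
    exact (congrArg Prod.fst h3).symm
  set S₀ : Set ℕ := {k | ∃ τ : aa, P k = Φ τ y ∧ ‖T (NormedSpace.exp (τ : A)) w‖ < ‖w‖ + 1} with hS₀
  have hS₀inf : S₀.Infinite := by
    intro hfin
    exact Filter.notMem_hyperfilter_of_finite hfin hgood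
  -- existence of a pair with infinite order quotient
  have hpair : ∃ k ∈ S₀, ∃ l ∈ S₀, ∃ χ : G →* Multiplicative ℤ, χ ((δ l)⁻¹ * δ k) ≠ 1 := by
    by_contra hcon
    push Not at hcon
    obtain ⟨k₀, hk₀⟩ := hS₀inf.nonempty
    obtain ⟨C, hC⟩ : ∃ C : ℝ, ∀ s ∈ S, ‖T s‖ ≤ C := by
      obtain ⟨C, hC⟩ := (hS.image (fun s => ‖T s‖)).bddAbove
      exact ⟨C, fun s hs => hC ⟨s, hs, rfl⟩⟩
    have hgrow := expv_growth T e v hev hee
    have hev2 := hgrow.eventually (eventually_gt_atTop (C * (‖T (gg (δ k₀)⁻¹)‖ * (‖w‖ + 1))))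
    obtain ⟨N, hN⟩ := Filter.eventually_atTop.1 hev2
    obtain ⟨l, hl, hNl⟩ := hS₀inf.exists_gt N
    have hlN := hN l hNl.le
    obtain ⟨τ, hτ1, hτ2⟩ := hl
    have h1 : T (NormedSpace.exp ((l : ℝ) • e)) v = T (gg ((δ l)⁻¹ * δ k₀)) (T (gg (δ k₀)⁻¹) (T (NormedSpace.exp (τ : A)) w)) := by
      have h2 : T (gg (δ l)) (T (NormedSpace.exp ((l : ℝ) • e)) v) = T (NormedSpace.exp (τ : A)) w := by
        rw [← hmulT, ← hdvΦ, ← hτ1]
        exact hTa l
      have h4 : gg ((δ l)⁻¹ * δ k₀) * gg (δ k₀)⁻¹ * gg (δ l) = 1 := by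
        rw [← map_mul, ← map_mul]; simp
      rw [← h2, ← hmulT, ← hmulT, ← hmulT, h4, one_mul]
    have h3 : ‖T (NormedSpace.exp ((l : ℝ) • e)) v‖ ≤ C * (‖T (gg (δ k₀)⁻¹)‖ * (‖w‖ + 1)) := by
      rw [h1]
      have hmem : gg ((δ l)⁻¹ * δ k₀) ∈ S := hSg _ (fun χ => hcon k₀ hk₀ l ⟨τ, hτ1, hτ2⟩ χ)
      have hC0 : 0 ≤ C := (norm_nonneg _).trans (hC _ hmem)
      refine ((T _).le_opNorm _).trans ?_
      refine mul_le_mul (hC _ hmem) ?_ (norm_nonneg _) hC0
      refine ((T _).le_opNorm _).trans ?_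
      exact mul_le_mul_of_nonneg_left hτ2.le (norm_nonneg _)
    linarith
  obtain ⟨k, ⟨τk, hτk, -⟩, l, ⟨τl, hτl, -⟩, χ, hχ⟩ := hpair
  -- the return element
  set dl : G := (δ l)⁻¹ * δ k with hdl
  let s : aa := (τk - (k : ℝ) • e') + ((l : ℝ) • e' - τl)
  have hΦinv : ∀ (X : aa) x, Φ (-X) (Φ X x) = x := by
    intro X x
    rw [← hΦa, neg_add_cancel, hΦ0]
  have hret : dl • x₀ = Φ s x₀ := by
    have h1 : ∀ (j : ℕ) (τ : aa), P j = Φ τ y → y = δ j • Φ (-τ + (j : ℝ) • e') x₀ := by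
      intro j τ hj
      have h2 : Φ (-τ) (P j) = y := by rw [hj, hΦinv]
      rw [← h2, hP]
      show Φ (-τ) (δ j • Φ ((j : ℝ) • e') x₀) = _
      rw [hΦg, ← hΦa]
    have h3 := (h1 k τk hτk).symm.trans (h1 l τl hτl)
    have h4 : dl • Φ (-τk + (k : ℝ) • e') x₀ = Φ (-τl + (l : ℝ) • e') x₀ := by
      rw [hdl, mul_smul, h3, inv_smul_smul]
    have h5 : Φ (τk - (k : ℝ) • e') (dl • Φ (-τk + (k : ℝ) • e') x₀) = dl • x₀ := by
      rw [hΦg, ← hΦa]
      have : (τk - (k : ℝ) • e') + (-τk + (k : ℝ) • e') = 0 := by abel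
      rw [this, hΦ0]
    rw [← h5, h4, ← hΦa]
    congr 1
    show (τk - (k : ℝ) • e') + (-τl + (l : ℝ) • e') = (τk - (k : ℝ) • e') + ((l : ℝ) • e' - τl)
    abel
  -- the stabilising element
  set g : A := gg dl * NormedSpace.exp (-(s : A)) with hg
  have hgv : T g v = v := by
    rw [hg, mul_comm, hmulT, hv, ← hdvg, hret, hdvΦ, ← hmulT]
    have h1 := log_exp_mul_neg (s : A)
    rw [mul_comm] at h1
    rw [h1, map_one]; rfl
  have hgu : IsUnit g := by
    have h1 : g * (gg dl⁻¹ * NormedSpace.exp (s : A)) = 1 := by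
      have h2 : gg dl * gg dl⁻¹ = 1 := by rw [← map_mul, mul_inv_cancel, map_one]
      have h3 := log_exp_mul_neg (s : A)
      calc g * (gg dl⁻¹ * NormedSpace.exp (s : A)) = (gg dl * gg dl⁻¹) * (NormedSpace.exp (s : A) * NormedSpace.exp (-(s : A))) := by
            rw [hg]; ring
        _ = 1 := by rw [h2, h3, mul_one]
    exact IsUnit.of_mul_eq_one _ h1
  have hgeps : eps g = 1 := by
    rw [hg, map_mul, hgg, one_mul, eps_exp]
    rw [map_neg, haa s, neg_zero]
  obtain ⟨N, hN, qq, hqq⟩ := exists_pow_log g hgu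
  have hgN : T (g ^ N) v = v := by
    have : ∀ j : ℕ, T (g ^ j) v = v := by
      intro j
      induction j with
      | zero => rw [pow_zero, map_one]; rfl
      | succ j ih => rw [pow_succ', hmulT, ih, hgv]
    exact this N
  let L : aa := ⟨(g ^ N - 1) * qq, by
    show eps ((g ^ N - 1) * qq) = 0
    rw [map_mul, map_sub, map_pow, hgeps, one_pow, map_one, sub_self, zero_mul]⟩
  have hLv : T (L : A) v = 0 := by
    show T ((g ^ N - 1) * qq) v = 0
    rw [mul_comm, hmulT, map_sub, map_one]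
    have : (T (g ^ N) - (1 : VV n →L[ℝ] VV n)) v = T (g ^ N) v - v := rfl
    rw [this, hgN, sub_self, map_zero]
  let s' : aa := (N : ℝ) • s + L
  have hexps' : NormedSpace.exp (s' : A) = gg (dl ^ N) := by
    have h1 : (s' : A) = (N : ℝ) • (s : A) + (L : A) := rfl
    have h2 : NormedSpace.exp (L : A) = g ^ N := hqq
    have h3 : ∀ j : ℕ, NormedSpace.exp ((j : ℝ) • (s : A)) = NormedSpace.exp (s : A) ^ j := by
      intro j
      induction j with
      | zero => rw [Nat.cast_zero, zero_smul, NormedSpace.exp_zero, pow_zero]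
      | succ j ih => rw [Nat.cast_succ, add_smul, one_smul, log_exp_add, ih, pow_succ]
    rw [h1, log_exp_add, h3, h2, ← mul_pow, hg, map_pow]
    congr 1
    have h4 := log_exp_mul_neg (s : A)
    calc NormedSpace.exp (s : A) * (gg dl * NormedSpace.exp (-(s : A)))
        = gg dl * (NormedSpace.exp (s : A) * NormedSpace.exp (-(s : A))) := by ring
      _ = gg dl := by rw [h4, mul_one]
  have hΦL : Φ L x₀ = x₀ := by
    have h1 := lift_uniq hdev (B := ℝ) (fun u => Φ (u • L) x₀) (fun _ => x₀)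
      (hΦc.comp ((continuous_id.smul continuous_const).prodMk continuous_const)) continuous_const
      (fun u => by
        have h2 : dv (Φ (u • L) x₀) = dv x₀ := by
          rw [hdvΦ]
          refine expv_zero T _ _ ?_
          show T (u • (L : A)) (dv x₀) = 0
          rw [map_smul]
          show u • T (L : A) v = 0
          rw [hLv, smul_zero]
        exact congrArg Prod.fst h2) 0 (by simp only [zero_smul, hΦ0])
    have h3 := congrFun h1 1
    simpa using h3
  have hΦN : ∀ j : ℕ, Φ ((j : ℝ) • s) x₀ = dl ^ j • x₀ := by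
    intro j
    induction j with
    | zero => rw [Nat.cast_zero, zero_smul, hΦ0, pow_zero, one_smul]
    | succ j ih =>
      rw [Nat.cast_succ, add_smul, one_smul, add_comm, hΦa, ih, hΦg, ← hret, ← mul_smul, ← pow_succ]
  have hΦs' : ∀ x, Φ s' x = dl ^ N • x := by
    have h1 := lift_uniq hdev (B := M) (fun x => Φ s' x) (fun x => dl ^ N • x)
      (hΦc.comp (continuous_const.prodMk continuous_id)) (continuous_const_smul _)
      (fun x => by
        have h2 : dv (Φ s' x) = dv (dl ^ N • x) := by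
          rw [hdvΦ, hdvg, hexps']
        exact congrArg Prod.fst h2) x₀ (by
        show Φ ((N : ℝ) • s + L) x₀ = dl ^ N • x₀
        rw [hΦa, hΦL, hΦN])
    exact fun x => congrFun h1 x
  refine ⟨dl ^ N, χ, ⟨fun z => Φ (z.1 • s') z.2, ?_⟩, ?_, ?_, ?_, ?_, ?_⟩
  · exact hΦc.comp ((continuous_fst.smul continuous_const).prodMk continuous_snd)
  · rw [map_pow]
    intro h
    apply hχ
    have h1 := congrArg Multiplicative.toAdd h
    rw [toAdd_pow, toAdd_one, nsmul_eq_mul, mul_eq_zero] at h1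
    rcases h1 with h1 | h1
    · exfalso
      have : N = 0 := by exact_mod_cast h1
      omega
    · rw [← toAdd_one] at h1
      exact Multiplicative.toAdd.injective h1
  · intro x
    show Φ ((0 : ℝ) • s') x = x
    rw [zero_smul, hΦ0]
  · intro x
    show Φ ((1 : ℝ) • s') x = _
    rw [one_smul, hΦs']
  · intro g u x
    exact hΦg g (u • s') x
  · intro u v x
    show Φ ((u + v) • s') x = Φ (u • s') (Φ (v • s') x)
    rw [add_smul, hΦa]

end SV
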