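import Pool.Agent.Helper43.SV.Prism

/-! Barycentric subdivision. -/

namespace SV

open Finset Cvx

/-- the barycenter of the standard simplex -/
noncomputable def bary (m : ℕ) : Dl m := stdSimplex.barycenter

theorem bary_apply (m : ℕ) (i : Fin (m + 1)) : bary m i = ((m : ℝ) + 1)⁻¹ := by
  show ((Fintype.card (Fin (m + 1)) : ℝ))⁻¹ = _
  simp

section tup

variable {P Q : Type*} [TopologicalSpace P] [Cvx P] [TopologicalSpace Q] [Cvx Q]

/-- the barycenter of a tuple -/
noncomputable def bar {k : ℕ} (p : Fin (k + 1) → P) : P := comb p (bary k)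

theorem bar_nat (f : C(P, Q)) (hf : IsAff f) {k : ℕ} (p : Fin (k + 1) → P) : bar (fun i => f (p i)) = f (bar p) :=
  (hf k p (bary k)).symm

/-- barycentric subdivision of tuples -/
noncomputable def sdT (P : Type*) [TopologicalSpace P] [Cvx P] : ∀ k, TC P k →ₗ[ℝ] TC P k
  | 0 => LinearMap.id
  | (k + 1) => ext (fun p => tcone (bar p) k (sdT P k (td k (Finsupp.single p 1))))

theorem sdT_zero (c : TC P 0) : sdT P 0 c = c := rfl

theorem sdT_succ (k : ℕ) (p : Fin (k + 2) → P) :
    sdT P (k + 1) (Finsupp.single p 1) = tcone (bar p) k (sdT P k (td k (Finsupp.single p 1))) := by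
  rw [sdT, ext_single, one_smul]

theorem td_sdT (k : ℕ) : ∀ c : TC P (k + 1), td k (sdT P (k + 1) c) = sdT P k (td k c) := by
  induction k with
  | zero =>
    intro c
    have : (td 0).comp (sdT P 1) = (sdT P 0).comp (td 0) := by
      refine Finsupp.lhom_ext' (fun x => LinearMap.ext_ring ?_)
      simp only [LinearMap.comp_apply, Finsupp.lsingle_apply]
      rw [sdT_succ, sdT_zero, td_tcone_zero, aug_td, zero_smul, sub_zero]
    exact LinearMap.congr_fun this c
  | succ k ih =>
    intro c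
    have : (td (k + 1)).comp (sdT P (k + 2)) = (sdT P (k + 1)).comp (td (k + 1)) := by
      refine Finsupp.lhom_ext' (fun x => LinearMap.ext_ring ?_)
      simp only [LinearMap.comp_apply, Finsupp.lsingle_apply]
      rw [sdT_succ, td_tcone, ih, td_td, map_zero, map_zero, sub_zero]
    exact LinearMap.congr_fun this c

theorem sdT_nat (f : C(P, Q)) (hf : IsAff f) (k : ℕ) : ∀ c : TC P k,
    sdT Q k (tmap f k c) = tmap f k (sdT P k c) := by
  induction k with
  | zero => intro c; rfl
  | succ k ih =>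
    intro c
    have : (sdT Q (k + 1)).comp (tmap f (k + 1)) = (tmap f (k + 1)).comp (sdT P (k + 1)) := by
      refine Finsupp.lhom_ext' (fun x => LinearMap.ext_ring ?_)
      simp only [LinearMap.comp_apply, Finsupp.lsingle_apply]
      rw [tmap_single, sdT_succ, sdT_succ, tmap_tcone, bar_nat f hf, ← tmap_single, td_tmap, ih]
    exact LinearMap.congr_fun this c

/-- homotopy between the identity and the subdivision -/
noncomputable def thT (P : Type*) [TopologicalSpace P] [Cvx P] (k : ℕ) : TC P k →ₗ[ℝ] TC P (k + 1) :=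
  hK (fun _ => LinearMap.id) (sdT P) (fun _ p => p 0) k

theorem td_thT_zero (c : TC P 0) : td 0 (thT P 0 c) = c - sdT P 0 c :=
  td_hK_zero (fun _ => LinearMap.id) (sdT P) (fun _ p => p 0) (fun _ => rfl) c

theorem td_thT (k : ℕ) (c : TC P (k + 1)) : td (k + 1) (thT P (k + 1) c) = c - sdT P (k + 1) c - thT P k (td k c) :=
  td_hK (fun _ => LinearMap.id) (sdT P) (fun _ p => p 0) (fun _ _ => rfl) (fun k c => td_sdT k c) (fun _ => rfl) k c

theorem thT_nat (f : C(P, Q)) (hf : IsAff f) (k : ℕ) (c : TC P k) :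
    thT Q k (tmap f k c) = tmap f (k + 1) (thT P k c) :=
  hK_nat _ _ _ _ _ _ f f (fun _ _ => rfl) (fun k c => sdT_nat f hf k c) (fun _ _ => rfl) k c

end tup

section sing

variable {X Y : Type*} [TopologicalSpace X] [TopologicalSpace Y]

/-- barycentric subdivision of singular chains -/
noncomputable def Sd (X : Type*) [TopologicalSpace X] (k : ℕ) : SC X k →ₗ[ℝ] SC X k :=
  ext (fun σ => smap σ k (real k (sdT (Dl k) k (iot k))))

/-- homotopy between the identity and the subdivision -/
noncomputable def Th (X : Type*) [TopologicalSpace X] (k : ℕ) : SC X k →ₗ[ℝ] SC X (k + 1) :=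
  ext (fun σ => smap σ (k + 1) (real (k + 1) (thT (Dl k) k (iot k))))

theorem Sd_single (k : ℕ) (σ : Sx X k) : Sd X k (Finsupp.single σ 1) = smap σ k (real k (sdT (Dl k) k (iot k))) := by
  rw [Sd, ext_single, one_smul]

theorem Th_single (k : ℕ) (σ : Sx X k) :
    Th X k (Finsupp.single σ 1) = smap σ (k + 1) (real (k + 1) (thT (Dl k) k (iot k))) := by
  rw [Th, ext_single, one_smul]

theorem bd_Sd (k : ℕ) (c : SC X (k + 1)) : bd k (Sd X (k + 1) c) = Sd X k (bd k c) := by
  have : (bd k).comp (Sd X (k + 1)) = (Sd X k).comp (bd k) := by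
    refine Finsupp.lhom_ext' (fun σ => LinearMap.ext_ring ?_)
    simp only [LinearMap.comp_apply, Finsupp.lsingle_apply]
    rw [Sd_single, bd_smap, bd_real, td_sdT, td_iot, bd_single, one_smul, map_sum, map_sum, map_sum, map_sum]
    refine Finset.sum_congr rfl (fun i _ => ?_)
    rw [map_smul, map_smul, map_smul, map_smul, sdT_nat _ (isAff_dface k i), ← smap_real _ (isAff_dface k i),
      smap_smap, Sd_single]
    rfl
  exact LinearMap.congr_fun this c

theorem bd_Th_zero (c : SC X 0) : bd 0 (Th X 0 c) = c - Sd X 0 c := by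
  have : (bd 0).comp (Th X 0) = LinearMap.id - Sd X 0 := by
    refine Finsupp.lhom_ext' (fun σ => LinearMap.ext_ring ?_)
    simp only [LinearMap.comp_apply, Finsupp.lsingle_apply, LinearMap.sub_apply, LinearMap.id_apply]
    rw [Th_single, bd_smap, bd_real, td_thT_zero, map_sub, map_sub, smap_iot, Sd_single]
  exact LinearMap.congr_fun this c

theorem bd_Th (k : ℕ) (c : SC X (k + 1)) : bd (k + 1) (Th X (k + 1) c) = c - Sd X (k + 1) c - Th X k (bd k c) := by
  have : (bd (k + 1)).comp (Th X (k + 1)) = LinearMap.id - Sd X (k + 1) - (Th X k).comp (bd k) := by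
    refine Finsupp.lhom_ext' (fun σ => LinearMap.ext_ring ?_)
    simp only [LinearMap.comp_apply, Finsupp.lsingle_apply, LinearMap.sub_apply, LinearMap.id_apply]
    rw [Th_single, bd_smap, bd_real, td_thT, map_sub, map_sub, map_sub, map_sub, smap_iot, Sd_single]
    congr 1
    rw [td_iot, bd_single, one_smul, map_sum, map_sum, map_sum, map_sum]
    refine Finset.sum_congr rfl (fun i _ => ?_)
    rw [map_smul, map_smul, map_smul, map_smul, thT_nat _ (isAff_dface k i), ← smap_real _ (isAff_dface k i),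
      smap_smap, Th_single]
    rfl
  exact LinearMap.congr_fun this c

theorem SIn.Sd {k : ℕ} {S : Set X} {c : SC X k} (h : SIn S c) : SIn S (Sd X k c) := by
  refine SIn.lin _ _ (fun σ hσ => ?_)
  rw [Sd_single]
  exact SIn.smap (S := Set.univ) (fun t _ => h σ hσ t) (SIn.univ _)

theorem SIn.Th {k : ℕ} {S : Set X} {c : SC X k} (h : SIn S c) : SIn S (Th X k c) := by
  refine SIn.lin _ _ (fun σ hσ => ?_)
  rw [Th_single]
  exact SIn.smap (S := Set.univ) (fun t _ => h σ hσ t) (SIn.univ _)

theorem Sd_smap (f : C(X, Y)) (k : ℕ) (c : SC X k) : Sd Y k (smap f k c) = smap f k (Sd X k c) := by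
  have : (Sd Y k).comp (smap f k) = (smap f k).comp (Sd X k) := by
    refine Finsupp.lhom_ext' (fun σ => LinearMap.ext_ring ?_)
    simp only [LinearMap.comp_apply, Finsupp.lsingle_apply]
    rw [smap_single, Sd_single, Sd_single, smap_smap]
  exact LinearMap.congr_fun this c

theorem Sd_real {P : Type*} [TopologicalSpace P] [Cvx P] (k : ℕ) (c : TC P k) :
    Sd P k (real k c) = real k (sdT P k c) := by
  have : (Sd P k).comp (real k) = (real k).comp (sdT P k) := by
    refine Finsupp.lhom_ext' (fun p => LinearMap.ext_ring ?_)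
    simp only [LinearMap.comp_apply, Finsupp.lsingle_apply]
    rw [real_single, Sd_single, smap_real _ (isAff_comb p), ← sdT_nat _ (isAff_comb p), tmap_comb_iot]
  exact LinearMap.congr_fun this c

theorem Sd_pow_single (k N : ℕ) (σ : Sx X k) :
    ((Sd X k) ^ N) (Finsupp.single σ 1) = smap σ k (real k (((sdT (Dl k) k) ^ N) (iot k))) := by
  induction N with
  | zero => simp only [pow_zero, Module.End.one_apply]; rw [smap_iot]
  | succ N ih =>
    rw [pow_succ', Module.End.mul_apply, ih, Sd_smap, Sd_real, pow_succ', Module.End.mul_apply]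

theorem bd_Sd_pow (k N : ℕ) (c : SC X (k + 1)) : bd k (((Sd X (k + 1)) ^ N) c) = ((Sd X k) ^ N) (bd k c) := by
  induction N with
  | zero => simp
  | succ N ih =>
    rw [pow_succ', Module.End.mul_apply, bd_Sd, ih, pow_succ', Module.End.mul_apply]

theorem SIn.Sd_pow {k : ℕ} {S : Set X} {c : SC X k} (h : SIn S c) (N : ℕ) : SIn S (((SV.Sd X k) ^ N) c) := by
  induction N with
  | zero => simpa using h
  | succ N ih =>
    rw [pow_succ', Module.End.mul_apply]
    exact ih.Sd

/-- a cycle is homologous to its subdivisions, within its support -/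
theorem exists_Sd_pow (k N : ℕ) (S : Set X) (z : SC X (k + 1)) (hz : bd k z = 0) (hS : SIn S z) :
    ∃ c : SC X (k + 2), SIn S c ∧ bd (k + 1) c = z - ((Sd X (k + 1)) ^ N) z := by
  induction N with
  | zero => exact ⟨0, SIn.zero, by simp⟩
  | succ N ih =>
    obtain ⟨c, hc, hc'⟩ := ih
    refine ⟨c + Th X (k + 1) (((Sd X (k + 1)) ^ N) z), hc.add (hS.Sd_pow N).Th, ?_⟩
    rw [map_add, hc', bd_Th, bd_Sd_pow, hz, map_zero, map_zero, sub_zero, pow_succ', Module.End.mul_apply]
    abel

end sing

/-! ### mesh -/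

section mesh

variable {P : Type*} [PseudoMetricSpace P] [Cvx P]

/-- the mesh of a tuple chain -/
def Msh {k : ℕ} (D : ℝ) (c : TC P k) : Prop := ∀ q ∈ c.support, ∀ i j, dist (q i) (q j) ≤ D

omit [PseudoMetricSpace P] [Cvx P] in
theorem TIn_lin_aux {A : Type*} {k : ℕ} (f : (A →₀ ℝ) →ₗ[ℝ] TC P k) (c : A →₀ ℝ) (q : Fin (k + 1) → P)
    (hq : q ∈ (f c).support) : ∃ a ∈ c.support, q ∈ (f (Finsupp.single a 1)).support := by
  classical
  by_contra hcon
  push Not at hcon
  rw [Finsupp.mem_support_iff] at hq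
  apply hq
  rw [fsum c, map_sum, Finsupp.finsetSum_apply]
  refine Finset.sum_eq_zero (fun a ha => ?_)
  rw [map_smul, Finsupp.smul_apply, Finsupp.notMem_support_iff.1 (hcon a ha), smul_zero]

theorem sdT_TIn {S : Set P} (hS : CvxSet S) (k : ℕ) : ∀ c : TC P k, TIn S c → TIn S (sdT P k c) := by
  induction k with
  | zero => intro c hc; exact hc
  | succ k ih =>
    intro c hc
    refine TIn.lin _ _ (fun p hp => ?_)
    rw [sdT_succ]
    refine TIn.tcone (hS _ p (hc p hp) _) (ih _ ?_)
    exact TIn.td (TIn.single _ (hc p hp))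

variable (hconv : ∀ (m : ℕ) (p : Fin (m + 1) → P) (t : Dl m) (y : P), dist (comb p t) y ≤ ∑ i, t i * dist (p i) y)

include hconv in
theorem cvxSet_ball (y : P) (r : ℝ) : CvxSet {x : P | dist x y ≤ r} := by
  intro m p hp t
  refine (hconv m p t y).trans ?_
  calc ∑ i, t i * dist (p i) y ≤ ∑ i, t i * r :=
        Finset.sum_le_sum (fun i _ => mul_le_mul_of_nonneg_left (hp i) (stdSimplex.zero_le t i))
    _ = r := by rw [← Finset.sum_mul, stdSimplex.sum_eq_one, one_mul]

include hconv in
theorem dist_bar (k : ℕ) (p : Fin (k + 1) → P) (D : ℝ) (hp : ∀ i j, dist (p i) (p j) ≤ D) (j : Fin (k + 1)) :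
    dist (p j) (bar p) ≤ (k : ℝ) / (k + 1) * D := by
  rw [dist_comm]
  refine (hconv k p (bary k) (p j)).trans ?_
  have h1 : ∑ i, bary k i * dist (p i) (p j) ≤ ∑ i : Fin (k + 1), (if i = j then 0 else ((k : ℝ) + 1)⁻¹ * D) := by
    refine Finset.sum_le_sum (fun i _ => ?_)
    by_cases h : i = j
    · simp [h]
    · rw [if_neg h, bary_apply]
      exact mul_le_mul_of_nonneg_left (hp i j) (by positivity)
  refine h1.trans (le_of_eq ?_)
  have h2 : ∀ i : Fin (k + 1), (if i = j then 0 else ((k : ℝ) + 1)⁻¹ * D) = ((k : ℝ) + 1)⁻¹ * D - (if i = j then ((k : ℝ) + 1)⁻¹ * D else 0) := by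
    intro i
    split_ifs <;> simp
  rw [Finset.sum_congr rfl (fun i _ => h2 i), Finset.sum_sub_distrib]
  simp only [Finset.sum_const, Finset.card_univ, Fintype.card_fin, nsmul_eq_mul, Finset.sum_ite_eq', Finset.mem_univ, if_true]
  push_cast
  field_simp
  ring

include hconv in
theorem mesh_single (k : ℕ) : ∀ (p : Fin (k + 1) → P) (D : ℝ), (∀ i j, dist (p i) (p j) ≤ D) →
    Msh ((k : ℝ) / (k + 1) * D) (sdT P k (Finsupp.single p 1)) := by
  induction k with
  | zero =>
    intro p D _ q _ i j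
    have hij : i = j := by rw [Fin.fin_one_eq_zero i, Fin.fin_one_eq_zero j]
    rw [hij, dist_self]
    simp
  | succ k ih =>
    intro p D hp q hq i j
    have hD : 0 ≤ D := (dist_nonneg).trans (hp 0 0)
    rw [sdT_succ] at hq
    obtain ⟨q', hq', hqq⟩ := TIn_lin_aux _ _ _ hq
    rw [tcone_single] at hqq
    have hqe : q = Fin.cons (bar p) q' := by
      classical
      have := Finsupp.support_single_subset hqq
      rwa [Finset.mem_singleton] at this
    have hmono : (k : ℝ) / (k + 1) * D ≤ ((k + 1 : ℕ) : ℝ) / ((k + 1 : ℕ) + 1) * D := by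
      refine mul_le_mul_of_nonneg_right ?_ hD
      push_cast
      rw [div_le_div_iff₀ (by positivity) (by positivity)]
      nlinarith [(Nat.cast_nonneg k : (0 : ℝ) ≤ k)]
    -- distances within q'
    have h1 : ∀ a b, dist (q' a) (q' b) ≤ ((k + 1 : ℕ) : ℝ) / ((k + 1 : ℕ) + 1) * D := by
      intro a b
      obtain ⟨p', hp', hqp⟩ := TIn_lin_aux _ _ _ hq'
      have hp'' : ∃ i, p' = tface P k i p := by
        rw [td_single, one_smul] at hp'
        classical
        by_contra hcon
        push Not at hcon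
        rw [Finsupp.mem_support_iff] at hp'
        apply hp'
        rw [Finsupp.finsetSum_apply]
        refine Finset.sum_eq_zero (fun i _ => ?_)
        rw [Finsupp.smul_apply, Finsupp.single_eq_of_ne (hcon i), smul_zero]
      obtain ⟨i, rfl⟩ := hp''
      exact (ih (tface P k i p) D (fun _ _ => hp _ _) q' hqp a b).trans hmono
    have h2 : ∀ a, dist (q' a) (bar p) ≤ ((k + 1 : ℕ) : ℝ) / ((k + 1 : ℕ) + 1) * D := by
      intro a
      have := sdT_TIn (cvxSet_ball hconv (bar p) (((k + 1 : ℕ) : ℝ) / ((k + 1 : ℕ) + 1) * D)) k (td k (Finsupp.single p 1))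
        (TIn.td (TIn.single _ (fun j => dist_bar hconv (k + 1) p D hp j)))
      exact this q' hq' a
    rw [hqe]
    refine Fin.cases ?_ (fun a => ?_) i
    · refine Fin.cases ?_ (fun b => ?_) j
      · simp only [Fin.cons_zero, dist_self]
        positivity
      · simp only [Fin.cons_zero, Fin.cons_succ]
        rw [dist_comm]; exact h2 b
    · refine Fin.cases ?_ (fun b => ?_) j
      · simp only [Fin.cons_zero, Fin.cons_succ]
        exact h2 a
      · simp only [Fin.cons_succ]
        exact h1 a b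

include hconv in
theorem mesh_pow (k N : ℕ) (c : TC P k) (D : ℝ) (hc : Msh D c) :
    Msh (((k : ℝ) / (k + 1)) ^ N * D) (((sdT P k) ^ N) c) := by
  induction N with
  | zero => simpa using hc
  | succ N ih =>
    intro q hq i j
    rw [pow_succ', Module.End.mul_apply] at hq
    obtain ⟨p, hp, hqp⟩ := TIn_lin_aux _ _ _ hq
    have := mesh_single hconv k p _ (ih p hp) q hqp i j
    rw [pow_succ', mul_assoc]
    exact this

end mesh

theorem hconv_Dl (n m : ℕ) (p : Fin (m + 1) → Dl n) (t : Dl m) (y : Dl n) :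
    dist (comb p t) y ≤ ∑ i, t i * dist (p i) y := by
  rw [Subtype.dist_eq, dist_pi_le_iff (Finset.sum_nonneg (fun i _ => mul_nonneg (stdSimplex.zero_le t i) dist_nonneg))]
  intro x
  rw [Real.dist_eq]
  have h1 : (comb p t : Dl n).1 x - y.1 x = ∑ i, t i * ((p i).1 x - y.1 x) := by
    simp only [mul_sub, Finset.sum_sub_distrib]
    rw [← Finset.sum_mul, stdSimplex.sum_eq_one, one_mul]
    rfl
  rw [h1]
  refine (Finset.abs_sum_le_sum_abs _ _).trans (Finset.sum_le_sum (fun i _ => ?_))
  rw [abs_mul, abs_of_nonneg (stdSimplex.zero_le t i)]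
  refine mul_le_mul_of_nonneg_left ?_ (stdSimplex.zero_le t i)
  have := dist_le_pi_dist (p i).1 y.1 x
  rw [Real.dist_eq] at this
  rw [Subtype.dist_eq]
  exact this

section small

variable {X : Type*} [TopologicalSpace X]

theorem SC_lin_aux {A : Type*} {k : ℕ} (f : (A →₀ ℝ) →ₗ[ℝ] SC X k) (c : A →₀ ℝ) (q : Sx X k)
    (hq : q ∈ (f c).support) : ∃ a ∈ c.support, q ∈ (f (Finsupp.single a 1)).support := by
  classical
  by_contra hcon
  push Not at hcon
  rw [Finsupp.mem_support_iff] at hq
  apply hq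
  rw [fsum c, map_sum, Finsupp.finsetSum_apply]
  refine Finset.sum_eq_zero (fun a ha => ?_)
  rw [map_smul, Finsupp.smul_apply, Finsupp.notMem_support_iff.1 (hcon a ha), smul_zero]

theorem exists_small {ι : Type*} (U : ι → Set X) (hU : ∀ i, IsOpen (U i)) (k : ℕ) (c : SC X k)
    (hc : ∀ σ ∈ c.support, ∀ t, ∃ i, σ t ∈ U i) :
    ∃ N : ℕ, ∀ N' ≥ N, ∀ σ ∈ (((Sd X k) ^ N') c).support, ∃ i, ∀ t, σ t ∈ U i := by
  classical
  have hσ : ∀ σ ∈ c.support, ∃ N : ℕ, ∀ N' ≥ N, ∀ τ ∈ (((Sd X k) ^ N') (Finsupp.single σ 1)).support, ∃ i, ∀ t, τ t ∈ U i := by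
    intro σ hσ
    obtain ⟨δ, hδ, hL⟩ := lebesgue_number_lemma_of_metric (α := Dl k) (s := Set.univ) (c := fun i => σ ⁻¹' (U i))
      isCompact_univ (fun i => (hU i).preimage σ.continuous) (fun t _ => by
        obtain ⟨i, hi⟩ := hc σ hσ t
        exact Set.mem_iUnion.2 ⟨i, hi⟩)
    have hlt : (k : ℝ) / (k + 1) < 1 := by
      rw [div_lt_one (by positivity)]
      linarith
    obtain ⟨N, hN⟩ := exists_pow_lt_of_lt_one hδ hlt
    refine ⟨N, fun N' hN' τ hτ => ?_⟩
    rw [Sd_pow_single] at hτ
    have hτ' : ∃ q ∈ (((sdT (Dl k) k) ^ N') (iot k)).support, τ = σ.comp (comb q) := by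
      obtain ⟨ρ, hρ, hτρ⟩ := SC_lin_aux _ _ _ hτ
      rw [smap_single] at hτρ
      have h1 := Finsupp.support_single_subset hτρ
      rw [Finset.mem_singleton] at h1
      obtain ⟨q, hq, hρq⟩ := SC_lin_aux _ _ _ hρ
      rw [real_single] at hρq
      have h2 := Finsupp.support_single_subset hρq
      rw [Finset.mem_singleton] at h2
      exact ⟨q, hq, by rw [h1, h2]⟩
    obtain ⟨q, hq, rfl⟩ := hτ'
    have hm : Msh (P := Dl k) 1 (iot k) := by
      intro p hp i j
      rw [iot] at hp
      have h1 := Finsupp.support_single_subset hp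
      rw [Finset.mem_singleton] at h1
      rw [h1, Subtype.dist_eq]
      rw [dist_pi_le_iff zero_le_one]
      intro x
      rw [Real.dist_eq]
      have h2 : ∀ a b : Fin (k + 1), (vtx a : Dl k).1 b = if b = a then 1 else 0 := fun a b => vtx_apply a b
      rw [h2, h2]
      split_ifs <;> simp
    have hq2 := mesh_pow (hconv_Dl k) k N' (iot k) 1 hm q hq
    obtain ⟨i, hi⟩ := hL (q 0) (Set.mem_univ _)
    refine ⟨i, fun t => ?_⟩
    have : comb q t ∈ Metric.ball (q 0) δ := by
      rw [Metric.mem_ball]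
      refine lt_of_le_of_lt (cvxSet_ball (hconv_Dl k) (q 0) _ k q (fun j => hq2 j 0) t) ?_
      rw [mul_one]
      refine lt_of_le_of_lt (pow_le_pow_of_le_one (by positivity) hlt.le hN') hN
    exact hi this
  choose! N hN using hσ
  refine ⟨c.support.sup N, fun N' hN' τ hτ => ?_⟩
  obtain ⟨σ, hσ, hτσ⟩ := SC_lin_aux _ _ _ hτ
  exact hN σ hσ N' ((Finset.le_sup hσ).trans hN') τ hτσ

end small

end SV
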