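import Pool.Agent.Helper43.SV.Tup

/-! Singular chains with real coefficients. -/

namespace SV

open Finset

/-- the standard simplex -/
abbrev Dl (m : ℕ) : Type := ↥(stdSimplex ℝ (Fin (m + 1)))

/-- singular simplices -/
abbrev Sx (X : Type*) [TopologicalSpace X] (k : ℕ) := C(Dl k, X)

/-- the inclusion of the face opposite to the vertex i -/
noncomputable def dface (k : ℕ) (i : Fin (k + 2)) : C(Dl k, Dl (k + 1)) :=
  ⟨stdSimplex.map i.succAbove, stdSimplex.continuous_map _⟩

/-- faces of singular simplices -/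
noncomputable def sface (X : Type*) [TopologicalSpace X] (k : ℕ) (i : Fin (k + 2)) (σ : Sx X (k + 1)) : Sx X k :=
  σ.comp (dface k i)

/-- real singular chains -/
abbrev SC (X : Type*) [TopologicalSpace X] (k : ℕ) := Sx X k →₀ ℝ

variable {X Y Z : Type*} [TopologicalSpace X] [TopologicalSpace Y] [TopologicalSpace Z]

theorem dface_SId (k : ℕ) (i j : Fin (k + 2)) (h : i ≤ j) (t : Dl k) :
    dface (k + 1) j.succ (dface k i t) = dface (k + 1) i.castSucc (dface k j t) := by
  show stdSimplex.map _ (stdSimplex.map _ t) = stdSimplex.map _ (stdSimplex.map _ t)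
  rw [stdSimplex.map_comp_apply, stdSimplex.map_comp_apply]
  congr 1
  funext x
  exact succAbove_id i j h x

theorem sface_SId (X : Type*) [TopologicalSpace X] : SId (X := Sx X) (sface X) := by
  intro k x i j hij
  ext t
  simp only [sface, ContinuousMap.comp_apply]
  rw [dface_SId k i j hij]

/-- the singular boundary -/
noncomputable def bd (k : ℕ) : SC X (k + 1) →ₗ[ℝ] SC X k := gd (X := Sx X) (sface X) k

theorem bd_single (k : ℕ) (σ : Sx X (k + 1)) (r : ℝ) :
    bd k (Finsupp.single σ r) = r • ∑ i : Fin (k + 2), (-1 : ℝ) ^ (i : ℕ) • Finsupp.single (sface X k i σ) (1 : ℝ) :=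
  gd_single (X := Sx X) (sface X) k σ r

theorem bd_bd (k : ℕ) (c : SC X (k + 2)) : bd k (bd (k + 1) c) = 0 :=
  gd_gd (X := Sx X) (sface X) (sface_SId X) k c

/-- push-forward of chains -/
noncomputable def smap (f : C(X, Y)) (k : ℕ) : SC X k →ₗ[ℝ] SC Y k :=
  Finsupp.lmapDomain ℝ ℝ (fun σ => f.comp σ)

@[simp] theorem smap_single (f : C(X, Y)) (k : ℕ) (σ : Sx X k) (r : ℝ) :
    smap f k (Finsupp.single σ r) = Finsupp.single (f.comp σ) r := by
  simp [smap]

theorem bd_smap (f : C(X, Y)) (k : ℕ) (c : SC X (k + 1)) : bd k (smap f (k + 1) c) = smap f k (bd k c) :=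
  gd_map (X := Sx X) (sface X) (Y := Sx Y) (sface Y) (fun _ σ => f.comp σ) (fun _ _ _ => rfl) k c

theorem smap_smap (f : C(X, Y)) (g : C(Y, Z)) (k : ℕ) (c : SC X k) :
    smap g k (smap f k c) = smap (g.comp f) k c := by
  have : (smap g k).comp (smap f k) = smap (g.comp f) k := by
    refine Finsupp.lhom_ext' (fun x => LinearMap.ext_ring ?_)
    simp [ContinuousMap.comp_assoc]
  exact LinearMap.congr_fun this c

theorem smap_id (k : ℕ) (c : SC X k) : smap (ContinuousMap.id X) k c = c := by
  have : smap (ContinuousMap.id X) k = LinearMap.id := by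
    refine Finsupp.lhom_ext' (fun x => LinearMap.ext_ring ?_)
    simp
  exact LinearMap.congr_fun this c

/-- the l1-norm of a chain -/
noncomputable def nrm {A : Type*} (c : A →₀ ℝ) : ℝ := ∑ a ∈ c.support, |c a|

theorem nrm_nonneg {A : Type*} (c : A →₀ ℝ) : 0 ≤ nrm c := Finset.sum_nonneg (fun _ _ => abs_nonneg _)

theorem nrm_eq_sum {A : Type*} (c : A →₀ ℝ) (s : Finset A) (hs : c.support ⊆ s) : nrm c = ∑ a ∈ s, |c a| := by
  refine Finset.sum_subset hs (fun a _ ha => ?_)
  rw [Finsupp.notMem_support_iff.1 ha, abs_zero]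

theorem nrm_add {A : Type*} (c c' : A →₀ ℝ) : nrm (c + c') ≤ nrm c + nrm c' := by
  classical
  rw [nrm_eq_sum (c + c') (c.support ∪ c'.support) Finsupp.support_add,
    nrm_eq_sum c (c.support ∪ c'.support) Finset.subset_union_left,
    nrm_eq_sum c' (c.support ∪ c'.support) Finset.subset_union_right, ← Finset.sum_add_distrib]
  exact Finset.sum_le_sum (fun a _ => by rw [Finsupp.add_apply]; exact abs_add_le _ _)

theorem nrm_smul {A : Type*} (r : ℝ) (c : A →₀ ℝ) : nrm (r • c) = |r| * nrm c := by
  rw [nrm_eq_sum (r • c) c.support Finsupp.support_smul, nrm, Finset.mul_sum]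
  exact Finset.sum_congr rfl (fun a _ => by rw [Finsupp.smul_apply, smul_eq_mul, abs_mul])

theorem nrm_zero {A : Type*} : nrm (0 : A →₀ ℝ) = 0 := by simp [nrm]

theorem nrm_sum {A ι : Type*} (s : Finset ι) (f : ι → (A →₀ ℝ)) : nrm (∑ i ∈ s, f i) ≤ ∑ i ∈ s, nrm (f i) := by
  classical
  induction s using Finset.induction_on with
  | empty => simp [nrm_zero]
  | insert a s ha ih =>
    rw [Finset.sum_insert ha, Finset.sum_insert ha]
    exact (nrm_add _ _).trans (by linarith)

theorem nrm_single {A : Type*} (a : A) (r : ℝ) : nrm (Finsupp.single a r) = |r| := by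
  classical
  rw [nrm_eq_sum _ {a} Finsupp.support_single_subset]
  simp

theorem nrm_mapDomain {A B : Type*} (f : A → B) (c : A →₀ ℝ) : nrm (Finsupp.mapDomain f c) ≤ nrm c := by
  rw [Finsupp.mapDomain, Finsupp.sum]
  refine (nrm_sum _ _).trans ?_
  simp only [nrm_single]
  exact le_of_eq rfl

theorem nrm_smap (f : C(X, Y)) (k : ℕ) (c : SC X k) : nrm (smap f k c) ≤ nrm c := nrm_mapDomain _ c

/-- a singular chain all of whose simplices have their image in S -/
def SIn {k : ℕ} (S : Set X) (c : SC X k) : Prop := ∀ σ ∈ c.support, ∀ t, σ t ∈ S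

section SIn

variable {S T : Set X} {k : ℕ}

theorem SIn.zero : SIn S (0 : SC X k) := by intro q hq; simp at hq

theorem SIn.add {c c' : SC X k} (h : SIn S c) (h' : SIn S c') : SIn S (c + c') := by
  classical
  intro q hq
  rcases Finset.mem_union.1 (Finsupp.support_add hq) with h1 | h1
  · exact h q h1
  · exact h' q h1

theorem SIn.smul {c : SC X k} (r : ℝ) (h : SIn S c) : SIn S (r • c) :=
  fun q hq => h q (Finsupp.support_smul hq)

theorem SIn.neg {c : SC X k} (h : SIn S c) : SIn S (-c) := by
  have := h.smul (-1); simpa using this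

theorem SIn.sub {c c' : SC X k} (h : SIn S c) (h' : SIn S c') : SIn S (c - c') := by
  rw [sub_eq_add_neg]; exact h.add h'.neg

theorem SIn.mono {c : SC X k} (h : SIn S c) (hST : S ⊆ T) : SIn T c := fun q hq i => hST (h q hq i)

theorem SIn.sum {ι : Type*} (s : Finset ι) (f : ι → SC X k) (h : ∀ i ∈ s, SIn S (f i)) :
    SIn S (∑ i ∈ s, f i) := by
  classical
  induction s using Finset.induction_on with
  | empty => simpa using SIn.zero
  | insert a s ha ih =>
    rw [Finset.sum_insert ha]
    exact (h a (by simp)).add (ih (fun i hi => h i (by simp [hi])))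

theorem SIn.single {σ : Sx X k} (r : ℝ) (h : ∀ t, σ t ∈ S) : SIn S (Finsupp.single σ r) := by
  classical
  intro q hq
  have := Finsupp.support_single_subset hq
  rw [Finset.mem_singleton] at this
  rw [this]; exact h

theorem fsum {A : Type*} (c : A →₀ ℝ) : c = ∑ q ∈ c.support, c q • Finsupp.single q (1 : ℝ) := by
  conv_lhs => rw [← Finsupp.sum_single c]
  simp [Finsupp.sum]

theorem SIn.lin {A : Type*} (f : (A →₀ ℝ) →ₗ[ℝ] SC X k) (c : A →₀ ℝ)
    (h : ∀ q ∈ c.support, SIn S (f (Finsupp.single q 1))) : SIn S (f c) := by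
  classical
  rw [fsum c, map_sum]
  refine SIn.sum _ _ (fun q hq => ?_)
  rw [map_smul]
  exact (h q hq).smul _

theorem SIn.bd {c : SC X (k + 1)} (h : SIn S c) : SIn S (bd k c) := by
  refine SIn.lin _ _ (fun q hq => ?_)
  rw [bd_single, one_smul]
  refine SIn.sum _ _ (fun i _ => ?_)
  have : SIn S (Finsupp.single (sface X k i q) (1 : ℝ)) := SIn.single 1 (fun t => h q hq (dface k i t))
  exact this.smul _

theorem SIn.smap {f : C(X, Y)} {S : Set X} {T : Set Y} (hf : ∀ x ∈ S, f x ∈ T) {c : SC X k} (h : SIn S c) :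
    SIn T (smap f k c) := by
  refine SIn.lin _ _ (fun q hq => ?_)
  rw [smap_single]
  exact SIn.single _ (fun i => hf _ (h q hq i))

theorem SIn.univ (c : SC X k) : SIn Set.univ c := fun _ _ _ => Set.mem_univ _

end SIn

/-! ### affine simplices -/

/-- affine combinations in the standard simplex -/
noncomputable def combD {m l : ℕ} (q : Fin (l + 1) → Dl m) : C(Dl l, Dl m) where
  toFun t := ⟨fun i => ∑ j, t j * q j i, by
    refine ⟨fun i => Finset.sum_nonneg (fun j _ => mul_nonneg (stdSimplex.zero_le _ _) (stdSimplex.zero_le _ _)), ?_⟩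
    rw [Finset.sum_comm]
    have : ∀ j, ∑ i, t j * q j i = t j := by
      intro j
      rw [← Finset.mul_sum, stdSimplex.sum_eq_one, mul_one]
    simp only [this, stdSimplex.sum_eq_one]⟩
  continuous_toFun := by
    refine Continuous.subtype_mk (continuous_pi (fun i => continuous_finsetSum _ (fun j _ => ?_))) _
    exact Continuous.mul ((continuous_apply j).comp continuous_subtype_val) continuous_const

@[simp] theorem combD_apply {m l : ℕ} (q : Fin (l + 1) → Dl m) (t : Dl l) (i : Fin (m + 1)) :
    (combD q t) i = ∑ j, t j * q j i := rfl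

/-- the vertices of the standard simplex -/
noncomputable def vtx {m : ℕ} (i : Fin (m + 1)) : Dl m := stdSimplex.vertex i

theorem vtx_apply {m : ℕ} (i j : Fin (m + 1)) : (vtx i : Dl m) j = if j = i then 1 else 0 := by
  simp [vtx, Pi.single_apply]

theorem combD_vtx {m l : ℕ} (q : Fin (l + 1) → Dl m) (i : Fin (l + 1)) : combD q (vtx i) = q i := by
  refine stdSimplex.ext (funext fun x => ?_)
  rw [combD_apply]
  simp [vtx_apply]

theorem combD_id {m : ℕ} (t : Dl m) : combD (fun i => (vtx i : Dl m)) t = t := by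
  refine stdSimplex.ext (funext fun x => ?_)
  rw [combD_apply]
  simp [vtx_apply]

theorem dface_vtx (k : ℕ) (i : Fin (k + 2)) (j : Fin (k + 1)) : dface k i (vtx j) = vtx (i.succAbove j) := by
  show stdSimplex.map _ (stdSimplex.vertex j) = stdSimplex.vertex _
  rw [stdSimplex.map_vertex]

theorem dface_eq (k : ℕ) (i : Fin (k + 2)) (t : Dl k) : dface k i t = combD (fun j => vtx (i.succAbove j)) t := by
  refine stdSimplex.ext (funext fun x => ?_)
  rw [combD_apply]
  show stdSimplex.map _ t x = _
  rw [stdSimplex.map_coe, FunOnFinite.linearMap_apply_apply, Finset.sum_filter]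
  refine Finset.sum_congr rfl (fun j _ => ?_)
  rw [vtx_apply]
  by_cases h : i.succAbove j = x
  · simp [h]
  · simp [h, Ne.symm h]

/-- convex spaces: spaces with affine combinations -/
class Cvx (P : Type*) [TopologicalSpace P] where
  comb : ∀ {m : ℕ}, (Fin (m + 1) → P) → C(Dl m, P)
  comb_vtx : ∀ {m : ℕ} (p : Fin (m + 1) → P) (i : Fin (m + 1)), comb p (vtx i) = p i
  comb_comp : ∀ {m l : ℕ} (p : Fin (m + 1) → P) (q : Fin (l + 1) → Dl m) (t : Dl l),
    comb p (combD q t) = comb (fun j => comb p (q j)) t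

open Cvx

theorem comb_face {P : Type*} [TopologicalSpace P] [Cvx P] {m : ℕ} (p : Fin (m + 2) → P) (i : Fin (m + 2))
    (t : Dl m) : comb p (dface m i t) = comb (fun j => p (i.succAbove j)) t := by
  rw [dface_eq, comb_comp]
  simp only [comb_vtx]

noncomputable instance {m : ℕ} : Cvx (Dl m) where
  comb q := combD q
  comb_vtx p i := combD_vtx p i
  comb_comp p q t := by
    refine stdSimplex.ext (funext fun x => ?_)
    simp only [combD_apply, Finset.sum_mul, Finset.mul_sum]
    rw [Finset.sum_comm]
    refine Finset.sum_congr rfl (fun i _ => Finset.sum_congr rfl (fun j _ => ?_))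
    ring

noncomputable instance {V : Type*} [NormedAddCommGroup V] [NormedSpace ℝ V] : Cvx V where
  comb p := ⟨fun t => ∑ i, t i • p i, continuous_finsetSum _ (fun i _ =>
    ((continuous_apply i).comp continuous_subtype_val).smul continuous_const)⟩
  comb_vtx p i := by
    show ∑ j, (vtx i : Dl _) j • p j = p i
    simp [vtx_apply]
  comb_comp p q t := by
    show ∑ i, (combD q t) i • p i = ∑ j, t j • ∑ i, q j i • p i
    simp only [combD_apply, Finset.sum_smul, Finset.smul_sum, smul_smul]
    rw [Finset.sum_comm]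

noncomputable instance {P Q : Type*} [TopologicalSpace P] [TopologicalSpace Q] [Cvx P] [Cvx Q] : Cvx (P × Q) where
  comb p := (comb (fun i => (p i).1)).prodMk (comb (fun i => (p i).2))
  comb_vtx p i := by
    show (comb (fun i => (p i).1) (vtx i), comb (fun i => (p i).2) (vtx i)) = p i
    rw [comb_vtx, comb_vtx]
  comb_comp p q t := by
    show (comb (fun i => (p i).1) (combD q t), comb (fun i => (p i).2) (combD q t)) = _
    rw [comb_comp, comb_comp]
    rfl

variable {P Q : Type*} [TopologicalSpace P] [TopologicalSpace Q] [Cvx P] [Cvx Q]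

/-- affine maps -/
def IsAff (f : C(P, Q)) : Prop := ∀ (m : ℕ) (p : Fin (m + 1) → P) (t : Dl m), f (comb p t) = comb (fun i => f (p i)) t

theorem isAff_comb {m : ℕ} (p : Fin (m + 1) → P) : IsAff (comb p) := fun _ q t => comb_comp p q t

/-- realisation of tuples as affine singular simplices -/
noncomputable def real (k : ℕ) : TC P k →ₗ[ℝ] SC P k := Finsupp.lmapDomain ℝ ℝ (fun p => comb p)

@[simp] theorem real_single (k : ℕ) (p : Fin (k + 1) → P) (r : ℝ) :
    real k (Finsupp.single p r) = Finsupp.single (comb p) r := by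
  simp [real]

theorem bd_real (k : ℕ) (c : TC P (k + 1)) : bd k (real (k + 1) c) = real k (td k c) :=
  gd_map (X := fun k => (Fin (k + 1) → P)) (tface P) (Y := Sx P) (sface P) (fun _ p => comb p)
    (fun k i p => by
      ext t
      show comb (fun j => p (i.succAbove j)) t = comb p (dface k i t)
      rw [comb_face]) k c

theorem smap_real (f : C(P, Q)) (hf : IsAff f) (k : ℕ) (c : TC P k) :
    smap f k (real k c) = real k (tmap f k c) := by
  have : (smap f k).comp (real k) = (real k).comp (tmap f k) := by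
    refine Finsupp.lhom_ext' (fun x => LinearMap.ext_ring ?_)
    simp only [LinearMap.comp_apply, Finsupp.lsingle_apply, real_single, smap_single, tmap_single]
    congr 1
    ext t
    exact hf k x t
  exact LinearMap.congr_fun this c

/-- the tuple of vertices -/
noncomputable def iot (m : ℕ) : TC (Dl m) m := Finsupp.single (fun i => vtx i) (1 : ℝ)

theorem smap_iot {m : ℕ} (σ : Sx X m) : smap σ m (real m (iot m)) = Finsupp.single σ (1 : ℝ) := by
  rw [iot, real_single, smap_single]
  congr 1
  ext t
  show σ (combD _ t) = σ t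
  rw [combD_id]

theorem tmap_dface_iot (m : ℕ) (i : Fin (m + 2)) :
    tmap (dface m i) m (iot m) = Finsupp.single (fun j => vtx (i.succAbove j)) (1 : ℝ) := by
  rw [iot, tmap_single]
  congr 1
  funext j
  rw [dface_vtx]

theorem td_iot (m : ℕ) : td m (iot (m + 1)) = ∑ i : Fin (m + 2), (-1 : ℝ) ^ (i : ℕ) • tmap (dface m i) m (iot m) := by
  rw [iot, td_single, one_smul]
  refine Finset.sum_congr rfl (fun i _ => ?_)
  rw [tmap_dface_iot]
  rfl

theorem isAff_dface (m : ℕ) (i : Fin (m + 2)) : IsAff (dface m i) := by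
  intro l q t
  rw [dface_eq]
  show combD _ (combD q t) = _
  have := isAff_comb (P := Dl (m + 1)) (fun j => vtx (i.succAbove j)) l q t
  refine this.trans ?_
  have e : (fun j => (comb (fun j => (vtx (i.succAbove j) : Dl (m + 1)))) (q j)) = fun j => dface m i (q j) := by
    funext j
    rw [dface_eq]
    rfl
  rw [e]

theorem tmap_comb_iot (m : ℕ) (p : Fin (m + 1) → P) : tmap (comb p) m (iot m) = Finsupp.single p (1 : ℝ) := by
  rw [iot, tmap_single]
  congr 1
  funext j
  rw [comb_vtx]

end SV
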