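import Pool.Agent.Helper43.SV.Base

/-! The complex of ordered tuples of a set, cones and homotopies by cones with variable apex. -/

namespace SV

open Finset

theorem succAbove_id {k : ℕ} (i j : Fin (k + 2)) (h : i ≤ j) (x : Fin (k + 1)) :
    j.succ.succAbove (i.succAbove x) = i.castSucc.succAbove (j.succAbove x) := by
  ext
  rw [Fin.le_def] at h
  simp only [Fin.succAbove, Fin.lt_def, Fin.val_castSucc, Fin.val_succ]
  split_ifs <;> simp_all <;> omega

variable {P Q R : Type*}

/-- chains of ordered tuples -/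
abbrev TC (P : Type*) (k : ℕ) := (Fin (k + 1) → P) →₀ ℝ

/-- faces of tuples -/
def tface (P : Type*) (k : ℕ) (i : Fin (k + 2)) (p : Fin (k + 2) → P) : Fin (k + 1) → P :=
  fun j => p (i.succAbove j)

theorem tface_SId (P : Type*) : SId (X := fun k => (Fin (k + 1) → P)) (tface P) := by
  intro k x i j hij
  funext m
  simp only [tface]
  rw [succAbove_id i j hij]

/-- boundary of tuple chains -/
noncomputable def td (k : ℕ) : TC P (k + 1) →ₗ[ℝ] TC P k :=
  gd (X := fun k => (Fin (k + 1) → P)) (tface P) k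

theorem td_td (k : ℕ) (c : TC P (k + 2)) : td k (td (k + 1) c) = 0 :=
  gd_gd (X := fun k => (Fin (k + 1) → P)) (tface P) (tface_SId P) k c

theorem td_single (k : ℕ) (p : Fin (k + 2) → P) (r : ℝ) :
    td k (Finsupp.single p r) = r • ∑ i : Fin (k + 2), (-1 : ℝ) ^ (i : ℕ) • Finsupp.single (tface P k i p) (1 : ℝ) :=
  gd_single (X := fun k => (Fin (k + 1) → P)) (tface P) k p r

/-- maps of tuple chains -/
noncomputable def tmap (f : P → Q) (k : ℕ) : TC P k →ₗ[ℝ] TC Q k :=
  Finsupp.lmapDomain ℝ ℝ (fun p i => f (p i))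

@[simp] theorem tmap_single (f : P → Q) (k : ℕ) (p : Fin (k + 1) → P) (r : ℝ) :
    tmap f k (Finsupp.single p r) = Finsupp.single (fun i => f (p i)) r := by
  simp [tmap]

theorem td_tmap (f : P → Q) (k : ℕ) (c : TC P (k + 1)) : td k (tmap f (k + 1) c) = tmap f k (td k c) :=
  gd_map (X := fun k => (Fin (k + 1) → P)) (tface P) (Y := fun k => (Fin (k + 1) → Q)) (tface Q)
    (fun _ p i => f (p i)) (fun _ _ _ => rfl) k c

theorem tmap_tmap (f : P → Q) (g : Q → R) (k : ℕ) (c : TC P k) :
    tmap g k (tmap f k c) = tmap (fun x => g (f x)) k c := by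
  have : (tmap g k).comp (tmap f k) = tmap (fun x => g (f x)) k := by
    refine Finsupp.lhom_ext' (fun x => LinearMap.ext_ring ?_)
    simp
  exact LinearMap.congr_fun this c

/-- cone with apex b -/
noncomputable def tcone (b : P) (k : ℕ) : TC P k →ₗ[ℝ] TC P (k + 1) :=
  Finsupp.lmapDomain ℝ ℝ (fun p => Fin.cons b p)

@[simp] theorem tcone_single (b : P) (k : ℕ) (p : Fin (k + 1) → P) (r : ℝ) :
    tcone b k (Finsupp.single p r) = Finsupp.single (Fin.cons b p) r := by
  simp [tcone]

theorem tmap_tcone (f : P → Q) (b : P) (k : ℕ) (c : TC P k) :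
    tmap f (k + 1) (tcone b k c) = tcone (f b) k (tmap f k c) := by
  have : (tmap f (k + 1)).comp (tcone b k) = (tcone (f b) k).comp (tmap f k) := by
    refine Finsupp.lhom_ext' (fun x => LinearMap.ext_ring ?_)
    simp only [LinearMap.comp_apply, Finsupp.lsingle_apply, tcone_single, tmap_single]
    congr 1
    funext i
    refine Fin.cases ?_ (fun j => ?_) i <;> simp
  exact LinearMap.congr_fun this c

/-- augmentation -/
noncomputable def aug {A : Type*} : (A →₀ ℝ) →ₗ[ℝ] ℝ := Finsupp.linearCombination ℝ (fun _ => (1 : ℝ))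

@[simp] theorem aug_single {A : Type*} (a : A) (r : ℝ) : aug (Finsupp.single a r) = r := by
  simp [aug, Finsupp.linearCombination_single]

theorem aug_td (c : TC P 1) : aug (td 0 c) = 0 := by
  have : (aug (A := Fin 1 → P)).comp (td 0) = 0 := by
    refine Finsupp.lhom_ext' (fun x => LinearMap.ext_ring ?_)
    simp [td_single, Fin.sum_univ_succ]
  exact LinearMap.congr_fun this c

theorem td_tcone (b : P) (k : ℕ) (c : TC P (k + 1)) :
    td (k + 1) (tcone b (k + 1) c) = c - tcone b k (td k c) := by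
  have : (td (k + 1)).comp (tcone b (k + 1)) = LinearMap.id - (tcone b k).comp (td k) := by
    refine Finsupp.lhom_ext' (fun x => LinearMap.ext_ring ?_)
    simp only [LinearMap.comp_apply, Finsupp.lsingle_apply, tcone_single, td_single, one_smul,
      LinearMap.sub_apply, LinearMap.id_apply, map_sum, map_smul]
    rw [Fin.sum_univ_succ]
    have e0 : tface P (k + 1) 0 (Fin.cons b x) = x := by
      funext i; simp [tface]
    have e1 : ∀ i : Fin (k + 2), tface P (k + 1) i.succ (Fin.cons b x) = Fin.cons b (tface P k i x) := by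
      intro i
      funext j
      refine Fin.cases ?_ (fun j => ?_) j
      · simp [tface]
      · simp [tface, Fin.succ_succAbove_succ]
    rw [e0]
    simp only [e1, Fin.val_succ, pow_succ, Fin.val_zero, pow_zero, one_smul]
    rw [sub_eq_add_neg]
    congr 1
    rw [← Finset.sum_neg_distrib]
    refine Finset.sum_congr rfl (fun i _ => ?_)
    rw [← neg_smul]
    congr 1
    ring
  exact LinearMap.congr_fun this c

theorem td_tcone_zero (b : P) (c : TC P 0) :
    td 0 (tcone b 0 c) = c - aug c • Finsupp.single (fun _ => b) (1 : ℝ) := by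
  have : (td 0).comp (tcone b 0) = LinearMap.id - (aug).smulRight (Finsupp.single (fun _ => b) (1 : ℝ)) := by
    refine Finsupp.lhom_ext' (fun x => LinearMap.ext_ring ?_)
    simp only [LinearMap.comp_apply, Finsupp.lsingle_apply, tcone_single, td_single, one_smul,
      LinearMap.sub_apply, LinearMap.id_apply, LinearMap.smulRight_apply, aug_single]
    rw [Fin.sum_univ_two]
    have e0 : tface P 0 0 (Fin.cons b x) = x := by
      funext i; simp [tface]
    have e1 : tface P 0 1 (Fin.cons b x) = (fun _ => b) := by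
      funext i
      have : i = 0 := Fin.fin_one_eq_zero i
      subst this
      simp [tface]
    rw [e0, e1]
    simp [sub_eq_add_neg]
  exact LinearMap.congr_fun this c

/-- a tuple chain all of whose vertices lie in S -/
def TIn {k : ℕ} (S : Set P) (c : TC P k) : Prop := ∀ q ∈ c.support, ∀ i, q i ∈ S

section TIn

variable {S T : Set P} {k : ℕ}

theorem TIn.zero : TIn S (0 : TC P k) := by intro q hq; simp at hq

theorem TIn.add {c c' : TC P k} (h : TIn S c) (h' : TIn S c') : TIn S (c + c') := by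
  classical
  intro q hq
  rcases Finset.mem_union.1 (Finsupp.support_add hq) with h1 | h1
  · exact h q h1
  · exact h' q h1

theorem TIn.smul {c : TC P k} (r : ℝ) (h : TIn S c) : TIn S (r • c) :=
  fun q hq => h q (Finsupp.support_smul hq)

theorem TIn.neg {c : TC P k} (h : TIn S c) : TIn S (-c) := by
  have := h.smul (-1); simpa using this

theorem TIn.sub {c c' : TC P k} (h : TIn S c) (h' : TIn S c') : TIn S (c - c') := by
  rw [sub_eq_add_neg]; exact h.add h'.neg

theorem TIn.mono {c : TC P k} (h : TIn S c) (hST : S ⊆ T) : TIn T c := fun q hq i => hST (h q hq i)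

theorem TIn.sum {ι : Type*} (s : Finset ι) (f : ι → TC P k) (h : ∀ i ∈ s, TIn S (f i)) :
    TIn S (∑ i ∈ s, f i) := by
  classical
  induction s using Finset.induction_on with
  | empty => simpa using TIn.zero
  | insert a s ha ih =>
    rw [Finset.sum_insert ha]
    exact (h a (by simp)).add (ih (fun i hi => h i (by simp [hi])))

theorem TIn.single {p : Fin (k + 1) → P} (r : ℝ) (h : ∀ i, p i ∈ S) : TIn S (Finsupp.single p r) := by
  classical
  intro q hq
  have := Finsupp.support_single_subset hq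
  rw [Finset.mem_singleton] at this
  rw [this]; exact h

theorem TIn.lin {Q : Type*} {l : ℕ} {S : Set P} (f : TC Q l →ₗ[ℝ] TC P k) (c : TC Q l)
    (h : ∀ q ∈ c.support, TIn S (f (Finsupp.single q 1))) : TIn S (f c) := by
  classical
  have : c = ∑ q ∈ c.support, c q • Finsupp.single q (1 : ℝ) := by
    conv_lhs => rw [← Finsupp.sum_single c]
    simp [Finsupp.sum]
  rw [this, map_sum]
  refine TIn.sum _ _ (fun q hq => ?_)
  rw [map_smul]
  exact (h q hq).smul _

theorem TIn.tcone {b : P} {c : TC P k} (hb : b ∈ S) (h : TIn S c) : TIn S (tcone b k c) := by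
  refine TIn.lin _ _ (fun q hq => ?_)
  rw [tcone_single]
  refine TIn.single _ (fun i => ?_)
  refine Fin.cases ?_ (fun j => ?_) i
  · simpa using hb
  · simpa using h q hq j

theorem TIn.td {c : TC P (k + 1)} (h : TIn S c) : TIn S (td k c) := by
  refine TIn.lin _ _ (fun q hq => ?_)
  rw [td_single, one_smul]
  refine TIn.sum _ _ (fun i _ => ?_)
  exact (TIn.single _ (fun j => h q hq _)).smul _

theorem TIn.tmap {f : P → Q} {S : Set P} {T : Set Q} (hf : ∀ x ∈ S, f x ∈ T) {c : TC P k} (h : TIn S c) :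
    TIn T (tmap f k c) := by
  refine TIn.lin _ _ (fun q hq => ?_)
  rw [tmap_single]
  exact TIn.single _ (fun i => hf _ (h q hq i))

end TIn

/-- linear extension of a function on tuples -/
noncomputable def ext {A B : Type*} (f : A → (B →₀ ℝ)) : (A →₀ ℝ) →ₗ[ℝ] (B →₀ ℝ) :=
  Finsupp.linearCombination ℝ f

@[simp] theorem ext_single {A B : Type*} (f : A → (B →₀ ℝ)) (a : A) (r : ℝ) :
    ext f (Finsupp.single a r) = r • f a := by
  simp [ext, Finsupp.linearCombination_single]

section hK

variable (φ ψ : ∀ k, TC P k →ₗ[ℝ] TC Q k) (b : ∀ k, (Fin (k + 1) → P) → Q)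

/-- homotopy between two chain maps, by cones with variable apex -/
noncomputable def hK : ∀ k, TC P k →ₗ[ℝ] TC Q (k + 1)
  | 0 => ext (fun p => tcone (b 0 p) 0 (φ 0 (Finsupp.single p 1) - ψ 0 (Finsupp.single p 1)))
  | (k + 1) => ext (fun p => tcone (b (k + 1) p) (k + 1)
      (φ (k + 1) (Finsupp.single p 1) - ψ (k + 1) (Finsupp.single p 1) - hK k (td k (Finsupp.single p 1))))

theorem hK_zero_single (p : Fin 1 → P) : hK φ ψ b 0 (Finsupp.single p 1) =
    tcone (b 0 p) 0 (φ 0 (Finsupp.single p 1) - ψ 0 (Finsupp.single p 1)) := by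
  simp [hK]

theorem hK_succ_single (k : ℕ) (p : Fin (k + 2) → P) : hK φ ψ b (k + 1) (Finsupp.single p 1) =
    tcone (b (k + 1) p) (k + 1)
      (φ (k + 1) (Finsupp.single p 1) - ψ (k + 1) (Finsupp.single p 1) - hK φ ψ b k (td k (Finsupp.single p 1))) := by
  simp [hK]

variable (hφ : ∀ k c, td k (φ (k + 1) c) = φ k (td k c)) (hψ : ∀ k c, td k (ψ (k + 1) c) = ψ k (td k c))
  (h0 : ∀ c, aug (φ 0 c) = aug (ψ 0 c))

include h0 in
theorem td_hK_zero (c : TC P 0) : td 0 (hK φ ψ b 0 c) = φ 0 c - ψ 0 c := by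
  have : (td 0).comp (hK φ ψ b 0) = φ 0 - ψ 0 := by
    refine Finsupp.lhom_ext' (fun x => LinearMap.ext_ring ?_)
    simp only [LinearMap.comp_apply, Finsupp.lsingle_apply, hK_zero_single, LinearMap.sub_apply]
    rw [td_tcone_zero]
    have : aug (φ 0 (Finsupp.single x 1) - ψ 0 (Finsupp.single x 1)) = 0 := by
      rw [map_sub, h0, sub_self]
    rw [this, zero_smul, sub_zero]
  exact LinearMap.congr_fun this c

include hφ hψ h0 in
theorem td_hK (k : ℕ) : ∀ c : TC P (k + 1),
    td (k + 1) (hK φ ψ b (k + 1) c) = φ (k + 1) c - ψ (k + 1) c - hK φ ψ b k (td k c) := by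
  induction k with
  | zero =>
    intro c
    have : (td 1).comp (hK φ ψ b 1) = φ 1 - ψ 1 - (hK φ ψ b 0).comp (td 0) := by
      refine Finsupp.lhom_ext' (fun x => LinearMap.ext_ring ?_)
      simp only [LinearMap.comp_apply, Finsupp.lsingle_apply, LinearMap.sub_apply]
      have e : td 0 (φ 1 (Finsupp.single x 1) - ψ 1 (Finsupp.single x 1) - hK φ ψ b 0 (td 0 (Finsupp.single x 1))) = 0 := by
        rw [map_sub, map_sub, hφ, hψ, td_hK_zero φ ψ b h0]
        simp
      rw [hK_succ_single, td_tcone, e, map_zero, sub_zero]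
    exact LinearMap.congr_fun this c
  | succ k ih =>
    intro c
    have : (td (k + 2)).comp (hK φ ψ b (k + 2)) = φ (k + 2) - ψ (k + 2) - (hK φ ψ b (k + 1)).comp (td (k + 1)) := by
      refine Finsupp.lhom_ext' (fun x => LinearMap.ext_ring ?_)
      simp only [LinearMap.comp_apply, Finsupp.lsingle_apply, LinearMap.sub_apply]
      have e : td (k + 1) (φ (k + 2) (Finsupp.single x 1) - ψ (k + 2) (Finsupp.single x 1)
          - hK φ ψ b (k + 1) (td (k + 1) (Finsupp.single x 1))) = 0 := by
        rw [map_sub, map_sub, hφ, hψ, ih, td_td]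
        simp
      rw [hK_succ_single, td_tcone, e, map_zero, sub_zero]
    exact LinearMap.congr_fun this c

/-- support control for the homotopy -/
theorem hK_TIn (S : ∀ k, (Fin (k + 1) → P) → Set Q)
    (hφS : ∀ k p, TIn (S k p) (φ k (Finsupp.single p 1))) (hψS : ∀ k p, TIn (S k p) (ψ k (Finsupp.single p 1)))
    (hb : ∀ k p, b k p ∈ S k p) (hS : ∀ k p i, S k (tface P k i p) ⊆ S (k + 1) p) (k : ℕ) :
    ∀ p, TIn (S k p) (hK φ ψ b k (Finsupp.single p 1)) := by
  induction k with
  | zero =>
    intro p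
    rw [hK_zero_single]
    exact ((hφS 0 p).sub (hψS 0 p)).tcone (hb 0 p)
  | succ k ih =>
    intro p
    rw [hK_succ_single]
    refine TIn.tcone (hb (k + 1) p) (((hφS (k + 1) p).sub (hψS (k + 1) p)).sub ?_)
    rw [td_single, one_smul, map_sum]
    refine TIn.sum _ _ (fun i _ => ?_)
    rw [map_smul]
    exact ((ih _).mono (hS k p i)).smul _

end hK

section nat

variable {P' Q' : Type*} (φ ψ : ∀ k, TC P k →ₗ[ℝ] TC Q k) (b : ∀ k, (Fin (k + 1) → P) → Q)
  (φ' ψ' : ∀ k, TC P' k →ₗ[ℝ] TC Q' k) (b' : ∀ k, (Fin (k + 1) → P') → Q')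
  (f : P → P') (g : Q → Q')

theorem hK_nat (hφ : ∀ k c, φ' k (tmap f k c) = tmap g k (φ k c))
    (hψ : ∀ k c, ψ' k (tmap f k c) = tmap g k (ψ k c))
    (hb : ∀ k p, b' k (fun i => f (p i)) = g (b k p)) (k : ℕ) :
    ∀ c, hK φ' ψ' b' k (tmap f k c) = tmap g (k + 1) (hK φ ψ b k c) := by
  induction k with
  | zero =>
    intro c
    have : (hK φ' ψ' b' 0).comp (tmap f 0) = (tmap g 1).comp (hK φ ψ b 0) := by
      refine Finsupp.lhom_ext' (fun x => LinearMap.ext_ring ?_)
      simp only [LinearMap.comp_apply, Finsupp.lsingle_apply]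
      rw [tmap_single, hK_zero_single, hK_zero_single, tmap_tcone, map_sub (tmap g 0), hb, ← tmap_single, hφ, hψ]
    exact LinearMap.congr_fun this c
  | succ k ih =>
    intro c
    have : (hK φ' ψ' b' (k + 1)).comp (tmap f (k + 1)) = (tmap g (k + 2)).comp (hK φ ψ b (k + 1)) := by
      refine Finsupp.lhom_ext' (fun x => LinearMap.ext_ring ?_)
      simp only [LinearMap.comp_apply, Finsupp.lsingle_apply]
      rw [tmap_single, hK_succ_single, hK_succ_single, tmap_tcone, map_sub (tmap g (k + 1)), map_sub (tmap g (k + 1)),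
        hb, ← tmap_single, hφ, hψ, td_tmap, ih]
    exact LinearMap.congr_fun this c

end nat

end SV
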